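import Pool.Agent.H60.NA.Pfr
import Pool.Agent.H54.ND.Cfg3

/-!
# Copies of pairs of lines over one near point

`pair_far`: the far digits of the point are full given the near data `y` of a pair of lines.
`na_core`: everything in the first pair is as free given `E` and the partial data `ell` of the line
number `j` of all copies over `y` as given `E` and `ell` of one pair.
-/

set_option autoImplicit false

namespace Pool.NA60

open Finset Real
open Pool.Agent.H49.Ent Pool.Agent.H32.Dense Pool.STK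
open Pool.BFL (Pb)
open Pool.K2S (cpn)
open Pool.CLU (cpn_law cpn_pos cpn_marg)
open Pool.H52.TIE (CH_cpn CH_cpn_zero)

section

variable {Ω R X X' S S' T T' Λ Y D' E' Tm : Type} [Fintype Ω]

/-- **The far digits of the point are full** given the near data of a pair of lines. -/
theorem pair_far {p : Ω → ℝ} (hp : IsLaw p) (r : Ω → R) (x0 : Ω → X) (Uc : Ω → S) (Uf : Ω → S')
    (f : Ω → T) (fb : Ω → T') (y : (Fin 2 → Ω) → Y) {e₁ e₂ e₃ e₄ : ℝ} (hrx : Det p r x0)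
    (hrc : Det p r Uc) (hrf : Det p r Uf) (hfb : Det p f fb)
    (h1 : CH p f x0 ≤ CH p f (fun ω => ((Uc ω, Uf ω), x0 ω)) + e₁)
    (h2 : CH p f x0 - CH p fb x0 ≤ CH p f r + e₂)
    (h3 : CH (cpn p r 1) (fun v => fb (v 1)) (fun v => fb (v 0)) ≤ e₃)
    (hy : CH (cpn p r 1) y (fun v => (Uc (v 0), (f (v 0), (f (v 1), x0 (v 0))))) ≤ e₄) (j : Fin 2) :
    CH p Uf (fun ω => (Uc ω, x0 ω)) - (e₁ + e₂ + e₃ + e₄) ≤
      CH (cpn p r 1) (fun v => Uf (v j)) y := by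
  have p0 := hp.nonneg
  have hm := pair_free hp r x0 (fun ω => (Uc ω, Uf ω)) f fb hrx
    (fun ω ω' a b h => Prod.ext (hrc ω ω' a b h) (hrf ω ω' a b h)) hfb h1 h2 h3
  have m0 : ∀ {A B : Type} (a : Ω → A) (b : Ω → B), CH (cpn p r 1) (fun v => a (v 0))
      (fun v => b (v 0)) = CH p a b := fun a b => CH_cpn hp r 1 0 a b
  obtain ⟨q, hq⟩ : ∃ q, q = cpn p r 1 := ⟨_, rfl⟩
  have hql : IsLaw q := by rw [hq]; exact cpn_law hp r 1
  have q0 := hql.nonneg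
  have hpos : ∀ v, 0 < q v → (∀ i, 0 < p (v i)) ∧ ∀ i, r (v i) = r (v 0) := fun v hv => by
    rw [hq] at hv
    exact ⟨fun i => (cpn_pos p0 r 1 v hv).1 i, fun i => (cpn_pos p0 r 1 v hv).2 i⟩
  rw [← hq] at hm hy m0 ⊢
  have a1 := CH_chain p0 Uf Uc x0
  have a1' : CH p (fun ω => (Uf ω, Uc ω)) x0 = CH p (fun ω => (Uc ω, Uf ω)) x0 :=
    Pool.MIC.CH_swl p0 _ _ _
  have a2 := CH_chain q0 (fun v => Uf (v 0)) (fun v => Uc (v 0))
    (fun v => (f (v 0), (f (v 1), x0 (v 0))))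
  have a2' : CH q (fun v => (Uf (v 0), Uc (v 0))) (fun v => (f (v 0), (f (v 1), x0 (v 0)))) =
      CH q (fun v => (Uc (v 0), Uf (v 0))) (fun v => (f (v 0), (f (v 1), x0 (v 0)))) :=
    Pool.MIC.CH_swl q0 _ _ _
  have a3 : CH q (fun v => Uc (v 0)) (fun v => (f (v 0), (f (v 1), x0 (v 0)))) ≤ CH p Uc x0 := by
    rw [← m0 Uc x0]
    exact CH_mono_cond q0 fun v v' _ _ h => (Prod.ext_iff.1 (Prod.ext_iff.1 h).2).2
  have a4 := CH_le_add q0 (fun v => Uf (v 0)) y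
    (fun v => (Uc (v 0), (f (v 0), (f (v 1), x0 (v 0)))))
  have a5 : CH q (fun v => Uf (v 0)) (fun v => (y v, (Uc (v 0), (f (v 0), (f (v 1), x0 (v 0)))))) ≤
      CH q (fun v => Uf (v 0)) y := CH_mono_cond q0 fun _ _ _ _ h => (Prod.ext_iff.1 h).1
  have a6 : CH q (fun v => Uf (v 0)) y ≤ CH q (fun v => Uf (v j)) y := by
    refine CH_mono_left q0 fun v v' hv hv' h => ?_
    have h' := (Prod.ext_iff.1 h).1
    show Uf (v 0) = Uf (v' 0)
    rw [← hrf _ _ ((hpos v hv).1 j) ((hpos v hv).1 0) ((hpos v hv).2 j),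
      ← hrf _ _ ((hpos v' hv').1 j) ((hpos v' hv').1 0) ((hpos v' hv').2 j)]
    exact h'
  linarith

/-- **The copies of pairs of lines over one near point.** -/
theorem na_core {p : Ω → ℝ} (hp : IsLaw p) (r : Ω → R) (x0 : Ω → X) (Uc : Ω → S) (Uf : Ω → S')
    (f : Ω → T) (fb : Ω → T') (ell : Ω → Λ) (x : Ω → X') (t : Ω → Tm) (y : (Fin 2 → Ω) → Y)
    {e₁ e₂ e₃ e₄ cU ef eo eU : ℝ} (hrx : Det p r x0) (hrc : Det p r Uc) (hrf : Det p r Uf)
    (hrt : Det p r t) (hfb : Det p f fb) (hex : Det p ell x)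
    (h1 : CH p f x0 ≤ CH p f (fun ω => ((Uc ω, Uf ω), x0 ω)) + e₁)
    (h2 : CH p f x0 - CH p fb x0 ≤ CH p f r + e₂)
    (h3 : CH (cpn p r 1) (fun v => fb (v 1)) (fun v => fb (v 0)) ≤ e₃)
    (hyx : ∀ j : Fin 2, Det (cpn p r 1) y (fun v => x (v j)))
    (hyt : Det (cpn p r 1) y (fun v => t (v 0)))
    (hy : CH (cpn p r 1) y (fun v => (Uc (v 0), (f (v 0), (f (v 1), x0 (v 0))))) ≤ e₄)
    (hf : CH p ell x ≤ cU + ef) (ho : CH p Uf (fun ω => (ell ω, t ω)) ≤ eo)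
    (hU : cU - eU ≤ CH p Uf (fun ω => (Uc ω, x0 ω))) (n : ℕ) (j : Fin 2)
    (D : (Fin 2 → Ω) → D') (E : (Fin 2 → Ω) → E') :
    CH (cpn p r 1) D (fun v => (E v, ell (v j))) -
      n * (ef + eo + (eU + (e₁ + e₂ + e₃ + e₄))) ≤
      CH (cpn (cpn p r 1) y n) (fun w => D (w 0)) (fun w => (E (w 0), fun i => ell (w i j))) := by
  have p0 := hp.nonneg
  have hff := pair_far hp r x0 Uc Uf f fb y hrx hrc hrf hfb h1 h2 h3 hy j
  have mj : ∀ {A B : Type} (a : Ω → A) (b : Ω → B), CH (cpn p r 1) (fun v => a (v j))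
      (fun v => b (v j)) = CH p a b := fun a b => CH_cpn hp r 1 j a b
  have hpos : ∀ v, 0 < cpn p r 1 v → (∀ i, 0 < p (v i)) ∧ ∀ i, r (v i) = r (v 0) := fun v hv =>
    ⟨fun i => (cpn_pos p0 r 1 v hv).1 i, fun i => (cpn_pos p0 r 1 v hv).2 i⟩
  have hql : IsLaw (cpn p r 1) := cpn_law hp r 1
  have hU' : cU - (eU + (e₁ + e₂ + e₃ + e₄)) ≤ CH (cpn p r 1) (fun v => Uf (v j)) y := by
    linarith
  refine Pool.ND54.nd_core hql (fun v => ell (v j)) (fun v => x (v j)) (fun v => Uf (v j)) y n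
    (hyx j) ?_ ?_ ?_ hU' D E
  · exact fun v v' hv hv' h => hex _ _ ((hpos v hv).1 j) ((hpos v' hv').1 j) h
  · exact (mj ell x).le.trans hf
  · refine le_trans (CH_mono_cond hql.nonneg fun v v' hv hv' h => ?_)
      ((mj Uf (fun ω => (ell ω, t ω))).le.trans ho)
    have h' := Prod.ext_iff.1 h
    refine Prod.ext h'.1 ?_
    show t (v j) = t (v' j)
    rw [hrt _ _ ((hpos v hv).1 j) ((hpos v hv).1 0) ((hpos v hv).2 j),
      hrt _ _ ((hpos v' hv').1 j) ((hpos v' hv').1 0) ((hpos v' hv').2 j)]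
    exact hyt _ _ hv hv' h'.2

end

end Pool.NA60
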