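import Pool.Agent.H54.ND.Tup
import Pool.Agent.H60.NA.Cor

/-!
# The levels of all lines of a tuple of pairs of lines over one near point

`na_full`: the own time is full given a line and the level-free data of all lines number `j` of the
tuple. `na_tup`: `lvl_tup` for both lines of the pairs.
-/

set_option autoImplicit false

namespace Pool.NA60

open Finset Real
open Pool.Agent.H49.Ent Pool.Agent.H32.Dense Pool.STK
open Pool.BFL (Pb)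
open Pool.STB (Pb_mono Pb_or)
open Pool.K2S (cpn)
open Pool.CLU (cpn_law cpn_pos cpn_marg)
open Pool.H52.TIE (CH_cpn CH_cpn_zero)
open Pool.ND54 (tu ti ai lvl_tup)

section

variable {Ω R X X' S S' T T' Λ L Y Tm : Type} [Fintype Ω]

/-- **The own time of a line of a pair is full** given the line and the level-free data of the
copies. -/
theorem na_full {p : Ω → ℝ} (hp : IsLaw p) (r : Ω → R) (x0 : Ω → X) (Uc : Ω → S) (Uf : Ω → S')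
    (f : Ω → T) (fb : Ω → T') (l : Ω → Λ) (ell : Ω → L) (x : Ω → X') (t : Ω → Tm)
    (y : (Fin 2 → Ω) → Y) {e₁ e₂ e₃ e₄ cU ef eo eU : ℝ} (hrx : Det p r x0) (hrc : Det p r Uc)
    (hrf : Det p r Uf) (hrt : Det p r t) (hfb : Det p f fb) (hex : Det p ell x)
    (hle : Det p l ell)
    (h1 : CH p f x0 ≤ CH p f (fun ω => ((Uc ω, Uf ω), x0 ω)) + e₁)
    (h2 : CH p f x0 - CH p fb x0 ≤ CH p f r + e₂)
    (h3 : CH (cpn p r 1) (fun v => fb (v 1)) (fun v => fb (v 0)) ≤ e₃)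
    (hyx : ∀ j : Fin 2, Det (cpn p r 1) y (fun v => x (v j)))
    (hyt : Det (cpn p r 1) y (fun v => t (v 0)))
    (hy : CH (cpn p r 1) y (fun v => (Uc (v 0), (f (v 0), (f (v 1), x0 (v 0))))) ≤ e₄)
    (hf : CH p ell x ≤ cU + ef) (ho : CH p Uf (fun ω => (ell ω, t ω)) ≤ eo)
    (hU : cU - eU ≤ CH p Uf (fun ω => (Uc ω, x0 ω))) (n : ℕ) (j : Fin 2) {D' : Type}
    (D : Ω → D') :
    CH p D l - n * (ef + eo + (eU + (e₁ + e₂ + e₃ + e₄))) ≤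
      CH (cpn (cpn p r 1) y n) (fun w => D (w 0 j))
        (fun w => (l (w 0 j), fun i => ell (w i j))) := by
  have h4 := na_core hp r x0 Uc Uf f fb ell x t y hrx hrc hrf hrt hfb hex h1 h2 h3 hyx hyt hy hf ho
    hU n j (fun v => D (v j)) (fun v => l (v j))
  have hm : CH (cpn p r 1) (fun v => D (v j)) (fun v => (l (v j), ell (v j))) =
      CH p D (fun ω => (l ω, ell ω)) := CH_cpn hp r 1 j D (fun ω => (l ω, ell ω))
  rw [hm] at h4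
  have h5 : CH p D l ≤ CH p D (fun ω => (l ω, ell ω)) :=
    CH_mono_cond hp.nonneg fun ω ω' hω hω' h => Prod.ext h (hle _ _ hω hω' h)
  linarith

/-- **The levels of both lines of a tuple of pairs.** -/
theorem na_tup (D d : ℕ) : ∃ C : ℕ, 1 ≤ C ∧ ∀ {Ω R X X' S S' T T' Λ L Y Tm Xr : Type} [Fintype Ω]
    {p : Ω → ℝ} (_ : IsLaw p) (r : Ω → R) (x0 : Ω → X) (Uc : Ω → S) (Uf : Ω → S')
    (f : Ω → T) (fb : Ω → T') (l : Ω → Λ) (ell : Ω → L) (x : Ω → X') (t : Ω → Tm)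
    (y : (Fin 2 → Ω) → Y) {e₁ e₂ e₃ e₄ cU ef eo eU : ℝ} (_ : Det p r x0) (_ : Det p r Uc)
    (_ : Det p r Uf) (_ : Det p r t) (_ : Det p f fb) (_ : Det p ell x) (_ : Det p l ell)
    (_ : CH p f x0 ≤ CH p f (fun ω => ((Uc ω, Uf ω), x0 ω)) + e₁)
    (_ : CH p f x0 - CH p fb x0 ≤ CH p f r + e₂)
    (_ : CH (cpn p r 1) (fun v => fb (v 1)) (fun v => fb (v 0)) ≤ e₃)
    (_ : ∀ j : Fin 2, Det (cpn p r 1) y (fun v => x (v j)))
    (_ : Det (cpn p r 1) y (fun v => t (v 0)))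
    (_ : CH (cpn p r 1) y (fun v => (Uc (v 0), (f (v 0), (f (v 1), x0 (v 0))))) ≤ e₄)
    (_ : CH p ell x ≤ cU + ef) (_ : CH p Uf (fun ω => (ell ω, t ω)) ≤ eo)
    (_ : cU - eU ≤ CH p Uf (fun ω => (Uc ω, x0 ω)))
    -- the rows and the paths
    (xr : L → Xr) (tt : Ω → ℤ) (nP cP : Λ → Polynomial ℝ)
    (hL : L → ℝ) (B : Ω → Prop) (Sr : ℕ → Xr × ℤ → Finset ℤ) (n M Xd : ℕ) (N a b : ℕ → ℕ)
    (V : ℕ → ℝ) (K eT c₀ c₁ ρ δg δC η s Su Bn Bc Qb : ℝ), 1 ≤ M → 0 < ρ → ρ < 1 →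
    (C : ℝ) ≤ ρ ^ C * (2 * M + 1) →
    (∀ ω, 0 < p ω → |tt ω| ≤ (M : ℤ)) → Real.log (2 * M + 1) - eT ≤ CH p tt l →
    (∀ l, (nP l).natDegree ≤ d) → (∀ l, (cP l).natDegree ≤ d) → 0 ≤ δg → 0 ≤ δC → 0 ≤ K →
    0 < s → 0 ≤ Su → Qb = (Su / s) ^ (D - 1) * Su →
    (∀ ω ω', 0 < p ω → 0 < p ω' → ell ω = ell ω' → ∀ τ ∈ Set.Icc (0 : ℝ) 1,
      |((nP (l ω)).eval τ - (nP (l ω)).eval 0) - ((nP (l ω')).eval τ - (nP (l ω')).eval 0)| ≤ δg ∧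
      |(cP (l ω)).eval τ - (cP (l ω')).eval τ| ≤ δC) →
    (∀ j, Pb (cpn (cpn p r 1) y (2 * D + 1)) (fun w => ¬ ((∀ i i', i ≠ i' →
        s ≤ |hL (ell (w i j)) - hL (ell (w i' j))| ∧
          |hL (ell (w i j)) - hL (ell (w i' j))| ≤ Su) ∧
      (∀ i, ∀ τ ∈ Set.Icc (0 : ℝ) 1, |(nP (l (w i j))).eval τ| ≤ Bn ∧
        |(cP (l (w i j))).eval τ| ≤ Bc) ∧
      ∀ i, |(nP (l (w i j))).eval (tu M (tt (w 0 j))) -
        (nP (l (w 0 j))).eval (tu M (tt (w 0 j))) -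
        ∑ k : Fin D, (Pool.NDD66.Qk (fun k => hL (ell (w (ai k) j))) (hL (ell (w 0 j))) k).eval
          (hL (ell (w i j))) * (cP (l (w (ai k) j))).eval (tu M (tt (w 0 j)))| ≤ η)) ≤ c₁) →
    (∀ k < n, ∀ ω, 0 < p ω → B ω → ⌊2 ^ Xd * (nP (l ω)).eval 0⌋ / 2 ^ a k ∈
      Sr k (xr (ell ω), ⌊2 ^ Xd * (nP (l ω)).eval 0⌋ / 2 ^ b k)) →
    (∀ k < n, ∀ w, (Sr k w).card ≤ N k) → Pb p (fun ω => ¬ B ω) ≤ c₀ →
    2 ^ Xd * (η + (D * Qb * δC + δg)) + 1 ≤ K →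
    2 ^ Xd * (2 * ((3 * Bn + D * Qb * Bc) + (D * Qb * δC + δg))) ≤ V n →
    (∀ k < n, a k ≤ b k ∧ K ≤ 2 ^ a k ∧ 0 < V k ∧ V (k + 1) ≤ 2 ^ b k ∧
      (C : ℝ) * N k * 2 ^ a k ≤ ρ ^ C * V k ∧ (C : ℝ) * N k ≤ ρ ^ C * M) →
    Pb (cpn (cpn p r 1) y (2 * D + 1)) (fun w => ¬ ∀ j, ((∀ i i', i ≠ i' →
        s ≤ |hL (ell (w i j)) - hL (ell (w i' j))| ∧
          |hL (ell (w i j)) - hL (ell (w i' j))| ≤ Su) ∧
      ∀ i, ∀ τ ∈ Set.Icc (0 : ℝ) 1, |(nP (l (w i j))).eval τ - (nP (l (w 0 j))).eval τ -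
        ∑ k : Fin D, (Pool.NDD66.Qk (fun k => hL (ell (w (ai k) j))) (hL (ell (w 0 j))) k).eval
          (hL (ell (w i j))) * (cP (l (w (ai k) j))).eval τ| ≤
        (2 * K + 2 * V 0) / 2 ^ Xd + (D * Qb * δC + δg))) ≤
      2 * ((2 * D + 2) * (c₀ + 3 * c₁ + n * ((eT + ((2 * D + 1 : ℕ) : ℝ) *
        (ef + eo + (eU + (e₁ + e₂ + e₃ + e₄))) + Real.log 2) / Real.log (1 / ρ)))) := by
  classical
  obtain ⟨C, hC, hlt⟩ := lvl_tup D d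
  refine ⟨C, hC, ?_⟩
  intro Ω R X X' S S' T T' Λ L Y Tm Xr _ p hp r x0 Uc Uf f fb l ell x t y e₁ e₂ e₃ e₄ cU ef eo eU
    hrx hrc hrf hrt hfb hex hle h1 h2 h3 hyx hyt hy hf ho hU xr tt nP cP hL B Sr n M Xd N a b Vn K
    eT c₀ c₁ ρ δg δC η s Su Bn Bc Qb hM hρ hρ1 hCM htM hfT hnd hcd hδg hδC hK0 hs hSu hQb hell
    hgood hrow hcard hB hK hV hnum
  have hql : IsLaw (cpn p r 1) := cpn_law hp r 1
  obtain ⟨Q, hQ⟩ : ∃ Q, Q = cpn (cpn p r 1) y (2 * D + 1) := ⟨_, rfl⟩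
  have Q0 : ∀ w, 0 ≤ Q w := by rw [hQ]; exact (cpn_law hql y _).nonneg
  have key : ∀ j, Pb Q (fun w => ¬ ((∀ i i', i ≠ i' →
        s ≤ |hL (ell (w i j)) - hL (ell (w i' j))| ∧
          |hL (ell (w i j)) - hL (ell (w i' j))| ≤ Su) ∧
      ∀ i, ∀ τ ∈ Set.Icc (0 : ℝ) 1, |(nP (l (w i j))).eval τ - (nP (l (w 0 j))).eval τ -
        ∑ k : Fin D, (Pool.NDD66.Qk (fun k => hL (ell (w (ai k) j))) (hL (ell (w 0 j))) k).eval
          (hL (ell (w i j))) * (cP (l (w (ai k) j))).eval τ| ≤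
        (2 * K + 2 * Vn 0) / 2 ^ Xd + (D * Qb * δC + δg))) ≤
      (2 * D + 2) * (c₀ + 3 * c₁ + n * ((eT + ((2 * D + 1 : ℕ) : ℝ) *
        (ef + eo + (eU + (e₁ + e₂ + e₃ + e₄))) + Real.log 2) / Real.log (1 / ρ))) := by
    intro j
    have hpos : ∀ v, 0 < cpn p r 1 v → 0 < p (v j) := fun v hv =>
      (cpn_pos hp.nonneg r 1 v hv).1 j
    have hfull := na_full hp r x0 Uc Uf f fb l ell x t y hrx hrc hrf hrt hfb hex hle h1 h2 h3 hyx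
      hyt hy hf ho hU (2 * D + 1) j tt
    rw [hQ]
    refine hlt _ Λ L Xr Y (cpn p r 1) y (fun v => l (v j)) (fun v => ell (v j)) xr
      (fun v => tt (v j)) nP cP hL (fun v => B (v j)) Sr n M Xd N a b Vn K
      (eT + ((2 * D + 1 : ℕ) : ℝ) * (ef + eo + (eU + (e₁ + e₂ + e₃ + e₄)))) c₀ c₁ ρ δg δC η s Su
      Bn Bc Qb hql hM hρ hρ1 hCM (fun v hv => htM _ (hpos v hv)) (by linarith) hnd hcd hδg hδC hK0
      hs hSu hQb (fun v v' hv hv' => hell _ _ (hpos v hv) (hpos v' hv')) (hgood j)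
      (fun k hk v hv => hrow k hk _ (hpos v hv)) hcard ?_ hK hV hnum
    rw [Pool.MIC.Marg.Pb_eq (cpn_marg hp.nonneg r 1 j) (fun ω => ¬ B ω)]
    exact hB
  rw [← hQ]
  refine le_trans (Pb_mono Q0 (B := fun w => ∃ j : Fin 2, ¬ ((∀ i i', i ≠ i' →
        s ≤ |hL (ell (w i j)) - hL (ell (w i' j))| ∧
          |hL (ell (w i j)) - hL (ell (w i' j))| ≤ Su) ∧
      ∀ i, ∀ τ ∈ Set.Icc (0 : ℝ) 1, |(nP (l (w i j))).eval τ - (nP (l (w 0 j))).eval τ -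
        ∑ k : Fin D, (Pool.NDD66.Qk (fun k => hL (ell (w (ai k) j))) (hL (ell (w 0 j))) k).eval
          (hL (ell (w i j))) * (cP (l (w (ai k) j))).eval τ| ≤
        (2 * K + 2 * Vn 0) / 2 ^ Xd + (D * Qb * δC + δg))) fun w _ h => not_forall.1 h) ?_
  refine (Pool.MIC.Pb_exists_le Q0 _).trans ?_
  refine (Finset.sum_le_sum fun j _ => key j).trans (le_of_eq ?_)
  rw [Finset.sum_const, Finset.card_univ, Fintype.card_fin, nsmul_eq_mul]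
  push_cast
  ring

end

end Pool.NA60
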