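import Pool.Agent.H54.ND.Cfg
import Pool.Agent.H46.PR.Few
import Pool.Agent.H46.MIC.Cpn
import Pool.Agent.H64.K2.Plk2

/-!
# Two lines over one near point

`pair_free`: `v 0`, `v 1` two samples over `r`; `f` is a datum of the line, `fb` the part of `f` which
`r` sees. If `f` is free of `U` given `x0` and the part of `f` behind `fb` is free of `r`, then `U` is as
free given `x0` and both `f (v 0)`, `f (v 1)` as given `x0`. `pair_close`: `fb` of one sample given `fb`
of the other one. `alive_sep`: the two values of `f` are separated.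
-/

set_option autoImplicit false

namespace Pool.NA60

open Finset Real
open Pool.Agent.H49.Ent Pool.Agent.H32.Dense Pool.STK
open Pool.BFL (Pb)
open Pool.K2S (cpn)
open Pool.CLU (cpn_law cpn_pos cpn_marg)
open Pool.H52.TIE (CH_cpn CH_cpn_zero)
open Pool.ND54 (cpn_tail)

section

variable {Ω R X S T T' Γ : Type} [Fintype Ω]

/-- **Two lines over one near point**: the far digits stay free given both data. -/
theorem pair_free {p : Ω → ℝ} (hp : IsLaw p) (r : Ω → R) (x0 : Ω → X) (U : Ω → S) (f : Ω → T)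
    (fb : Ω → T') {e₁ e₂ e₃ : ℝ} (hrx : Det p r x0) (hrU : Det p r U) (hfb : Det p f fb)
    (h1 : CH p f x0 ≤ CH p f (fun ω => (U ω, x0 ω)) + e₁)
    (h2 : CH p f x0 - CH p fb x0 ≤ CH p f r + e₂)
    (h3 : CH (cpn p r 1) (fun v => fb (v 1)) (fun v => fb (v 0)) ≤ e₃) :
    CH p U x0 - (e₁ + e₂ + e₃) ≤
      CH (cpn p r 1) (fun v => U (v 0)) (fun v => (f (v 0), (f (v 1), x0 (v 0)))) := by
  classical
  have p0 := hp.nonneg
  obtain ⟨q, hq⟩ : ∃ q, q = cpn p r 1 := ⟨_, rfl⟩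
  have hql : IsLaw q := by rw [hq]; exact cpn_law hp r 1
  have q0 := hql.nonneg
  have hpos : ∀ v, 0 < q v → (∀ i, 0 < p (v i)) ∧ ∀ i, r (v i) = r (v 0) := fun v hv => by
    rw [hq] at hv
    exact ⟨fun i => (cpn_pos p0 r 1 v hv).1 i, fun i => (cpn_pos p0 r 1 v hv).2 i⟩
  rw [← hq] at h3 ⊢
  have hx01 : ∀ v, 0 < q v → x0 (v 1) = x0 (v 0) := fun v hv =>
    hrx _ _ ((hpos v hv).1 1) ((hpos v hv).1 0) ((hpos v hv).2 1)
  -- marginals
  have m0 : ∀ {A B : Type} (a : Ω → A) (b : Ω → B), CH q (fun v => a (v 0)) (fun v => b (v 0)) =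
      CH p a b := fun a b => by rw [hq]; exact CH_cpn hp r 1 0 a b
  have m1 : ∀ {A B : Type} (a : Ω → A) (b : Ω → B), CH q (fun v => a (v 1)) (fun v => b (v 1)) =
      CH p a b := fun a b => by rw [hq]; exact CH_cpn hp r 1 1 a b
  -- the chain rules
  have c1 := CH_chain q0 (fun v => U (v 0)) (fun v => (f (v 0), f (v 1))) (fun v => x0 (v 0))
  have c2 := CH_chain q0 (fun v => (f (v 0), f (v 1))) (fun v => U (v 0)) (fun v => x0 (v 0))
  have c3 : CH q (fun v => (U (v 0), (f (v 0), f (v 1)))) (fun v => x0 (v 0)) =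
      CH q (fun v => ((f (v 0), f (v 1)), U (v 0))) (fun v => x0 (v 0)) :=
    Pool.MIC.CH_swl q0 _ _ _
  have c4 : CH q (fun v => U (v 0)) (fun v => ((f (v 0), f (v 1)), x0 (v 0))) ≤
      CH q (fun v => U (v 0)) (fun v => (f (v 0), (f (v 1), x0 (v 0)))) :=
    CH_mono_cond q0 fun v v' _ _ h => by
      have h' := Prod.ext_iff.1 h
      have h'' := Prod.ext_iff.1 h'.1
      exact Prod.ext h''.1 (Prod.ext h''.2 h'.2)
  -- upper bound of the pair given `x0`
  have d1 := CH_chain q0 (fun v => f (v 1)) (fun v => f (v 0)) (fun v => x0 (v 0))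
  have d1' : CH q (fun v => (f (v 1), f (v 0))) (fun v => x0 (v 0)) =
      CH q (fun v => (f (v 0), f (v 1))) (fun v => x0 (v 0)) := Pool.MIC.CH_swl q0 _ _ _
  have d2 : CH q (fun v => f (v 1)) (fun v => (f (v 0), x0 (v 0))) ≤
      CH q (fun v => f (v 1)) (fun v => (fb (v 0), x0 (v 0))) :=
    CH_mono_cond q0 fun v v' hv hv' h => by
      have h' := Prod.ext_iff.1 h
      exact Prod.ext (hfb _ _ ((hpos v hv).1 0) ((hpos v' hv').1 0) h'.1) h'.2
  have d3 := CH_le_add q0 (fun v => f (v 1)) (fun v => fb (v 1)) (fun v => (fb (v 0), x0 (v 0)))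
  have d4 : CH q (fun v => fb (v 1)) (fun v => (fb (v 0), x0 (v 0))) ≤
      CH q (fun v => fb (v 1)) (fun v => fb (v 0)) :=
    CH_mono_cond q0 fun _ _ _ _ h => (Prod.ext_iff.1 h).1
  have d5 : CH q (fun v => f (v 1)) (fun v => (fb (v 1), (fb (v 0), x0 (v 0)))) ≤
      CH p f (fun ω => (fb ω, x0 ω)) := by
    rw [← m1 f (fun ω => (fb ω, x0 ω))]
    refine CH_mono_cond q0 fun v v' hv hv' h => ?_
    have h' := Prod.ext_iff.1 h
    have h'' := Prod.ext_iff.1 h'.2
    simp only at h' h''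
    refine Prod.ext h'.1 ?_
    show x0 (v 1) = x0 (v' 1)
    rw [hx01 v hv, hx01 v' hv', h''.2]
  have d6 : CH p f (fun ω => (fb ω, x0 ω)) = CH p f x0 - CH p fb x0 := by
    have e1 := CH_chain p0 f fb x0
    have e2 : CH p (fun ω => (f ω, fb ω)) x0 = CH p f x0 := by
      refine CH_congr p0 ?_ ?_ (fun _ _ _ _ h => h) (fun _ _ _ _ h => h)
      · exact fun ω ω' _ _ h => (Prod.ext_iff.1 (Prod.ext_iff.1 h).1).1
      · intro ω ω' hω hω' h
        have h' := (Prod.ext_iff.1 h).1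
        exact Prod.ext h' (hfb ω ω' hω hω' h')
    linarith
  have d7 : CH q (fun v => f (v 0)) (fun v => x0 (v 0)) = CH p f x0 := m0 f x0
  -- lower bound of the pair given `U` and `x0`
  have g1 := CH_chain q0 (fun v => f (v 1)) (fun v => f (v 0)) (fun v => (U (v 0), x0 (v 0)))
  have g1' : CH q (fun v => (f (v 1), f (v 0))) (fun v => (U (v 0), x0 (v 0))) =
      CH q (fun v => (f (v 0), f (v 1))) (fun v => (U (v 0), x0 (v 0))) :=
    Pool.MIC.CH_swl q0 _ _ _
  have g2 : CH q (fun v => f (v 0)) (fun v => (U (v 0), x0 (v 0))) =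
      CH p f (fun ω => (U ω, x0 ω)) := m0 f (fun ω => (U ω, x0 ω))
  have g3 : CH p f r ≤ CH q (fun v => f (v 1)) (fun v => (f (v 0), (U (v 0), x0 (v 0)))) := by
    have k1 := cpn_tail hp r f 1
    rw [← hq, Nat.cast_one, one_mul] at k1
    refine k1.trans ?_
    have k2 : CH q (fun (w : Fin (1 + 1) → Ω) (j : Fin 1) => f (w j.succ)) (fun w => w 0) ≤
        CH q (fun v => f (v 1)) (fun w => w 0) :=
      CH_mono_left q0 fun w w' _ _ h => by
        have h' := Prod.ext_iff.1 h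
        refine funext fun j => ?_
        have hj : j = 0 := Subsingleton.elim _ _
        rw [hj]
        exact h'.1
    refine k2.trans (CH_mono_cond q0 fun v v' _ _ h => ?_)
    have h' : v 0 = v' 0 := h
    show (f (v 0), (U (v 0), x0 (v 0))) = (f (v' 0), (U (v' 0), x0 (v' 0)))
    rw [h']
  have g4 : CH q (fun v => U (v 0)) (fun v => x0 (v 0)) = CH p U x0 := m0 U x0
  linarith

/-- **Close parts**: the parts `fb` of two samples over `r` are close. -/
theorem pair_close {p : Ω → ℝ} (hp : IsLaw p) (r : Ω → R) {D : ℕ} (fb : Ω → Fin D → ℤ) {B : ℝ}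
    (h : ∀ ω ω', 0 < p ω → 0 < p ω' → r ω = r ω' → ∀ i, |((fb ω i - fb ω' i : ℤ) : ℝ)| ≤ B) :
    CH (cpn p r 1) (fun v => fb (v 1)) (fun v => fb (v 0)) ≤ D * Real.log (2 * (2 * B) + 1) := by
  have p0 := hp.nonneg
  refine Pool.KA.Plk.CH_vec_const (cpn_law hp r 1) (fun v => fb (v 1)) (fun v => fb (v 0)) ?_
  intro v v' hv hv' e i
  have hv0 := cpn_pos p0 r 1 v hv
  have hv0' := cpn_pos p0 r 1 v' hv'
  have a1 := h (v 1) (v 0) (hv0.1 1) (hv0.1 0) (hv0.2 1) i
  have a2 := h (v' 1) (v' 0) (hv0'.1 1) (hv0'.1 0) (hv0'.2 1) i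
  have e' : fb (v 0) i = fb (v' 0) i := congrFun e i
  push_cast at a1 a2 ⊢
  rw [e'] at a1
  rw [abs_le] at a1 a2 ⊢
  constructor <;> linarith

/-- **Few parts**: `g` is seen by `r`, and `g`, `fb` are few bits given each other. -/
theorem pair_few {p : Ω → ℝ} (hp : IsLaw p) (r : Ω → R) (fb : Ω → T') (g : Ω → Γ) {e₁ e₂ : ℝ}
    (hg : Det p r g) (h1 : CH p fb g ≤ e₁) (h2 : CH p g fb ≤ e₂) :
    CH (cpn p r 1) (fun v => fb (v 1)) (fun v => fb (v 0)) ≤ e₁ + e₂ := by
  have p0 := hp.nonneg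
  obtain ⟨q, hq⟩ : ∃ q, q = cpn p r 1 := ⟨_, rfl⟩
  have hql : IsLaw q := by rw [hq]; exact cpn_law hp r 1
  have q0 := hql.nonneg
  have hpos : ∀ v, 0 < q v → (∀ i, 0 < p (v i)) ∧ ∀ i, r (v i) = r (v 0) := fun v hv => by
    rw [hq] at hv
    exact ⟨fun i => (cpn_pos p0 r 1 v hv).1 i, fun i => (cpn_pos p0 r 1 v hv).2 i⟩
  rw [← hq]
  have a1 := CH_le_add q0 (fun v => fb (v 1)) (fun v => g (v 1)) (fun v => fb (v 0))
  have a2 : CH q (fun v => g (v 1)) (fun v => fb (v 0)) ≤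
      CH q (fun v => g (v 0)) (fun v => fb (v 0)) :=
    CH_mono_left q0 fun v v' hv hv' h => by
      have h' := (Prod.ext_iff.1 h).1
      show g (v 1) = g (v' 1)
      rw [hg _ _ ((hpos v hv).1 1) ((hpos v hv).1 0) ((hpos v hv).2 1),
        hg _ _ ((hpos v' hv').1 1) ((hpos v' hv').1 0) ((hpos v' hv').2 1)]
      exact h'
  have a3 : CH q (fun v => g (v 0)) (fun v => fb (v 0)) = CH p g fb := by
    rw [hq]; exact CH_cpn hp r 1 0 g fb
  have a4 : CH q (fun v => fb (v 1)) (fun v => (g (v 1), fb (v 0))) ≤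
      CH q (fun v => fb (v 1)) (fun v => g (v 1)) :=
    CH_mono_cond q0 fun _ _ _ _ h => (Prod.ext_iff.1 h).1
  have a5 : CH q (fun v => fb (v 1)) (fun v => g (v 1)) = CH p fb g := by
    rw [hq]; exact CH_cpn hp r 1 1 fb g
  linarith

/-- **Separated values**: if `x` to the precision `B` has much entropy given `r` on every large part,
then the values of `x` at two samples over `r` differ by `B`, off a small event. -/
theorem alive_sep {p : Ω → ℝ} (hp : IsLaw p) (r : Ω → R) (x : Ω → ℝ) {B δ : ℝ} (hB : 0 < B)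
    (hδ : 0 < δ)
    (hal : ∀ E : Ω → Prop, δ / 2 ≤ Pb p E →
      Real.log (6 / δ) < CH (Pool.Agent.H49.Ent.cond p E True) (fun ω => ⌊x ω / B⌋) r) :
    Pb (cpn p r 1) (fun v => |x (v 1) - x (v 0)| < B) ≤ δ := by
  have h1 := Pool.PR46.alive_Pb hp r x hB hδ hal
  have h2 := Pool.MIC.cpn_pair hp.nonneg r 1 (i := 0) (i' := 1) (by decide)
  have h3 := Pool.MIC.Marg.Pb_eq h2 (fun w : Ω × Ω => |x w.2 - x w.1| < B)
  rw [h3]
  exact h1

end

end Pool.NA60
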