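import Pool.Agent.H60.NA.Rel
import Pool.Agent.H91.LA.Grad

/-!
# The near-alive step, event level

`na_evt`: off a small mass of the copies of pairs of lines over one near point, the divided difference
of the slopes of the lines number `0` of the tuple is small.
-/

set_option autoImplicit false

namespace Pool.NA60

open Finset Real MvPolynomial
open Pool.Agent.H49.Ent Pool.Agent.H32.Dense Pool.STK Pool.KA Pool.KSAT Pool.K2S Pool.PB Pool.S6C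
open Pool.GEN hiding Det
open Pool.CHT Pool.D2R Pool.LA91 Pool.RCD
open Pool.PB.Trl (rt rt_mem t_rt)
open Pool.V0F (cR)
open Pool.NDC42
open Pool.BFL (Pb)
open Pool.STB (Pb_mono Pb_or)
open Pool.CLU (cpn_law cpn_pos cpn_marg)
open Pool.NA36 (vpC f1C f2C fbC X0 rX NaT NaE)
open Pool.ND54 (cond_A det_x0 det_xg elN hh hLc grP grP_deg OwnE LinE ti ai ti_inj ai_inj pc_near
  pc_near1 opl_deg)
open Pool.NDD66 (op op_at op_deg op_der ov mu Lam Lam_le ov_near)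

variable {m J : ℕ}

/-- The first jet of the own path is the own velocity. -/
theorem ojet_ov (F : Fam m J) (c : ℕ → Fin m) (ψ : ℕ → MvPolynomial (Option (Fin m)) ℝ) (l : ℕ)
    (ω : F.Ω) : ojet F (c l) 1 (ψ l) ω = ov F c ψ ω l := by
  classical
  unfold Pool.LA91.ojet Pool.NDD66.ov
  rw [jet_one]
  have h1 : ∀ o, bd F ω o * eval (bt F ω) (pderiv o (X (some (c l)) - ψ l)) =
      bd F ω o * (if o = some (c l) then 1 else 0) - eval (bt F ω) (pderiv o (ψ l)) * bd F ω o := by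
    intro o
    rw [map_sub, map_sub, pderiv_X, mul_sub, mul_comm (bd F ω o) (eval (bt F ω) (pderiv o (ψ l)))]
    congr 2
    by_cases h : o = some (c l)
    · rw [h, Pi.single_eq_same, if_pos rfl, map_one]
    · rw [if_neg h, Pi.single_eq_of_ne (Ne.symm h), map_zero]
  rw [Finset.sum_congr rfl fun o _ => h1 o, Finset.sum_sub_distrib]
  unfold dd
  congr 1
  rw [Finset.sum_eq_single (some (c l))]
  · rw [if_pos rfl, mul_one]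
  · intro o _ ho
    rw [if_neg ho, mul_zero]
  · intro h
    exact absurd (Finset.mem_univ _) h

/-- **Alive**: the own velocities of `c 2` of the two lines of the first pair differ. -/
theorem na_alive {F : Fam m J} {A : F.Ω → Prop} (hA : 0 < Pe F.p A) {c : ℕ → Fin m} {D : ℕ}
    {w t τ : ℝ} {n : ℕ → ℝ} {nt nτ s₀ β δ e : ℝ}
    {H : LnT F → ℕ → MvPolynomial (Option (Fin m)) ℝ}
    (ha : NaT F A c D w t τ n nt nτ s₀ β δ e H) (hδ : 0 < δ) :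
    Pb (naQ F A c D w t τ n nt H) (fun v =>
      |ov F c (H (slam F ⌊w * J⌋₊ (v 0 1))) (v 0 1) 2 -
        ov F c (H (slam F ⌊w * J⌋₊ (v 0 0))) (v 0 0) 2| < 2 ^ (-((nτ - τ + β) * J))) ≤ δ := by
  have hp := isLaw_cond F.isLaw hA
  have hql := cpn_law hp (rX F A c D w t τ n nt H) 1
  have h1 := alive_sep hp (rX F A c D w t τ n nt H)
    (fun ω => ojet F (c 2) 1 (H (slam F ⌊w * J⌋₊ ω) 2) ω)
    (B := 2 ^ (-((nτ - τ + β) * J))) (δ := δ) (Real.rpow_pos_of_pos (by norm_num) _) hδ ha.al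
  simp only [ojet_ov] at h1
  refine le_trans (le_of_eq ?_) h1
  exact Pool.MIC.Marg.Pb_eq (cpn_marg hql.nonneg (yA F A c D w t n nt H) (2 * D + 1) 0)
    (fun v : Fin (1 + 1) → F.Ω => |ov F c (H (slam F ⌊w * J⌋₊ (v 1))) (v 1) 2 -
      ov F c (H (slam F ⌊w * J⌋₊ (v 0))) (v 0) 2| < 2 ^ (-((nτ - τ + β) * J)))

/-- **The near-alive step, event level**: the divided difference of the slopes of the own lines of the
tuple, off a small mass of the copies. -/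
theorem na_evt (D D₂ : ℕ) : ∃ C : ℕ, 1 ≤ C ∧ ∀ {m J : ℕ} {F : Fam m J} {A : F.Ω → Prop}
    (_ : 0 < Pe F.p A) {c : ℕ → Fin m} {w t τ x' : ℝ} {n : ℕ → ℝ} {nt nτ s₀ β δd e : ℝ}
    {H Hr : LnT F → ℕ → MvPolynomial (Option (Fin m)) ℝ} (_ : NaE F A c D w x' n e H)
    (_ : NaT F A c D w t t n nt nt s₀ β δd e H) (_ : NaT F A c D w t τ n nt nτ s₀ β δd e H),
    w ≤ t → t ≤ 1 → 0 ≤ e → nτ - (τ - w) ≤ n 2 → ⌊w * J⌋₊ < J → nt ≤ n 2 → 0 < δd → ∀ {e₃ : ℝ},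
    CH (cpn (Pool.Agent.H49.Ent.cond F.p A True) (rX F A c D w t τ n nt H) 1)
      (fun v => fbC F c w H τ nτ (v 1)) (fun v => fbC F c w H τ nτ (v 0)) ≤ e₃ →
    (∀ s l, (H s l).totalDegree ≤ D) →
    (∀ ω ω', A ω → A ω' → cR F A w ω = cR F A w ω' →
      H (slam F ⌊w * J⌋₊ ω) = H (slam F ⌊w * J⌋₊ ω')) →
    -- the codes
    ∀ {Kc : Type} (kc : F.Ω → Kc) {δ : ℝ},
    (∀ ω ω', A ω → A ω' → slam F ⌊w * J⌋₊ ω = slam F ⌊w * J⌋₊ ω' → kc ω = kc ω') →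
    CH (Pool.Agent.H49.Ent.cond F.p A True) kc (xg F A c D w n nt H) ≤ e * J →
    (∀ ω ω', A ω → A ω' → elN F A c D w n nt H kc ω = elN F A c D w n nt H kc ω' →
      ∀ τ ∈ Set.Icc (0 : ℝ) 1, |(grP F c D₂ ⌊w * J⌋₊ H Hr (slam F ⌊w * J⌋₊ ω) 2).eval τ -
        (grP F c D₂ ⌊w * J⌋₊ H Hr (slam F ⌊w * J⌋₊ ω') 2).eval τ| ≤ δ) →
    0 ≤ δ →
    -- the geometry
    ∀ {δn : ℕ → ℝ} {η η' : ℝ}, OwnE F A c D D₂ w t H Hr δn (3 / 2 ^ (nt * J)) η η' →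
    (∀ l < 2, ((D : ℝ) + 2) / 2 ^ (n l * J) ≤ δn l) → ((D : ℝ) + 3) / 2 ^ (n 2 * J) ≤ δn 2 →
    0 ≤ η' → ∀ {Bn Bc : ℝ} {Bg : ℕ → ℝ}, (∀ ω, A ω → ∀ τ ∈ Set.Icc (0 : ℝ) 1,
      |(Pool.ND54.opl F c ⌊w * J⌋₊ H 3 ω).eval τ| ≤ Bn ∧
      |(grP F c D₂ ⌊w * J⌋₊ H Hr (slam F ⌊w * J⌋₊ ω) 2).eval τ| ≤ Bc) →
    (∀ ω, A ω → ∀ l < 2, ∀ τ ∈ Set.Icc (0 : ℝ) 1,
      |(grP F c D₂ ⌊w * J⌋₊ H Hr (slam F ⌊w * J⌋₊ ω) l).eval τ| ≤ Bg l) →
    ∀ {δv : ℕ → ℝ} {El : ℝ}, LinE F A c D₂ ⌊w * J⌋₊ H Hr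
      (fun a b => rX F A c D w t τ n nt H a = rX F A c D w t τ n nt H b) δv El → 0 ≤ El →
    (∀ l ≤ 2, 2 ^ C * 2 ^ ⌊w * J⌋₊ * (((D : ℝ) + 2) / 2 ^ (n l * J)) ≤ δv l) →
    -- the rows
    ∀ (B : F.Ω → Prop) (S : ℕ → _ × ℤ → Finset ℤ) (nr Xd Ks : ℕ) (N a b : ℕ → ℕ) (V : ℕ → ℝ)
      (K c₀ c₁ Λ ρ : ℝ),
    (∀ k < nr, ∀ ω, A ω → B ω →
      ⌊2 ^ Xd * (Pool.ND54.opl F c ⌊w * J⌋₊ H 3 ω).eval 0⌋ / 2 ^ a k ∈
      S k (xg F A c D w n nt H ω,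
        ⌊2 ^ Xd * (Pool.ND54.opl F c ⌊w * J⌋₊ H 3 ω).eval 0⌋ / 2 ^ b k)) →
    (∀ k < nr, ∀ y, (S k y).card ≤ N k) →
    Pb (Pool.Agent.H49.Ent.cond F.p A True) (fun ω => ¬ B ω) ≤ c₀ → 1 ≤ Ks → 0 < Λ →
    Real.log (2 * Ks + 1) + Λ ≤ (n 2 - nt) * Real.log 2 * J →
    (2 * D + 2) ^ 2 * (8 * (e * J) + Real.log 5 + e₃ + Real.log 3 + Real.log 2) ≤ c₁ * Λ →
    -- the numbers
    ∀ {s Su Qb η₁ η₂ η₃ Lm εR ε : ℝ}, s = Ks / 2 ^ (n 2 * J) → Su = 3 / 2 ^ (nt * J) →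
    Qb = (Su / s) ^ (D - 1) * Su → η₁ = 2 * η + D * Qb * η' →
    η₂ = D * Qb * δ + (D + 1) / 2 ^ (n 3 * J) → η₃ = (2 * K + 2 * V 0) / 2 ^ Xd + η₂ →
    0 < ρ → ρ < 1 → (C : ℝ) ≤ ρ ^ C * (2 * ((2 ^ (J - ⌊w * J⌋₊ - 1) : ℕ) : ℝ) + 1) → 0 ≤ K →
    0 ≤ V 0 → 2 ^ Xd * (η₁ + η₂) + 1 ≤ K →
    2 ^ Xd * (2 * ((3 * Bn + D * Qb * Bc) + η₂)) ≤ V nr →
    (∀ k < nr, a k ≤ b k ∧ K ≤ 2 ^ a k ∧ 0 < V k ∧ V (k + 1) ≤ 2 ^ b k ∧
      (C : ℝ) * N k * 2 ^ a k ≤ ρ ^ C * V k ∧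
      (C : ℝ) * N k ≤ ρ ^ C * ((2 ^ (J - ⌊w * J⌋₊ - 1) : ℕ) : ℝ)) →
    (2 * (D : ℝ) + 8) / 2 ^ (n 2 * J) ≤ Su → Lm = (D + 2) * (Su / s) ^ (D + 1) →
    2 ^ C * 2 ^ ⌊w * J⌋₊ * (Lm * (η₃ + D * ((2 * Su / s) ^ (D - 1) *
      ((2 * D + 8) / 2 ^ (n 2 * J)) * Bc))) + Lm * El ≤ εR →
    2 * εR + Lm * ∑ l ∈ range 2, Bg l * δv l ≤ ε * 2 ^ (-((nτ - τ + β) * J)) →
    Pb (naQ F A c D w t τ n nt H) (fun v => ¬ ((∀ i i', i ≠ i' →
        s ≤ |hh F c D w (n 2) H (v i 0) - hh F c D w (n 2) H (v i' 0)| ∧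
          |hh F c D w (n 2) H (v i 0) - hh F c D w (n 2) H (v i' 0)| ≤ Su) ∧
      |∑ k : Fin (D + 2), mu (fun k => hh F c D w (n 2) H (v (ti k) 0)) k *
        (grP F c D₂ ⌊w * J⌋₊ H Hr (slam F ⌊w * J⌋₊ (v (ti k) 0)) 2).eval
          (rt F ⌊w * J⌋₊ (v 0 0))| ≤ ε)) ≤
      2 * ((2 * D + 2) * (c₀ + 3 * c₁ + nr * (((e * J + 2 * Real.log 2) +
        ((2 * D + 1 : ℕ) : ℝ) * (10 * (e * J) + Real.log 5 + e₃) + Real.log 2) /
          Real.log (1 / ρ)))) + δd := by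
  classical
  obtain ⟨C₁, hC₁, hlvl⟩ := na_lvl D D₂
  obtain ⟨C₂', hC₂', hrel'⟩ := na_rel D D₂
  obtain ⟨C₃, hC₃, hov⟩ := ov_near D
  obtain ⟨C₂, hC₂, hC₂'', hC₂₃⟩ : ∃ C₂ : ℕ, 1 ≤ C₂ ∧ C₂' ≤ C₂ ∧ C₃ ≤ C₂ :=
    ⟨C₂' + C₃, by omega, by omega, by omega⟩
  refine ⟨C₁ + C₂, by omega, ?_⟩
  intro m J F A hA c w t τ x' n nt nτ s₀ β δd e H Hr hE ht ha hwt ht1 he hn hW hnt hδd e₃ h3 hdH
    hHc Kc kc δ hk1 hk2 hk3 hδ δn η η' hOwn hδn hδn2 hη' Bn Bc Bg hBd hBg δv El hLn hEl hδv B S nr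
    Xd Ks N a b V K c₀ c₁ Λ ρ hrow hcard hB hKs hΛ hKΛ hcΛ s Su Qb η₁ η₂ η₃ Lm εR ε hs hSu hQb hη₁
    hη₂ hη₃ hρ hρ1 hCM hK0 hV0 hK hV hnum hδh hLm hεR hε
  have hp := isLaw_cond F.isLaw hA
  have hQl : IsLaw (naQ F A c D w t τ n nt H) := cpn_law (cpn_law hp _ 1) _ _
  have hQ0 := hQl.nonneg
  have hn2 : (0 : ℝ) < 2 ^ (n 2 * J) := Real.rpow_pos_of_pos (by norm_num) _
  have hKs0 : (0 : ℝ) < Ks := by exact_mod_cast hKs
  have hs0 : 0 < s := by rw [hs]; positivity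
  have hSu0 : 0 < Su := by
    rw [hSu]
    exact div_pos (by norm_num) (Real.rpow_pos_of_pos (by norm_num) _)
  have hpw : ρ ^ (C₁ + C₂) ≤ ρ ^ C₁ := pow_le_pow_of_le_one hρ.le hρ1.le (by omega)
  have hC12 : (C₁ : ℝ) ≤ ((C₁ + C₂ : ℕ) : ℝ) := by
    push_cast
    linarith [Nat.cast_nonneg (α := ℝ) C₂]
  have hQb0 : 0 ≤ Qb := by rw [hQb]; positivity
  have hη₂0 : 0 ≤ η₂ := by
    rw [hη₂]
    have h3 : (0 : ℝ) < 2 ^ (n 3 * J) := Real.rpow_pos_of_pos (by norm_num) _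
    have := hδ
    positivity
  have hη₃0 : 0 ≤ η₃ := by rw [hη₃]; positivity
  have hsp : ∀ j, Pb (naQ F A c D w t τ n nt H) (fun v => ∃ i i', i ≠ i' ∧
      |pcC F c D w H 2 0 (n 2) (v i j) 0 - pcC F c D w H 2 0 (n 2) (v i' j) 0| ≤
        (Ks : ℤ)) ≤ c₁ := fun j =>
    le_of_mul_le_mul_right ((na_sp hA hE ht ha hwt ht1 he hn hnt h3 hΛ.le hKΛ j).trans hcΛ) hΛ
  have h1 := hlvl hA hE ht ha hwt ht1 he hn hW hnt h3 hdH kc hk1 hk2 hk3 hδ hOwn hδn hδn2 hη' hBd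
    B S nr Xd Ks N a b V K c₀ c₁ ρ hrow hcard hB hKs hsp (Qb := Qb) (η₁ := η₁) (η₂ := η₂)
    (by rw [hQb, hs, hSu]) hη₁ hη₂ hρ hρ1
    (hC12.trans (hCM.trans (mul_le_mul_of_nonneg_right hpw (by positivity)))) hK0 hK hV
    (fun k hk => by
      obtain ⟨g1, g2, g3, g4, g5, g6⟩ := hnum k hk
      refine ⟨g1, g2, g3, g4, ?_, ?_⟩
      · calc (C₁ : ℝ) * N k * 2 ^ a k ≤ ((C₁ + C₂ : ℕ) : ℝ) * N k * 2 ^ a k :=
              mul_le_mul_of_nonneg_right (mul_le_mul_of_nonneg_right hC12 (by positivity))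
                (by positivity)
          _ ≤ ρ ^ (C₁ + C₂) * V k := g5
          _ ≤ ρ ^ C₁ * V k := mul_le_mul_of_nonneg_right hpw g3.le
      · calc (C₁ : ℝ) * N k ≤ ((C₁ + C₂ : ℕ) : ℝ) * N k :=
              mul_le_mul_of_nonneg_right hC12 (by positivity)
          _ ≤ _ := g6
          _ ≤ _ := mul_le_mul_of_nonneg_right hpw (by positivity))
  have h2 := na_alive hA ha hδd
  refine le_trans ?_ (add_le_add h1 h2)
  refine le_trans ?_ (Pb_or hQ0 _ _)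
  refine Pool.XLF.Pb_le hQ0 fun v hv hnot => ?_
  by_contra hne
  push Not at hne
  obtain ⟨g1, g2⟩ := hne
  apply hnot
  rw [← hs, ← hSu, ← hη₃] at g1
  refine ⟨(g1 0).1, ?_⟩
  obtain ⟨k1, k2, k3, k4, k5, k6⟩ := naQ_pos hA hv
  -- the relations
  have hLm0 : 0 ≤ Lm := by rw [hLm]; positivity
  have key := hrel' hW hnt hdH hHc (Hr := Hr) hLn hEl
    (s := s) (Su := Su) (Bc := Bc) (η₃ := η₃) (Lm := Lm) (εR := εR) hs0 hSu hδh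
    (fun ω hω τ hτ => (hBd ω hω τ hτ).2) (fun l hl => le_trans (mul_le_mul_of_nonneg_right
      (mul_le_mul_of_nonneg_right (pow_le_pow_right₀ (by norm_num) (by omega))
        (by positivity)) (by
          have : (0 : ℝ) < 2 ^ (n l * J) := Real.rpow_pos_of_pos (by norm_num) _
          positivity)) (hδv l hl)) hLm hη₃0 (by
      refine le_trans (add_le_add (mul_le_mul_of_nonneg_right (mul_le_mul_of_nonneg_right
        (pow_le_pow_right₀ (by norm_num) (by omega)) (by positivity)) ?_) le_rfl) hεR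
      have hBc0 : 0 ≤ Bc := (abs_nonneg _).trans (hBd _ (k1 0 0) 0 ⟨le_rfl, zero_le_one⟩).2
      positivity) v k1 k2 k3 k5 k6 g1
  obtain ⟨ψ, hψe⟩ : ∃ ψ, ψ = H (slam F ⌊w * J⌋₊ (v 0 0)) := ⟨_, rfl⟩
  have hψ1 : H (slam F ⌊w * J⌋₊ (v 0 1)) = ψ := by
    rw [hψe]
    exact hHc _ _ (k1 0 1) (k1 0 0) (k6 0 1)
  rw [hψ1, ← hψe] at g2
  have key0 := key 0
  have key1 := key 1
  rw [← hψe] at key0 key1
  obtain ⟨G, hG⟩ : ∃ G : ℕ → ℝ, G = dG F c D D₂ w (n 2) H Hr v := ⟨_, rfl⟩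
  rw [← hG] at key0 key1
  rw [Finset.sum_range_succ] at key0 key1
  -- the components of the gradient
  have hm := rt_mem F ⌊w * J⌋₊ (v 0 0)
  have hLam : Lam (fun k : Fin (D + 2) => hh F c D w (n 2) H (v (ti k) 0)) ≤ Lm := by
    rw [hLm]
    refine Lam_le hs0 (fun k k' hkk => ?_) (fun k k' => ?_)
    · exact ((g1 0).1 (ti k) (ti k') fun h' => hkk (ti_inj h')).1
    · by_cases hkk : k = k'
      · rw [hkk, sub_self, abs_zero]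
        exact hSu0.le
      · exact ((g1 0).1 (ti k) (ti k') fun h' => hkk (ti_inj h')).2
  have hGl : ∀ l < 2, |G l| ≤ Lm * Bg l := by
    intro l hl
    have hBg0 : 0 ≤ Bg l := (abs_nonneg _).trans (hBg _ (k1 0 0) l hl 0 ⟨le_rfl, zero_le_one⟩)
    rw [hG]
    unfold dG
    refine (Finset.abs_sum_le_sum_abs _ _).trans ?_
    refine le_trans ?_ (mul_le_mul_of_nonneg_right hLam hBg0)
    unfold Pool.NDD66.Lam
    rw [Finset.sum_mul]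
    refine Finset.sum_le_sum fun k _ => ?_
    rw [abs_mul]
    exact mul_le_mul_of_nonneg_left (hBg _ (k1 _ 0) l hl _ ⟨hm.1, hm.2⟩) (abs_nonneg _)
  -- the velocities over the first two places are near
  have hvel : ∀ l < 2, |ov F c ψ (v 0 1) l - ov F c ψ (v 0 0) l| ≤ δv l := by
    intro l hl
    have hcod : pcC F c D w H l 0 (n l) (v 0 1) = pcC F c D w H l 0 (n l) (v 0 0) :=
      congrFun (rX_eq (k2 0 1)).2.2.1 ⟨l, hl⟩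
    have hdl : 0 ≤ ((D : ℝ) + 2) / 2 ^ (n l * J) := by
      have : (0 : ℝ) < 2 ^ (n l * J) := Real.rpow_pos_of_pos (by norm_num) _
      positivity
    have h6 : |ov F c ψ (v 0 1) l - ov F c ψ (v 0 0) l| ≤
        2 ^ C₃ * 2 ^ ⌊w * J⌋₊ * (((D : ℝ) + 2) / 2 ^ (n l * J)) := by
      refine hov (κ := 0) hW.le (fun l => by rw [hψe]; exact hdH _ l)
        (Pool.NDD66.rt_congr (k3 0 1)) fun τ hτ => ?_
      have h8 := pc_near hdH hcod hτ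
      unfold Pool.ND54.opl at h8
      rw [hψ1, ← hψe] at h8
      rw [sub_zero]
      exact h8
    exact h6.trans ((mul_le_mul_of_nonneg_right (mul_le_mul_of_nonneg_right
      (pow_le_pow_right₀ (by norm_num) (by omega)) (by positivity)) hdl).trans
        (hδv l (by omega)))
  obtain ⟨Δ, hΔe⟩ : ∃ Δ, Δ = ov F c ψ (v 0 1) 2 - ov F c ψ (v 0 0) 2 := ⟨_, rfl⟩
  rw [← hΔe] at g2
  have hkey : |G 2 * Δ| ≤ 2 * εR + Lm * ∑ l ∈ range 2, Bg l * δv l := by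
    have e1 : G 2 * Δ = (G 3 + (∑ l ∈ range 2, G l * ov F c ψ (v 0 1) l +
        G 2 * ov F c ψ (v 0 1) 2)) - (G 3 + (∑ l ∈ range 2, G l * ov F c ψ (v 0 0) l +
        G 2 * ov F c ψ (v 0 0) 2)) - ∑ l ∈ range 2, G l *
          (ov F c ψ (v 0 1) l - ov F c ψ (v 0 0) l) := by
      have e2 : ∑ l ∈ range 2, G l * (ov F c ψ (v 0 1) l - ov F c ψ (v 0 0) l) =
          ∑ l ∈ range 2, G l * ov F c ψ (v 0 1) l - ∑ l ∈ range 2, G l * ov F c ψ (v 0 0) l := by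
        rw [← Finset.sum_sub_distrib]
        exact Finset.sum_congr rfl fun l _ => by ring
      rw [e2, hΔe]
      ring
    rw [e1]
    have e3 : |∑ l ∈ range 2, G l * (ov F c ψ (v 0 1) l - ov F c ψ (v 0 0) l)| ≤
        Lm * ∑ l ∈ range 2, Bg l * δv l := by
      rw [Finset.mul_sum]
      refine (Finset.abs_sum_le_sum_abs _ _).trans (Finset.sum_le_sum fun l hl => ?_)
      have hl' := Finset.mem_range.1 hl
      rw [abs_mul, ← mul_assoc]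
      exact mul_le_mul (hGl l hl') (hvel l hl') (abs_nonneg _) ((abs_nonneg _).trans (hGl l hl'))
    have e4 := abs_sub ((G 3 + (∑ l ∈ range 2, G l * ov F c ψ (v 0 1) l +
        G 2 * ov F c ψ (v 0 1) 2)) - (G 3 + (∑ l ∈ range 2, G l * ov F c ψ (v 0 0) l +
        G 2 * ov F c ψ (v 0 0) 2))) (∑ l ∈ range 2, G l *
          (ov F c ψ (v 0 1) l - ov F c ψ (v 0 0) l))
    have e5 := abs_sub (G 3 + (∑ l ∈ range 2, G l * ov F c ψ (v 0 1) l +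
        G 2 * ov F c ψ (v 0 1) 2)) (G 3 + (∑ l ∈ range 2, G l * ov F c ψ (v 0 0) l +
        G 2 * ov F c ψ (v 0 0) 2))
    linarith
  have hpos : (0 : ℝ) < 2 ^ (-((nτ - τ + β) * J)) := Real.rpow_pos_of_pos (by norm_num) _
  have hfin : |G 2| ≤ ε := by
    rw [abs_mul] at hkey
    have h5 : |G 2| * 2 ^ (-((nτ - τ + β) * J)) ≤ |G 2| * |Δ| :=
      mul_le_mul_of_nonneg_left g2 (abs_nonneg _)
    exact le_of_mul_le_mul_right (h5.trans (hkey.trans hε)) hpos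
  rw [hG] at hfin
  exact hfin

end Pool.NA60
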