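import Pool.Agent.H66.NDD.Lev
import Pool.Agent.H54.ND.Own

/-!
# The slopes of a tuple of pairs of lines over near balls

`na_pair_ev`: the lines of the samples `ω i`, `ν i` are in one near ball, the own velocities over the
first places are near, those of the place `r` differ by `Δ`: if the combinations of the target
velocities of the lines `ω i` and of the lines `ν i` are small, so is the combination of the components
`r` of the gradient. `na_der`: from the own paths to the own velocities. `na_dd_ev`: the divided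
difference of the components of the tuple.
-/

set_option autoImplicit false

namespace Pool.NA60

open Finset Real MvPolynomial
open Pool.Agent.H49.Ent Pool.Agent.H32.Dense Pool.STK Pool.KA Pool.KSAT Pool.K2S Pool.PB Pool.S6C
open Pool.GEN Pool.CHT Pool.D2R
open Pool.PB.Trl (rt rt_mem t_rt)
open Pool.NDD66
open Pool.ND54 (ti ai ti_inj ai_inj tup_q)

variable {m J : ℕ}

theorem pair_alg {ι : Type} [Fintype ι] (lam n1 n2 cr : ι → ℝ) {Δ ε₁ ε₂ ε : ℝ}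
    (h : ∀ i, |(n2 i - n1 i) - cr i * Δ| ≤ ε) (h1 : |∑ i, lam i * n1 i| ≤ ε₁)
    (h2 : |∑ i, lam i * n2 i| ≤ ε₂) :
    |Δ| * |∑ i, lam i * cr i| ≤ ε₁ + ε₂ + (∑ i, |lam i|) * ε := by
  have e1 : Δ * ∑ i, lam i * cr i = ∑ i, lam i * n2 i - ∑ i, lam i * n1 i -
      ∑ i, lam i * ((n2 i - n1 i) - cr i * Δ) := by
    rw [Finset.mul_sum, ← Finset.sum_sub_distrib, ← Finset.sum_sub_distrib]
    exact Finset.sum_congr rfl fun i _ => by ring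
  rw [← abs_mul, e1]
  have h3 : |∑ i, lam i * ((n2 i - n1 i) - cr i * Δ)| ≤ (∑ i, |lam i|) * ε := by
    rw [Finset.sum_mul]
    refine (Finset.abs_sum_le_sum_abs _ _).trans (Finset.sum_le_sum fun i _ => ?_)
    rw [abs_mul]
    exact mul_le_mul_of_nonneg_left (h i) (abs_nonneg _)
  refine (abs_sub _ _).trans (add_le_add ((abs_sub _ _).trans ?_) h3)
  linarith

/-- **Pairs of lines over near balls.** -/
theorem na_pair_ev (m D r : ℕ) : ∃ C : ℕ, 1 ≤ C ∧ ∀ {J : ℕ} {F : Fam m J} {c : ℕ → Fin m}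
    {w a e k q X B : ℕ} {g gw : ℕ → ℕ} {A : F.Ω → Prop}
    {G : PtT F → ℕ → MvPolynomial (Option (Fin m)) ℝ}
    {H : LnT F → ℕ → MvPolynomial (Option (Fin m)) ℝ}
    {ψ : ℕ → MvPolynomial (Option (Fin m)) ℝ} {ι : Type} [Fintype ι] {lam : ι → ℝ}
    {ω ν : ι → F.Ω} {Δ δf ε₁ ε₂ : ℝ}, Set.InjOn c (Set.Iio (r + 2)) →
    w ≤ a → a + 1 ≤ J → ChOK F c (r + 2) (fun _ => D) a w e g A G H →
    (∀ l ≤ r + 1, e + g l + C * (k + 1) ≤ J) → (∀ l, (ψ l).totalDegree ≤ D) →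
    (∀ l, DepC c l (ψ l)) → (∀ l ≤ r, g l ≤ gw l + q) → gw (r + 1) ≤ g (r + 1) →
    (r + 1) * q + C * (k + 1) ≤ X → (∀ i, NrB F c r w a k X g gw A G H ψ (ω i) (ν i)) →
    (∀ i, NrB F c r w a k X g gw A G H ψ (ω i) (ω i)) →
    |∑ i, lam i * ov F c ψ (ω i) (r + 1)| ≤ ε₁ → |∑ i, lam i * ov F c ψ (ν i) (r + 1)| ≤ ε₂ →
    (∀ i, ∀ l < r, |ov F c ψ (ν i) l - ov F c ψ (ω i) l| ≤ 2 ^ w / 2 ^ (gw l + B)) →
    (∀ i, |ov F c ψ (ν i) r - ov F c ψ (ω i) r - Δ| ≤ δf) →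
    (∀ i, ∀ l ≤ r, |ncp c (r + 1) ψ (H (slam F w (ω i)) (r + 1) - ψ (r + 1)) (bt F (ω i)) l| ≤
      2 ^ k * 2 ^ gw l / 2 ^ gw (r + 1)) →
    |Δ| * |∑ i, lam i * ncp c (r + 1) ψ (H (slam F w (ω i)) (r + 1) - ψ (r + 1))
        (bt F (ω i)) r| ≤
      ε₁ + ε₂ + (∑ i, |lam i|) * (2 ^ (C * (k + 1)) * (2 ^ a *
        (1 / 2 ^ g (r + 1) + 2 ^ ((r + 1) * q) / 2 ^ (gw (r + 1) + X)) +
          2 ^ w / 2 ^ (gw (r + 1) + B)) + 2 ^ k * 2 ^ gw r / 2 ^ gw (r + 1) * δf) := by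
  classical
  obtain ⟨C₁, hC₁, hrel⟩ := row_rel m D r
  obtain ⟨C, hC⟩ : ∃ C : ℕ, C = C₁ + r + 1 := ⟨_, rfl⟩
  refine ⟨C, by omega, ?_⟩
  intro J F c w a e k q X B g gw A G H ψ ι _ lam ω ν Δ δf ε₁ ε₂ hc hwa haJ hrw hJ hψ hdep hg hgr hX
    hN hN' h1 h2 hnear hΔ hgrd
  have hCk : C * (k + 1) = C₁ * (k + 1) + r * (k + 1) + (k + 1) := by
    rw [hC]
    ring
  have hJ₁ : ∀ l ≤ r + 1, e + g l + C₁ * (k + 1) ≤ J := fun l hl => by
    have := hJ l hl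
    rw [hCk] at this
    omega
  obtain ⟨ε₀, hε₀⟩ : ∃ ε₀ : ℝ, ε₀ = 2 ^ (C₁ * (k + 1)) * 2 ^ a *
      (1 / 2 ^ g (r + 1) + 2 ^ ((r + 1) * q) / 2 ^ (gw (r + 1) + X)) := ⟨_, rfl⟩
  refine pair_alg lam _ _ _ (fun i => ?_) h1 h2
  have k1 := hrel hc hwa haJ hrw hJ₁ hψ hdep hg hgr (by omega) (ω i) (ν i) (hN i).hω (hN i).hν
    (hN i).chg (hN i).t (hN i).dvn (hN i).cmp (hN i).hgt
  have k2 := hrel hc hwa haJ hrw hJ₁ hψ hdep hg hgr (by omega) (ω i) (ω i) (hN' i).hω (hN' i).hν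
    (hN' i).chg (hN' i).t (hN' i).dvn (hN' i).cmp (hN' i).hgt
  rw [← hε₀] at k1 k2
  obtain ⟨P, hP⟩ : ∃ P : ℕ → ℝ, P = fun l =>
    ncp c (r + 1) ψ (H (slam F w (ω i)) (r + 1) - ψ (r + 1)) (bt F (ω i)) l := ⟨_, rfl⟩
  obtain ⟨P0, hP0⟩ : ∃ P0 : ℝ, P0 =
    nct c (r + 1) ψ (H (slam F w (ω i)) (r + 1) - ψ (r + 1)) (bt F (ω i)) := ⟨_, rfl⟩
  have hPl : ∀ l ≤ r, |P l| ≤ 2 ^ k * 2 ^ gw l / 2 ^ gw (r + 1) := fun l hl => by
    rw [hP]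
    exact hgrd i l hl
  have e1 : ∀ l, ncp c (r + 1) ψ (H (slam F w (ω i)) (r + 1) - ψ (r + 1)) (bt F (ω i)) l = P l :=
    fun l => by rw [hP]
  simp only [e1, ← hP0] at k1 k2 ⊢
  rw [Finset.sum_range_succ] at k1 k2
  obtain ⟨Sν, hSν⟩ : ∃ s, s = ∑ l ∈ range r, P l * ov F c ψ (ν i) l := ⟨_, rfl⟩
  obtain ⟨Sω, hSω⟩ : ∃ s, s = ∑ l ∈ range r, P l * ov F c ψ (ω i) l := ⟨_, rfl⟩
  rw [← hSν] at k1
  rw [← hSω] at k2
  have k3 : |Sν - Sω| ≤ r * (2 ^ k * (2 ^ w / 2 ^ (gw (r + 1) + B))) := by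
    rw [hSν, hSω, ← Finset.sum_sub_distrib]
    refine (Finset.abs_sum_le_sum_abs _ _).trans ((Finset.sum_le_card_nsmul _ _
      (2 ^ k * (2 ^ w / 2 ^ (gw (r + 1) + B))) fun l hl => ?_).trans (le_of_eq ?_))
    · have hl' := Finset.mem_range.1 hl
      rw [← mul_sub, abs_mul]
      have a1 := hPl l (by omega)
      have a2 := hnear i l hl'
      refine (mul_le_mul a1 a2 (abs_nonneg _) ((abs_nonneg _).trans a1)).trans (le_of_eq ?_)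
      rw [pow_add, pow_add]
      field_simp
    · rw [Finset.card_range, nsmul_eq_mul]
  have k4 : |P r * (ov F c ψ (ν i) r - ov F c ψ (ω i) r - Δ)| ≤
      2 ^ k * 2 ^ gw r / 2 ^ gw (r + 1) * δf := by
    rw [abs_mul]
    have a1 := hPl r le_rfl
    exact mul_le_mul a1 (hΔ i) (abs_nonneg _) ((abs_nonneg _).trans a1)
  have e2 : (ov F c ψ (ν i) (r + 1) - ov F c ψ (ω i) (r + 1)) - P r * Δ =
      (ov F c ψ (ν i) (r + 1) - (P0 + (Sν + P r * ov F c ψ (ν i) r))) -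
      (ov F c ψ (ω i) (r + 1) - (P0 + (Sω + P r * ov F c ψ (ω i) r))) +
      ((Sν - Sω) + P r * (ov F c ψ (ν i) r - ov F c ψ (ω i) r - Δ)) := by ring
  rw [e2]
  have h4 : ((r : ℕ) : ℝ) ≤ 2 ^ r := by exact_mod_cast (Nat.lt_two_pow_self (n := r)).le
  obtain ⟨E, hE⟩ : ∃ E : ℝ, E = 2 ^ (C * (k + 1)) := ⟨_, rfl⟩
  have h5 : (2 : ℝ) * 2 ^ (C₁ * (k + 1)) ≤ E := by
    rw [hE, ← pow_succ']
    refine pow_le_pow_right₀ (by norm_num) ?_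
    rw [hCk]
    omega
  have h6 : (r : ℝ) * 2 ^ k ≤ E := by
    refine (mul_le_mul_of_nonneg_right h4 (by positivity)).trans ?_
    rw [hE, ← pow_add]
    refine pow_le_pow_right₀ (by norm_num) ?_
    rw [hCk]
    nlinarith [Nat.zero_le (C₁ * (k + 1)), Nat.zero_le (r * k)]
  have h7 : 2 * ε₀ ≤ E * (2 ^ a *
      (1 / 2 ^ g (r + 1) + 2 ^ ((r + 1) * q) / 2 ^ (gw (r + 1) + X))) := by
    have e3 : 2 * ε₀ = 2 * 2 ^ (C₁ * (k + 1)) * (2 ^ a *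
        (1 / 2 ^ g (r + 1) + 2 ^ ((r + 1) * q) / 2 ^ (gw (r + 1) + X))) := by
      rw [hε₀]
      ring
    rw [e3]
    exact mul_le_mul_of_nonneg_right h5 (by positivity)
  have h8 : (r : ℝ) * (2 ^ k * (2 ^ w / 2 ^ (gw (r + 1) + B))) ≤
      E * (2 ^ w / 2 ^ (gw (r + 1) + B)) := by
    rw [← mul_assoc]
    exact mul_le_mul_of_nonneg_right h6 (by positivity)
  rw [← hE, mul_add]
  refine (abs_add_le _ _).trans ?_
  have h9 := abs_sub (ov F c ψ (ν i) (r + 1) - (P0 + (Sν + P r * ov F c ψ (ν i) r)))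
    (ov F c ψ (ω i) (r + 1) - (P0 + (Sω + P r * ov F c ψ (ω i) r)))
  have h10 := abs_add_le (Sν - Sω) (P r * (ov F c ψ (ν i) r - ov F c ψ (ω i) r - Δ))
  linarith

/-- **From the own paths to the own velocities.** -/
theorem na_der (D : ℕ) : ∃ C : ℕ, 1 ≤ C ∧ ∀ {m J : ℕ} {F : Fam m J} {c : ℕ → Fin m} {w : ℕ}
    {ψ : ℕ → MvPolynomial (Option (Fin m)) ℝ} {ι : Type} [Fintype ι] {lam : ι → ℝ} {ν : ι → F.Ω}
    {ω₀ : F.Ω} {l : ℕ} {δ : ℝ}, w ≤ J → (∀ l, (ψ l).totalDegree ≤ D) →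
    (∀ i, rt F w (ν i) = rt F w ω₀) →
    (∀ τ ∈ Set.Icc (0 : ℝ) 1, |∑ i, lam i * (op w c ψ (slam F w (ν i)) l).eval τ| ≤ δ) →
    |∑ i, lam i * ov F c ψ (ν i) l| ≤ 2 ^ C * 2 ^ w * δ := by
  obtain ⟨C₁, hC₁, hder⟩ := der_one (D + 1)
  obtain ⟨c₁, hc₁⟩ := pow_unbounded_of_one_lt C₁ (one_lt_two (α := ℝ))
  refine ⟨c₁ + 1, by omega, ?_⟩
  intro m J F c w ψ ι _ lam ν ω₀ l δ hwJ hψ hrt h
  have hδ : 0 ≤ δ := (abs_nonneg _).trans (h 0 ⟨le_rfl, zero_le_one⟩)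
  obtain ⟨f, hf⟩ : ∃ f : Polynomial ℝ, f = ∑ i, Polynomial.C (lam i) *
    op w c ψ (slam F w (ν i)) l := ⟨_, rfl⟩
  have hfd : f.natDegree ≤ D + 1 := by
    rw [hf]
    exact Polynomial.natDegree_sum_le_of_forall_le _ _ fun i _ =>
      (Polynomial.natDegree_C_mul_le _ _).trans (op_deg w c hψ _ _)
  have hfe : ∀ τ, f.eval τ = ∑ i, lam i * (op w c ψ (slam F w (ν i)) l).eval τ := by
    intro τ
    rw [hf, Polynomial.eval_finsetSum]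
    exact Finset.sum_congr rfl fun i _ => by rw [Polynomial.eval_mul, Polynomial.eval_C]
  have h1 := hder f δ hfd (fun τ hτ => by
    rw [hfe]
    exact h τ hτ) (rt F w ω₀) (by
    have := rt_mem F w ω₀
    rw [abs_of_nonneg this.1]
    exact this.2)
  have h2 : (Polynomial.derivative f).eval (rt F w ω₀) =
      1 / 2 ^ w * ∑ i, lam i * ov F c ψ (ν i) l := by
    rw [hf, Polynomial.derivative_sum, Polynomial.eval_finsetSum, Finset.mul_sum]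
    refine Finset.sum_congr rfl fun i _ => ?_
    rw [Polynomial.derivative_C_mul, Polynomial.eval_mul, Polynomial.eval_C, ← hrt i,
      op_der hwJ c ψ (ν i) l]
    ring
  rw [h2, abs_mul, abs_of_pos (show (0 : ℝ) < 1 / 2 ^ w by positivity), one_div_mul_eq_div,
    div_le_iff₀ (by positivity)] at h1
  refine h1.trans ?_
  have h3 : C₁ ≤ 2 ^ (c₁ + 1) := hc₁.le.trans (pow_le_pow_right₀ (by norm_num) (by omega))
  calc C₁ * δ * 2 ^ w ≤ 2 ^ (c₁ + 1) * δ * 2 ^ w :=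
        mul_le_mul_of_nonneg_right (mul_le_mul_of_nonneg_right h3 hδ) (by positivity)
    _ = _ := by ring

/-- The divided difference of the values of nearly one polynomial. -/
theorem dd_near {D : ℕ} {h y : Fin (D + 2) → ℝ} {q : Polynomial ℝ} {s Su η : ℝ} (hs : 0 < s)
    (h1 : ∀ i j, i ≠ j → s ≤ |h i - h j|) (h2 : ∀ i j, |h i - h j| ≤ Su) (hq : q.natDegree ≤ D)
    (hy : ∀ i, |y i - q.eval (h i)| ≤ η) :
    |∑ i, mu h i * y i| ≤ (D + 2) * (Su / s) ^ (D + 1) * η := by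
  have hinj : Function.Injective h := by
    intro i j e
    by_contra hij
    have := h1 i j hij
    rw [e, sub_self, abs_zero] at this
    linarith
  have h0 : ∑ i, mu h i * q.eval (h i) = 0 := Pool.AO64.dd_zero hq h hinj
  have e1 : ∑ i, mu h i * y i = ∑ i, mu h i * (y i - q.eval (h i)) := by
    have e2 : ∑ i, mu h i * (y i - q.eval (h i)) = ∑ i, mu h i * y i -
        ∑ i, mu h i * q.eval (h i) := by
      rw [← Finset.sum_sub_distrib]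
      exact Finset.sum_congr rfl fun i _ => by ring
    rw [e2, h0, sub_zero]
  rw [e1]
  refine (Finset.abs_sum_le_sum_abs _ _).trans ((Finset.sum_le_card_nsmul _ _
    ((Su / s) ^ (D + 1) * η) fun i _ => ?_).trans (le_of_eq ?_))
  · rw [abs_mul]
    exact mul_le_mul (mu_le hs h1 h2 i) (hy i) (abs_nonneg _)
      ((abs_nonneg _).trans (mu_le hs h1 h2 i))
  · rw [Finset.card_univ, Fintype.card_fin, nsmul_eq_mul]
    push_cast
    ring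

/-- **The divided difference of the slopes** of a tuple of pairs of lines over near balls: the lines
`μ i 0` and the lines `μ i 1` satisfy the quadrature relation on the whole window. -/
theorem na_dd_ev (m D r : ℕ) : ∃ C : ℕ, 1 ≤ C ∧ ∀ {J : ℕ} {F : Fam m J} {c : ℕ → Fin m}
    {w a e k q X B : ℕ} {g gw : ℕ → ℕ} {A : F.Ω → Prop}
    {G : PtT F → ℕ → MvPolynomial (Option (Fin m)) ℝ}
    {H : LnT F → ℕ → MvPolynomial (Option (Fin m)) ℝ}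
    {ψ : ℕ → MvPolynomial (Option (Fin m)) ℝ} {μ : Fin (2 * D + 1 + 1) → Fin 2 → F.Ω}
    {hL hW : Fin (2 * D + 1 + 1) → ℝ} {cL cW : Fin (2 * D + 1 + 1) → Polynomial ℝ} {ω₀ : F.Ω}
    {Δ δf η δh s Su Bc : ℝ}, Set.InjOn c (Set.Iio (r + 2)) →
    w ≤ a → a + 1 ≤ J → ChOK F c (r + 2) (fun _ => D) a w e g A G H →
    (∀ l ≤ r + 1, e + g l + C * (k + 1) ≤ J) → (∀ l, (ψ l).totalDegree ≤ D) →
    (∀ l, DepC c l (ψ l)) → (∀ l ≤ r, g l ≤ gw l + q) → gw (r + 1) ≤ g (r + 1) →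
    (r + 1) * q + C * (k + 1) ≤ X → (∀ i, NrB F c r w a k X g gw A G H ψ (μ i 0) (μ i 1)) →
    (∀ i, NrB F c r w a k X g gw A G H ψ (μ i 0) (μ i 0)) →
    (∀ i j, rt F w (μ i j) = rt F w ω₀) → 0 < s → 0 ≤ δh → δh ≤ Su →
    (∀ i i', i ≠ i' → s ≤ |hL i - hL i'| ∧ |hL i - hL i'| ≤ Su) →
    (∀ i i', i ≠ i' → s ≤ |hW i - hW i'| ∧ |hW i - hW i'| ≤ Su) →
    (∀ i, ∀ τ ∈ Set.Icc (0 : ℝ) 1, |(cL i).eval τ| ≤ Bc ∧ |(cW i).eval τ| ≤ Bc) →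
    (∀ i, ∀ τ ∈ Set.Icc (0 : ℝ) 1, |(op w c ψ (slam F w (μ i 0)) (r + 1)).eval τ -
      (op w c ψ (slam F w (μ 0 0)) (r + 1)).eval τ -
      ∑ k : Fin D, (Qk (fun k => hL (ai k)) (hL 0) k).eval (hL i) * (cL (ai k)).eval τ| ≤ η) →
    (∀ i, ∀ τ ∈ Set.Icc (0 : ℝ) 1, |(op w c ψ (slam F w (μ i 1)) (r + 1)).eval τ -
      (op w c ψ (slam F w (μ 0 1)) (r + 1)).eval τ -
      ∑ k : Fin D, (Qk (fun k => hW (ai k)) (hW 0) k).eval (hW i) * (cW (ai k)).eval τ| ≤ η) →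
    (∀ i, |(hW i - hW 0) - (hL i - hL 0)| ≤ δh) →
    (∀ i, ∀ l < r, |ov F c ψ (μ i 1) l - ov F c ψ (μ i 0) l| ≤ 2 ^ w / 2 ^ (gw l + B)) →
    (∀ i, |ov F c ψ (μ i 1) r - ov F c ψ (μ i 0) r - Δ| ≤ δf) →
    (∀ i, ∀ l ≤ r, |ncp c (r + 1) ψ (H (slam F w (μ i 0)) (r + 1) - ψ (r + 1)) (bt F (μ i 0)) l| ≤
      2 ^ k * 2 ^ gw l / 2 ^ gw (r + 1)) →
    |Δ| * |∑ k : Fin (D + 2), mu (fun k => hL (ti k)) k *
      ncp c (r + 1) ψ (H (slam F w (μ (ti k) 0)) (r + 1) - ψ (r + 1)) (bt F (μ (ti k) 0)) r| ≤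
      (D + 2) * (Su / s) ^ (D + 1) * (2 ^ C * 2 ^ w *
        (2 * η + D * ((2 * Su / s) ^ (D - 1) * δh * Bc)) +
      (2 ^ (C * (k + 1)) * (2 ^ a *
        (1 / 2 ^ g (r + 1) + 2 ^ ((r + 1) * q) / 2 ^ (gw (r + 1) + X)) +
          2 ^ w / 2 ^ (gw (r + 1) + B)) + 2 ^ k * 2 ^ gw r / 2 ^ gw (r + 1) * δf)) := by
  classical
  obtain ⟨C₁, hC₁, hpair⟩ := na_pair_ev m D r
  obtain ⟨C₂, hC₂, hder⟩ := na_der D
  refine ⟨C₁ + C₂, by omega, ?_⟩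
  intro J F c w a e k q X B g gw A G H ψ μ hL hW cL cW ω₀ Δ δf η δh s Su Bc hc hwa haJ hrw hJ hψ
    hdep hg hgr hX hN hN' hrt hs hδh hδS hsL hsW hcb hrL hrW hpar hnear hΔ hgrd
  have hCk : (C₁ + C₂) * (k + 1) = C₁ * (k + 1) + C₂ * (k + 1) := by ring
  have hwJ : w ≤ J := by omega
  have hSu : 0 ≤ Su := hδh.trans hδS
  obtain ⟨δ₂, hδ₂⟩ : ∃ x : ℝ, x = D * ((2 * Su / s) ^ (D - 1) * δh * Bc) := ⟨_, rfl⟩
  obtain ⟨Lm, hLm⟩ : ∃ x : ℝ, x = (D + 2) * (Su / s) ^ (D + 1) := ⟨_, rfl⟩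
  have hLm0 : 0 ≤ Lm := by
    rw [hLm]
    positivity
  have hle : ∀ k k' : Fin (D + 2), |hL (ti k) - hL (ti k')| ≤ Su := by
    intro k k'
    by_cases hk : ti k = ti k'
    · rw [hk, sub_self, abs_zero]
      exact hSu
    · exact (hsL _ _ hk).2
  have hsep : ∀ k k' : Fin (D + 2), k ≠ k' → s ≤ |hL (ti k) - hL (ti k')| := fun k k' hk =>
    (hsL _ _ fun h => hk (ti_inj h)).1
  -- the tuple of the lines `μ i 0`
  have q1 := tup_q (D := D) (nP := fun i => op w c ψ (slam F w (μ i 0)) (r + 1)) (cP := cL)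
    (H := hL) (h := hL) (η := η) (s := s) (Su := Su) (δh := 0) (Bc := Bc) hs le_rfl hSu hsL
    (fun i τ hτ => (hcb i τ hτ).1) hrL (fun i => by rw [sub_self, abs_zero])
  have q2 := tup_q (D := D) (nP := fun i => op w c ψ (slam F w (μ i 1)) (r + 1)) (cP := cW)
    (H := hW) (h := hL) (η := η) (s := s) (Su := Su) (δh := δh) (Bc := Bc) hs hδh hδS hsW
    (fun i τ hτ => (hcb i τ hτ).2) hrW hpar
  rw [← hδ₂] at q2
  have e1 : ∀ τ ∈ Set.Icc (0 : ℝ) 1, |∑ k : Fin (D + 2), mu (fun k => hL (ti k)) k *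
      (op w c ψ (slam F w (μ (ti k) 0)) (r + 1)).eval τ| ≤ Lm * η := by
    intro τ hτ
    obtain ⟨Q, hQ, h1⟩ := q1 τ hτ
    have h2 := dd_near (h := fun k => hL (ti k)) hs hsep hle hQ h1
    rw [← hLm] at h2
    refine h2.trans (le_of_eq ?_)
    ring
  have e2 : ∀ τ ∈ Set.Icc (0 : ℝ) 1, |∑ k : Fin (D + 2), mu (fun k => hL (ti k)) k *
      (op w c ψ (slam F w (μ (ti k) 1)) (r + 1)).eval τ| ≤ Lm * (η + δ₂) := by
    intro τ hτ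
    obtain ⟨Q, hQ, h1⟩ := q2 τ hτ
    have h2 := dd_near (h := fun k => hL (ti k)) hs hsep hle hQ h1
    rw [← hLm] at h2
    exact h2
  have f1 := hder (F := F) (c := c) (w := w) (ψ := ψ) (lam := mu (fun k => hL (ti k)))
    (ν := fun k => μ (ti k) 0) (ω₀ := ω₀) hwJ hψ (fun k => hrt _ _) e1
  have f2 := hder (F := F) (c := c) (w := w) (ψ := ψ) (lam := mu (fun k => hL (ti k)))
    (ν := fun k => μ (ti k) 1) (ω₀ := ω₀) hwJ hψ (fun k => hrt _ _) e2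
  have key := hpair (F := F) (lam := mu (fun k => hL (ti k))) (ω := fun k => μ (ti k) 0)
    (ν := fun k => μ (ti k) 1) (Δ := Δ) (δf := δf) hc hwa haJ hrw
    (fun l hl => by
      have := hJ l hl
      rw [hCk] at this
      omega) hψ hdep hg hgr (by
      rw [hCk] at hX
      omega) (fun k => hN _) (fun k => hN' _) f1 f2 (fun k => hnear _) (fun k => hΔ _)
    (fun k => hgrd _)
  refine key.trans ?_
  have hsum : ∑ k : Fin (D + 2), |mu (fun k => hL (ti k)) k| ≤ Lm := by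
    refine (Finset.sum_le_card_nsmul _ _ ((Su / s) ^ (D + 1)) fun k _ =>
      mu_le hs hsep hle k).trans (le_of_eq ?_)
    rw [hLm, Finset.card_univ, Fintype.card_fin, nsmul_eq_mul]
    push_cast
    ring
  have hη : 0 ≤ η := (abs_nonneg _).trans (hrL 0 0 ⟨le_rfl, zero_le_one⟩)
  have hBc : 0 ≤ Bc := (abs_nonneg _).trans (hcb 0 0 ⟨le_rfl, zero_le_one⟩).1
  have hδ₂0 : 0 ≤ δ₂ := by
    rw [hδ₂]
    positivity
  have hδf : 0 ≤ δf := (abs_nonneg _).trans (hΔ 0)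
  have p1 : (2 : ℝ) ^ C₂ ≤ 2 ^ (C₁ + C₂) := pow_le_pow_right₀ (by norm_num) (by omega)
  have p2 : (2 : ℝ) ^ (C₁ * (k + 1)) ≤ 2 ^ ((C₁ + C₂) * (k + 1)) :=
    pow_le_pow_right₀ (by norm_num) (by rw [hCk]; omega)
  have r1 : 2 ^ C₂ * 2 ^ w * (Lm * η) + 2 ^ C₂ * 2 ^ w * (Lm * (η + δ₂)) ≤
      Lm * (2 ^ (C₁ + C₂) * 2 ^ w * (2 * η + δ₂)) := by
    have e3 : (2 : ℝ) ^ C₂ * 2 ^ w * (Lm * η) + 2 ^ C₂ * 2 ^ w * (Lm * (η + δ₂)) =
        Lm * (2 ^ C₂ * 2 ^ w * (2 * η + δ₂)) := by ring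
    rw [e3]
    exact mul_le_mul_of_nonneg_left (mul_le_mul_of_nonneg_right
      (mul_le_mul_of_nonneg_right p1 (by positivity)) (by positivity)) hLm0
  obtain ⟨b1, hb1⟩ : ∃ x : ℝ, x = 2 ^ a * (1 / 2 ^ g (r + 1) + 2 ^ ((r + 1) * q) /
      2 ^ (gw (r + 1) + X)) + 2 ^ w / 2 ^ (gw (r + 1) + B) := ⟨_, rfl⟩
  have hb10 : 0 ≤ b1 := by
    rw [hb1]
    positivity
  obtain ⟨b2, hb2⟩ : ∃ x : ℝ, x = 2 ^ k * 2 ^ gw r / 2 ^ gw (r + 1) * δf := ⟨_, rfl⟩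
  have hb20 : 0 ≤ b2 := by
    rw [hb2]
    positivity
  rw [← hb1, ← hb2, ← hδ₂, ← hLm]
  have r2 : (∑ k : Fin (D + 2), |mu (fun k => hL (ti k)) k|) *
      (2 ^ (C₁ * (k + 1)) * b1 + b2) ≤ Lm * (2 ^ ((C₁ + C₂) * (k + 1)) * b1 + b2) :=
    mul_le_mul hsum (add_le_add (mul_le_mul_of_nonneg_right p2 hb10) le_rfl) (by positivity)
      hLm0
  calc _ ≤ Lm * (2 ^ (C₁ + C₂) * 2 ^ w * (2 * η + δ₂)) +
        Lm * (2 ^ ((C₁ + C₂) * (k + 1)) * b1 + b2) := add_le_add r1 r2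
    _ = _ := by ring

end Pool.NA60
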