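import Pool.Agent.H60.NA.Sup

/-!
# The levels of the tuple of pairs, event level

`na_lvl`: off a small mass of the copies of pairs of lines, all lines of the tuple number `j` are in one
sheet, for all times of the window.
-/

set_option autoImplicit false

namespace Pool.NA60

open Finset Real MvPolynomial
open Pool.Agent.H49.Ent Pool.Agent.H32.Dense Pool.STK Pool.KA Pool.KSAT Pool.K2S Pool.PB Pool.S6C
open Pool.GEN hiding Det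
open Pool.CHT Pool.D2R Pool.LA91 Pool.RCD
open Pool.PB.Trl (rt rt_mem t_rt)
open Pool.V0F (cR)
open Pool.NDC42
open Pool.BFL (Pb)
open Pool.STB (Pb_mono Pb_or)
open Pool.CLU (cpn_law cpn_pos cpn_marg)
open Pool.NA36 (vpC f1C f2C fbC X0 rX NaT NaE)
open Pool.ND54 (cond_A det_x0 det_xg elN hh hLc grP grP_deg OwnE LinE ti ai pc_near pc_near1
  hg_near hLc_coarse hgt_par own_quad ttw ttw_le ttw_full tu_ttw)
open Pool.NDD66 (op op_at op_deg op_der ov mu Lam Lam_le)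

variable {m J : ℕ}

/-- **The levels of the tuple.** -/
theorem na_lvl (D D₂ : ℕ) : ∃ C : ℕ, 1 ≤ C ∧ ∀ {m J : ℕ} {F : Fam m J} {A : F.Ω → Prop}
    (_ : 0 < Pe F.p A) {c : ℕ → Fin m} {w t τ x' : ℝ} {n : ℕ → ℝ} {nt nτ s₀ β δd e : ℝ}
    {H Hr : LnT F → ℕ → MvPolynomial (Option (Fin m)) ℝ} (_ : NaE F A c D w x' n e H)
    (_ : NaT F A c D w t t n nt nt s₀ β δd e H) (_ : NaT F A c D w t τ n nt nτ s₀ β δd e H),
    w ≤ t → t ≤ 1 → 0 ≤ e → nτ - (τ - w) ≤ n 2 → ⌊w * J⌋₊ < J → nt ≤ n 2 → ∀ {e₃ : ℝ},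
    CH (cpn (Pool.Agent.H49.Ent.cond F.p A True) (rX F A c D w t τ n nt H) 1)
      (fun v => fbC F c w H τ nτ (v 1)) (fun v => fbC F c w H τ nτ (v 0)) ≤ e₃ →
    (∀ s l, (H s l).totalDegree ≤ D) → ∀ {Kc : Type} (kc : F.Ω → Kc) {δ : ℝ},
    (∀ ω ω', A ω → A ω' → slam F ⌊w * J⌋₊ ω = slam F ⌊w * J⌋₊ ω' → kc ω = kc ω') →
    CH (Pool.Agent.H49.Ent.cond F.p A True) kc (xg F A c D w n nt H) ≤ e * J →
    (∀ ω ω', A ω → A ω' → elN F A c D w n nt H kc ω = elN F A c D w n nt H kc ω' →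
      ∀ τ ∈ Set.Icc (0 : ℝ) 1, |(grP F c D₂ ⌊w * J⌋₊ H Hr (slam F ⌊w * J⌋₊ ω) 2).eval τ -
        (grP F c D₂ ⌊w * J⌋₊ H Hr (slam F ⌊w * J⌋₊ ω') 2).eval τ| ≤ δ) →
    0 ≤ δ → ∀ {δn : ℕ → ℝ} {η η' : ℝ},
    OwnE F A c D D₂ w t H Hr δn (3 / 2 ^ (nt * J)) η η' →
    (∀ l < 2, ((D : ℝ) + 2) / 2 ^ (n l * J) ≤ δn l) → ((D : ℝ) + 3) / 2 ^ (n 2 * J) ≤ δn 2 →
    0 ≤ η' → ∀ {Bn Bc : ℝ}, (∀ ω, A ω → ∀ τ ∈ Set.Icc (0 : ℝ) 1,
      |(Pool.ND54.opl F c ⌊w * J⌋₊ H 3 ω).eval τ| ≤ Bn ∧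
      |(grP F c D₂ ⌊w * J⌋₊ H Hr (slam F ⌊w * J⌋₊ ω) 2).eval τ| ≤ Bc) →
    -- the rows
    ∀ (B : F.Ω → Prop) (S : ℕ → _ × ℤ → Finset ℤ) (nr Xd Ks : ℕ) (N a b : ℕ → ℕ) (V : ℕ → ℝ)
      (K c₀ c₁ ρ : ℝ),
    (∀ k < nr, ∀ ω, A ω → B ω →
      ⌊2 ^ Xd * (Pool.ND54.opl F c ⌊w * J⌋₊ H 3 ω).eval 0⌋ / 2 ^ a k ∈
      S k (xg F A c D w n nt H ω,
        ⌊2 ^ Xd * (Pool.ND54.opl F c ⌊w * J⌋₊ H 3 ω).eval 0⌋ / 2 ^ b k)) →
    (∀ k < nr, ∀ y, (S k y).card ≤ N k) →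
    Pb (Pool.Agent.H49.Ent.cond F.p A True) (fun ω => ¬ B ω) ≤ c₀ → 1 ≤ Ks →
    (∀ j, Pb (naQ F A c D w t τ n nt H) (fun v => ∃ i i', i ≠ i' ∧
      |pcC F c D w H 2 0 (n 2) (v i j) 0 - pcC F c D w H 2 0 (n 2) (v i' j) 0| ≤
        (Ks : ℤ)) ≤ c₁) →
    ∀ {Qb η₁ η₂ : ℝ}, Qb = ((3 / 2 ^ (nt * J)) / (Ks / 2 ^ (n 2 * J))) ^ (D - 1) *
      (3 / 2 ^ (nt * J)) → η₁ = 2 * η + D * Qb * η' → η₂ = D * Qb * δ + (D + 1) / 2 ^ (n 3 * J) →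
    0 < ρ → ρ < 1 → (C : ℝ) ≤ ρ ^ C * (2 * ((2 ^ (J - ⌊w * J⌋₊ - 1) : ℕ) : ℝ) + 1) → 0 ≤ K →
    2 ^ Xd * (η₁ + η₂) + 1 ≤ K → 2 ^ Xd * (2 * ((3 * Bn + D * Qb * Bc) + η₂)) ≤ V nr →
    (∀ k < nr, a k ≤ b k ∧ K ≤ 2 ^ a k ∧ 0 < V k ∧ V (k + 1) ≤ 2 ^ b k ∧
      (C : ℝ) * N k * 2 ^ a k ≤ ρ ^ C * V k ∧
      (C : ℝ) * N k ≤ ρ ^ C * ((2 ^ (J - ⌊w * J⌋₊ - 1) : ℕ) : ℝ)) →
    Pb (naQ F A c D w t τ n nt H) (fun v => ¬ ∀ j, ((∀ i i', i ≠ i' →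
        Ks / 2 ^ (n 2 * J) ≤ |hh F c D w (n 2) H (v i j) - hh F c D w (n 2) H (v i' j)| ∧
          |hh F c D w (n 2) H (v i j) - hh F c D w (n 2) H (v i' j)| ≤ 3 / 2 ^ (nt * J)) ∧
      ∀ i, ∀ τ ∈ Set.Icc (0 : ℝ) 1, |(Pool.ND54.opl F c ⌊w * J⌋₊ H 3 (v i j)).eval τ -
        (Pool.ND54.opl F c ⌊w * J⌋₊ H 3 (v 0 j)).eval τ - ∑ k : Fin D,
        (Pool.NDD66.Qk (fun k => hh F c D w (n 2) H (v (ai k) j))
          (hh F c D w (n 2) H (v 0 j)) k).eval (hh F c D w (n 2) H (v i j)) *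
          (grP F c D₂ ⌊w * J⌋₊ H Hr (slam F ⌊w * J⌋₊ (v (ai k) j)) 2).eval τ| ≤
        (2 * K + 2 * V 0) / 2 ^ Xd + η₂)) ≤
      2 * ((2 * D + 2) * (c₀ + 3 * c₁ + nr * (((e * J + 2 * Real.log 2) +
        ((2 * D + 1 : ℕ) : ℝ) * (10 * (e * J) + Real.log 5 + e₃) + Real.log 2) /
          Real.log (1 / ρ)))) := by
  classical
  obtain ⟨C, hC, htup⟩ := na_tup D (D + 4 * D₂ + 1)
  refine ⟨C, hC, ?_⟩
  intro m J F A hA c w t τ x' n nt nτ s₀ β δd e H Hr hE ht ha hwt ht1 he hn hW hnt e₃ h3 hdH Kc kc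
    δ hk1 hk2 hk3 hδ δn η η' hOwn hδn hδn2 hη' Bn Bc hBd B S nr Xd Ks N a b V K c₀ c₁ ρ hrow
    hcard hB hKs hsp Qb η₁ η₂ hQb hη₁ hη₂ hρ hρ1 hCM hK0 hK hV hnum
  obtain ⟨p, hpe⟩ : ∃ p, p = Pool.Agent.H49.Ent.cond F.p A True := ⟨_, rfl⟩
  have hp : IsLaw p := by rw [hpe]; exact isLaw_cond F.isLaw hA
  have p0 := hp.nonneg
  have hpA : ∀ ω, 0 < p ω → A ω := fun ω hω => by
    rw [hpe] at hω
    exact cond_A hω
  have hn2 : (0 : ℝ) < 2 ^ (n 2 * J) := Real.rpow_pos_of_pos (by norm_num) _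
  have hnt' : (0 : ℝ) < 2 ^ (nt * J) := Real.rpow_pos_of_pos (by norm_num) _
  have hKs0 : (0 : ℝ) < Ks := by exact_mod_cast hKs
  have hQ : naQ F A c D w t τ n nt H = cpn (cpn p (rX F A c D w t τ n nt H) 1)
      (yA F A c D w t n nt H) (2 * D + 1) := by
    unfold naQ
    rw [hpe]
  have hQ0 : ∀ v, 0 ≤ naQ F A c D w t τ n nt H v := by
    rw [hQ]
    exact (cpn_law (cpn_law hp _ 1) _ _).nonneg
  -- the entropy inequalities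
  have g1 := Pool.NA36.na_h1 (a' := τ) (na := nτ) hA hn ht
  have g2 := Pool.NA36.na_h2 hA ha
  have g4 := na_hy (τ := τ) (nτ := nτ) hA ht
  have gf := na_hf hA ht kc hk2
  have go := na_ho (nt := nt) hA hE kc
  have gU := Pool.NA36.na_hU hA ht (by
    rw [← hpe, CH_eq_zero hp.nonneg fun ω ω' hω hω' h => ?_]
    · exact mul_nonneg he (Nat.cast_nonneg J)
    · exact rec_mono hwt ht1 (Prod.ext_iff.1 h).1)
  have e7 : Real.log (2 * ((2 ^ (J - ⌊w * J⌋₊ - 1) : ℕ) : ℝ) + 1) - (e * J + 2 * Real.log 2) ≤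
      CH p (ttw F ⌊w * J⌋₊) (slam F ⌊w * J⌋₊) := by
    rw [hpe]
    exact ttw_full F hA hW hE.tm
  rw [← hpe] at g1 g2 g4 gf go gU h3
  have main := htup hp (rX F A c D w t τ n nt H) (X0 F A c D w t n H) (hgC F c w H 2 nt)
    (hgC F c w H 2 (n 2)) (fun ω => (f1C F c D w n H ω, fbC F c w H τ nτ ω))
    (fbC F c w H τ nτ) (slam F ⌊w * J⌋₊) (elN F A c D w n nt H kc)
    (x0 F A c D w n nt H) F.T (yA F A c D w t n nt H) (rX_det p)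
    (fun ω ω' _ _ h => (rX_eq h).2.2.2.2.2.1) (fun ω ω' _ _ h => (rX_eq h).2.2.2.2.2.2.1)
    (fun ω ω' _ _ h => congrArg Prod.fst (rX_eq h).2.1)
    (fun ω ω' _ _ h => (Prod.ext_iff.1 h).2)
    (fun ω ω' _ _ h => congrArg (fun z => z.1.1.1) h)
    (fun ω ω' hω hω' h => Prod.ext (det_xg hpA ω ω' hω hω' h)
      (hk1 ω ω' (hpA ω hω) (hpA ω' hω') h))
    g1 g2 h3 (fun j v v' _ _ h => congrFun (Prod.ext_iff.1 h).2 j)
    (fun v v' _ _ h => (Prod.ext_iff.1 (Prod.ext_iff.1 h).1).1) g4 gf go gU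
    (fun el => el.1) (ttw F ⌊w * J⌋₊)
    (fun s => op ⌊w * J⌋₊ c (H s) s 3) (fun s => grP F c D₂ ⌊w * J⌋₊ H Hr s 2)
    (fun el => hLc J (n 2) (el.1.1.2 0)) B S nr (2 ^ (J - ⌊w * J⌋₊ - 1)) Xd N a b V K
    (e * J + 2 * Real.log 2) c₀ c₁ ρ ((D + 1) / 2 ^ (n 3 * J)) δ η₁ (Ks / 2 ^ (n 2 * J))
    (3 / 2 ^ (nt * J)) Bn Bc Qb (Nat.one_le_two_pow) hρ hρ1 hCM
    (fun ω _ => ttw_le F hW ω) e7
    (fun s => (op_deg ⌊w * J⌋₊ c (hdH s) s 3).trans (by omega))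
    (fun s => (grP_deg F c D₂ ⌊w * J⌋₊ H Hr s 2).trans (by omega))
    (by positivity) hδ hK0 (by positivity) (by positivity) hQb
    (fun ω ω' hω hω' h τ hτ => by
      refine ⟨?_, hk3 ω ω' (hpA ω hω) (hpA ω' hω') h τ hτ⟩
      have h3 : pcC F c D w H 3 1 (n 3) ω = pcC F c D w H 3 1 (n 3) ω' :=
        congrArg (fun z => z.1.2) h
      have h4 := pc_near1 hdH h3 hτ
      have h5 : ∀ o : F.Ω, (op ⌊w * J⌋₊ c (H (slam F ⌊w * J⌋₊ o)) (slam F ⌊w * J⌋₊ o) 3).eval 0 =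
          (Pool.ND54.opl F c ⌊w * J⌋₊ H 3 o).coeff 0 := fun o =>
        (Polynomial.coeff_zero_eq_eval_zero _).symm
      rw [h5, h5]
      exact h4)
    (fun j => ?_)
    (fun k hk ω hω hBω => hrow k hk ω (hpA ω hω) hBω) hcard (by rw [hpe]; exact hB)
    (by rw [← hη₂]; exact hK) (by rw [← hη₂]; exact hV)
    (fun k hk => by
      have := hnum k hk
      push_cast at this ⊢
      exact this)
  · rw [← hQ, ← hη₂] at main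
    refine main.trans (le_of_eq ?_)
    push_cast
    ring
  · -- the good event
    rw [← hQ]
    refine (Pool.XLF.Pb_le hQ0 fun v hv hnot => ?_).trans (hsp j)
    by_contra hne
    push Not at hne
    apply hnot
    obtain ⟨h1, h2, k1, k2, h5, -⟩ := naQ_pos hA hv
    have hrt : ∀ i, rt F ⌊w * J⌋₊ (v i j) = rt F ⌊w * J⌋₊ (v 0 j) := fun i =>
      Pool.NDD66.rt_congr ((k1 i j).trans (k1 0 j).symm)
    have hx0 : ∀ i i', x0 F A c D w n nt H (v i j) = x0 F A c D w n nt H (v i' j) :=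
      fun i i' => (h5 i j).trans (h5 i' j).symm
    have hsep : ∀ i i', i ≠ i' → Ks / 2 ^ (n 2 * J) ≤
        |hLc J (n 2) (pcC F c D w H 2 0 (n 2) (v i j) 0) -
          hLc J (n 2) (pcC F c D w H 2 0 (n 2) (v i' j) 0)| ∧
        |hLc J (n 2) (pcC F c D w H 2 0 (n 2) (v i j) 0) -
          hLc J (n 2) (pcC F c D w H 2 0 (n 2) (v i' j) 0)| ≤ 3 / 2 ^ (nt * J) := by
      intro i i' hii
      constructor
      · have h6 := hne i i' hii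
        unfold Pool.ND54.hLc
        rw [← sub_div, abs_div, abs_of_pos hn2]
        refine div_le_div_of_nonneg_right ?_ hn2.le
        have h7 : ((Ks : ℤ) : ℝ) ≤ ((|pcC F c D w H 2 0 (n 2) (v i j) 0 -
          pcC F c D w H 2 0 (n 2) (v i' j) 0| : ℤ) : ℝ) := by exact_mod_cast h6.le
        push_cast at h7
        exact h7
      · exact hLc_coarse hnt (congrArg (fun z => z.2.2.2) (hx0 i i'))
    have hle : ∀ i i', |hLc J (n 2) (pcC F c D w H 2 0 (n 2) (v i j) 0) -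
          hLc J (n 2) (pcC F c D w H 2 0 (n 2) (v i' j) 0)| ≤ 3 / 2 ^ (nt * J) :=
      fun i i' => hLc_coarse hnt (congrArg (fun z => z.2.2.2) (hx0 i i'))
    obtain ⟨Qp, hQd, hQ1, hQ2⟩ := hOwn (0 : Fin (2 * D + 1 + 1)) (fun i => v i j)
      (fun i => hLc J (n 2) (pcC F c D w H 2 0 (n 2) (v i j) 0)) (fun i => h1 i j)
      (fun i => (k1 i j).trans (k1 0 j).symm)
      (fun i => congrArg (fun z => z.1.1) (hx0 i 0))
      (fun i => (k2 i j).trans (k2 0 j).symm)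
      (fun i l hl => by
        have h6 : pcC F c D w H l 0 (n l) (v i j) = pcC F c D w H l 0 (n l) (v 0 j) :=
          congrFun (congrArg (fun z => z.2.1) (hx0 i 0)) ⟨l, hl⟩
        have hm := rt_mem F ⌊w * J⌋₊ (v i j)
        have h7 := pc_near hdH h6 (τ := rt F ⌊w * J⌋₊ (v i j)) ⟨hm.1, hm.2⟩
        show |(Pool.ND54.opl F c ⌊w * J⌋₊ H l (v i j)).eval (rt F ⌊w * J⌋₊ (v i j)) -
          (Pool.ND54.opl F c ⌊w * J⌋₊ H l (v 0 j)).eval (rt F ⌊w * J⌋₊ (v 0 j))| ≤ δn l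
        rw [← hrt i]
        exact h7.trans (hδn l hl))
      (fun i => (hgt_par hdH (congrArg (fun z => z.2.2.1) (hx0 i 0)) (hrt i)).trans hδn2)
      (fun i => hle i 0)
    refine ⟨hsep, fun i τ hτ => hBd _ (h1 i j) τ hτ, fun i => ?_⟩
    have h6 := own_quad (h := fun i => hLc J (n 2) (pcC F c D w H 2 0 (n 2) (v i j) 0)) hQd
      (by positivity : (0 : ℝ) < Ks / 2 ^ (n 2 * J)) (by positivity) hQb hη' hsep hQ1 hQ2 i
    rw [tu_ttw F hW, hη₁]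
    have h7 : ∀ i, rt F ⌊w * J⌋₊ (v i j) = rt F ⌊w * J⌋₊ (v 0 j) := hrt
    simp only [h7] at h6 ⊢
    exact h6

end Pool.NA60
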