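import Pool.Agent.H66.NDD.Prl
import Pool.Agent.H54.ND.Stp

/-!
# The pair step over any base law

`cq`: the codes of a polynomial on `[0, 1]`. `pr_gen`: if, in two copies of a base law over common data
`y`, the path polynomials of the lines are near at the time, then their codes are few given the near
data of the line.
-/

set_option autoImplicit false

namespace Pool.NA60

open Finset Real
open Pool.Agent.H49.Ent Pool.Agent.H32.Dense Pool.STK
open Pool.BFL (Pb)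
open Pool.K2S (cpn)
open Pool.CLU (cpn_law cpn_pos cpn_marg marg_cpn)
open Pool.ND54 (cfg_gen tu tu_mem)
open Pool.STB (Pb_mono Pb_or)
open Pool.NDD66 (few_pair rmz_law)

/-- **The codes of a polynomial** on `[0, 1]`. -/
noncomputable def cq (d : ℕ) (σ : ℝ) (P : Polynomial ℝ) (a : Fin (d + 1)) : ℤ :=
  ⌊σ * (P.comp (Polynomial.C (1 / 2) * Polynomial.X + Polynomial.C (1 / 2))).coeff a⌋

theorem hf_eval (P : Polynomial ℝ) (s : ℝ) :
    (P.comp (Polynomial.C (1 / 2) * Polynomial.X + Polynomial.C (1 / 2))).eval s =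
      P.eval ((1 + s) / 2) := by
  rw [Polynomial.eval_comp]
  simp only [Polynomial.eval_add, Polynomial.eval_mul, Polynomial.eval_C, Polynomial.eval_X]
  congr 1
  ring

theorem hf_deg {P : Polynomial ℝ} {d : ℕ} (h : P.natDegree ≤ d) :
    (P.comp (Polynomial.C (1 / 2) * Polynomial.X + Polynomial.C (1 / 2))).natDegree ≤ d := by
  refine Polynomial.natDegree_comp_le.trans ?_
  have h1 : (Polynomial.C (1 / 2 : ℝ) * Polynomial.X + Polynomial.C (1 / 2)).natDegree ≤ 1 := by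
    refine (Polynomial.natDegree_add_le _ _).trans (max_le ?_ ?_)
    · exact (Polynomial.natDegree_C_mul_le _ _).trans Polynomial.natDegree_X_le
    · rw [Polynomial.natDegree_C]
      exact Nat.zero_le _
  calc _ ≤ d * 1 := Nat.mul_le_mul h h1
    _ = d := mul_one _

/-- Equal codes give near polynomials. -/
theorem cq_near {d : ℕ} {σ : ℝ} {P P' : Polynomial ℝ} (h : cq d σ P = cq d σ P') (hσ : 0 < σ)
    (hd : P.natDegree ≤ d) (hd' : P'.natDegree ≤ d) {τ : ℝ} (hτ : τ ∈ Set.Icc (0 : ℝ) 1) :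
    |P.eval τ - P'.eval τ| ≤ (d + 1) / σ := by
  obtain ⟨Q, hQ⟩ : ∃ Q : Polynomial ℝ → Polynomial ℝ, Q = fun P => P.comp
    (Polynomial.C (1 / 2) * Polynomial.X + Polynomial.C (1 / 2)) := ⟨_, rfl⟩
  have hQe : ∀ P, P.eval τ = (Q P).eval (2 * τ - 1) := fun P => by
    rw [hQ]
    show P.eval τ = (P.comp _).eval (2 * τ - 1)
    rw [hf_eval]
    congr 1
    ring
  have hQd : ∀ P : Polynomial ℝ, P.natDegree ≤ d → (Q P).natDegree ≤ d := fun P hP => by
    rw [hQ]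
    exact hf_deg hP
  rw [hQe P, hQe P', Polynomial.eval_eq_sum_range' (Nat.lt_succ_of_le (hQd P hd)),
    Polynomial.eval_eq_sum_range' (Nat.lt_succ_of_le (hQd P' hd')), ← Finset.sum_sub_distrib]
  refine (Finset.abs_sum_le_sum_abs _ _).trans ?_
  refine (Finset.sum_le_sum (g := fun _ => 1 / σ) fun i hi => ?_).trans (le_of_eq ?_)
  · rw [Finset.mem_range] at hi
    have h2 : ⌊σ * (Q P).coeff i⌋ = ⌊σ * (Q P').coeff i⌋ := by
      have h1 := congrFun h ⟨i, hi⟩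
      unfold cq at h1
      rw [hQ]
      exact h1
    have h3 := Int.abs_sub_lt_one_of_floor_eq_floor h2
    have h4 : |(Q P).coeff i - (Q P').coeff i| ≤ 1 / σ := by
      rw [le_div_iff₀ hσ]
      have h5 : σ * (Q P).coeff i - σ * (Q P').coeff i =
        ((Q P).coeff i - (Q P').coeff i) * σ := by ring
      rw [h5, abs_mul, abs_of_pos hσ] at h3
      exact h3.le
    rw [← sub_mul, abs_mul, abs_pow]
    have h5 : |2 * τ - 1| ^ i ≤ 1 := by
      refine pow_le_one₀ (abs_nonneg _) ?_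
      rw [abs_le]
      constructor <;> linarith [hτ.1, hτ.2]
    calc _ ≤ 1 / σ * 1 := mul_le_mul h4 h5 (by positivity) (by positivity)
      _ = 1 / σ := mul_one _
  · rw [Finset.sum_const, Finset.card_range, nsmul_eq_mul]
    push_cast
    ring

/-- **The pair step over any base law.** -/
theorem pr_gen (d : ℕ) : ∃ C : ℝ, 1 ≤ C ∧ ∀ {Ω Λ X Y : Type} [Fintype Ω] {q : Ω → ℝ} (l : Ω → Λ)
    (t : Ω → ℤ) (x : Ω → X) (y : Ω → Y) (P : Λ → Polynomial ℝ) (M : ℕ)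
    {δ σ ρ Bc B D ls et c₁ : ℝ}, IsLaw q → Det q l x → Det q y x → 1 ≤ M → 0 < ρ → ρ < 1 →
    C ≤ ρ ^ ⌈C⌉₊ * (2 * M + 1) → (∀ ω, 0 < q ω → |t ω| ≤ (M : ℤ)) →
    Real.log (2 * M + 1) - et ≤ CH q t l → CH q l x - CH q l y ≤ ls →
    (∀ s, (P s).natDegree ≤ d) → 0 ≤ δ → 0 ≤ σ →
    (∀ ω, 0 < q ω → ∀ τ ∈ Set.Icc (0 : ℝ) 1, |(P (l ω)).eval τ| ≤ Bc) →
    C * (σ * Bc) ≤ B → C * (1 / ρ) ^ ⌈C⌉₊ * (σ * δ) ≤ D →
    Pb (cpn q y 1) (fun w => ¬ |(P (l (w 1)) - P (l (w 0))).eval (tu M (t (w 0)))| ≤ δ) ≤ c₁ →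
    CH q (fun ω => cq d σ (P (l ω))) x ≤ ls + (d + 1) * (Real.log 2 +
      ((c₁ + (ls + et + Real.log 2) / Real.log (1 / ρ)) * Real.log (2 * (B + 1) + 1) +
        Real.log (2 * (D + 1) + 1))) := by
  obtain ⟨C₀, hC₀, hrm⟩ := rmz_law d
  obtain ⟨A, hA, hcf⟩ := Pool.FLN19.coeff_le d
  obtain ⟨C, hC⟩ : ∃ C : ℝ, C = A * C₀ := ⟨_, rfl⟩
  have hC₀R : (1 : ℝ) ≤ C₀ := by exact_mod_cast hC₀
  have hCC : (C₀ : ℝ) ≤ C := by
    rw [hC]
    exact le_mul_of_one_le_left (by linarith) hA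
  have hAC : A ≤ C := by
    rw [hC]
    exact le_mul_of_one_le_right (by linarith) hC₀R
  refine ⟨C, hC₀R.trans hCC, ?_⟩
  intro Ω Λ X Y _ q l t x y P M δ σ ρ Bc B D ls et c₁ hq hlx hyx hM hρ hρ1 hCM htM ht hls hdeg hδ
    hσ hPB hB hD hnear
  classical
  have q0 := hq.nonneg
  have hQ := cpn_law hq y 1
  have Q0 := hQ.nonneg
  have hls0 : 0 ≤ Real.log 2 := Real.log_nonneg (by norm_num)
  obtain ⟨P', hP'⟩ : ∃ P' : Λ → Polynomial ℝ, P' = fun s => (P s).comp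
    (Polynomial.C (1 / 2) * Polynomial.X + Polynomial.C (1 / 2)) := ⟨_, rfl⟩
  have hP'd : ∀ s, (P' s).natDegree ≤ d := fun s => by
    rw [hP']
    exact hf_deg (hdeg s)
  have hP'e : ∀ s z, (P' s).eval z = (P s).eval ((1 + z) / 2) := fun s z => by
    rw [hP']
    exact hf_eval _ _
  have hP'B : ∀ ω, 0 < q ω → ∀ j, |(P' (l ω)).coeff j| ≤ A * Bc := fun ω hω j =>
    hcf _ _ (hP'd _) (fun z hz => by
      rw [hP'e]
      refine hPB ω hω _ ?_
      have := abs_le.1 hz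
      constructor <;> linarith [this.1, this.2]) j
  -- the time is full given the pair
  have hfull := cfg_gen hq l x y t 1 hyx hlx
  rw [Nat.cast_one, one_mul] at hfull
  obtain ⟨W, hW⟩ : ∃ W : (Fin 2 → Ω) → (Fin 2 → Λ), W = fun w i => l (w i) := ⟨_, rfl⟩
  obtain ⟨ξ, hξ⟩ : ∃ ξ : (Fin 2 → Ω) → ℤ, ξ = fun w => t (w 0) := ⟨_, rfl⟩
  have hfr : Real.log (2 * M + 1) - (ls + et) ≤ CH (cpn q y 1) ξ W := by
    rw [hξ, hW]
    have g2 : CH (cpn q y 1) (fun w => t (w 0)) (fun w i => l (w i)) ≥ CH q t l -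
        (CH q l x - CH q l y) := hfull
    have g3 : CH (cpn q y 1) (fun w : Fin 2 → Ω => t (w 0)) (fun w (i : Fin 2) => l (w i)) =
        CH (cpn q y 1) (fun w => t (w 0)) (fun w i => l (w i)) := rfl
    linarith
  have hξM : ∀ w, 0 < cpn q y 1 w → |ξ w| ≤ (M : ℤ) := fun w hw => by
    rw [hξ]
    exact htM _ ((cpn_pos q0 y 1 w hw).1 0)
  have hlr : 0 < Real.log (1 / ρ) := Real.log_pos (by rw [lt_div_iff₀ hρ]; linarith)
  have hp1 : C₀ ≤ ⌈C⌉₊ := by
    have h3 : (C₀ : ℝ) ≤ ⌈C⌉₊ := hCC.trans (Nat.le_ceil C)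
    exact_mod_cast h3
  have hρC : ρ ^ ⌈C⌉₊ ≤ ρ ^ C₀ := pow_le_pow_of_le_one hρ.le hρ1.le hp1
  have hρC' : (1 / ρ) ^ C₀ ≤ (1 / ρ) ^ ⌈C⌉₊ :=
    pow_le_pow_right₀ (by rw [le_div_iff₀ hρ]; linarith) hp1
  have hM0 : (0 : ℝ) ≤ M := Nat.cast_nonneg M
  -- the polynomials are near
  obtain ⟨c₂, hc₂⟩ : ∃ c₂ : ℝ, c₂ = (ls + et + Real.log 2) / Real.log (1 / ρ) := ⟨_, rfl⟩
  have hpol : Pb (cpn q y 1) (fun w => ¬ ∀ s : ℝ, |s| ≤ 1 →
      |(P' (W w 1) - P' (W w 0)).eval s| ≤ C₀ * (1 / ρ) ^ C₀ * δ) ≤ c₁ + c₂ := by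
    have h3 := hrm _ _ (cpn q y 1) W ξ (fun s => P' (s 1) - P' (s 0)) M δ (ls + et) ρ
      hQ hM hρ hρ1.le hδ (by
        refine hCC.trans (hCM.trans (mul_le_mul_of_nonneg_right hρC (by linarith)))) hξM hfr
      (fun s => (Polynomial.natDegree_sub_le _ _).trans (max_le (hP'd _) (hP'd _)))
    have h4 : Pb (cpn q y 1) (fun w => |(P' (W w 1) - P' (W w 0)).eval ((ξ w : ℝ) / M)| ≤ δ ∧
        ∃ s : ℝ, |s| ≤ 1 ∧ C₀ * (1 / ρ) ^ C₀ * δ < |(P' (W w 1) - P' (W w 0)).eval s|) ≤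
        c₂ := by
      rw [hc₂, le_div_iff₀ hlr]
      exact h3
    refine (Pb_mono Q0 (B := fun w => (¬ |(P' (W w 1) - P' (W w 0)).eval ((ξ w : ℝ) / M)| ≤
      δ) ∨ (|(P' (W w 1) - P' (W w 0)).eval ((ξ w : ℝ) / M)| ≤ δ ∧
        ∃ s : ℝ, |s| ≤ 1 ∧ C₀ * (1 / ρ) ^ C₀ * δ < |(P' (W w 1) - P' (W w 0)).eval s|))
      fun w _ h5 => ?_).trans ((Pb_or Q0 _ _).trans (add_le_add ?_ h4))
    · by_cases h6 : |(P' (W w 1) - P' (W w 0)).eval ((ξ w : ℝ) / M)| ≤ δ
      · refine Or.inr ⟨h6, ?_⟩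
        push Not at h5
        exact h5
      · exact Or.inl h6
    · refine le_trans (le_of_eq ?_) hnear
      congr 1
      funext w
      rw [hξ, hW]
      have e1 : (P' (l (w 1)) - P' (l (w 0))).eval ((t (w 0) : ℝ) / M) =
          (P (l (w 1)) - P (l (w 0))).eval (tu M (t (w 0))) := by
        rw [Polynomial.eval_sub, Polynomial.eval_sub, hP'e, hP'e]
        rfl
      show (¬ |(P' (l (w 1)) - P' (l (w 0))).eval ((t (w 0) : ℝ) / M)| ≤ δ) = _
      rw [e1]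
  -- the codes
  obtain ⟨Xc, hXc⟩ : ∃ Xc : Ω → Fin (d + 1) → ℤ, Xc = fun v => cq d σ (P (l v)) := ⟨_, rfl⟩
  have hXce : ∀ v a, Xc v a = ⌊σ * (P' (l v)).coeff a⌋ := fun v a => by
    rw [hXc, hP']
    rfl
  have hD1 : 0 ≤ D := le_trans (by
    have : 0 ≤ C := by linarith
    positivity) hD
  have hB1 : 0 ≤ B := by
    refine le_trans ?_ hB
    have h3 : 0 ≤ Bc := by
      by_contra hneg
      push Not at hneg
      have h4 : ∑ ω, q ω = 0 := Finset.sum_eq_zero fun ω _ => by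
        by_contra h5
        have h6 : 0 < q ω := lt_of_le_of_ne (q0 ω) (Ne.symm h5)
        have h7 := (abs_nonneg _).trans (hPB ω h6 0 ⟨le_rfl, zero_le_one⟩)
        linarith
      have h5 := hq.sum_one
      rw [h4] at h5
      norm_num at h5
    have : 0 ≤ C := by linarith
    positivity
  have hfew := few_pair hq y Xc (B := B + 1) (D := D + 1) (c := c₁ + c₂) (by linarith)
    (by linarith) (fun v hv a => by
      have h3 : |σ * (P' (l v)).coeff a| ≤ B := by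
        rw [abs_mul, abs_of_nonneg hσ]
        have h4 := hP'B v hv a
        have h5 : 0 ≤ Bc := by
          have h6 := (abs_nonneg _).trans (hPB v hv 0 ⟨le_rfl, zero_le_one⟩)
          exact h6
        calc σ * |(P' (l v)).coeff a| ≤ σ * (A * Bc) := mul_le_mul_of_nonneg_left h4 hσ
          _ = A * (σ * Bc) := by ring
          _ ≤ C * (σ * Bc) := mul_le_mul_of_nonneg_right hAC (mul_nonneg hσ h5)
          _ ≤ B := hB
      have h4 := Int.floor_le (σ * (P' (l v)).coeff a)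
      have h5 := Int.lt_floor_add_one (σ * (P' (l v)).coeff a)
      rw [hXce]
      rw [abs_le] at h3 ⊢
      constructor <;> linarith [h3.1, h3.2]) (fun a => by
      refine (Pb_mono Q0 fun w _ h3 => ?_).trans hpol
      intro h4
      apply h3
      have h5 := hcf (P' (W w 1) - P' (W w 0)) (C₀ * (1 / ρ) ^ C₀ * δ)
        ((Polynomial.natDegree_sub_le _ _).trans (max_le (hP'd _) (hP'd _))) h4 a
      rw [Polynomial.coeff_sub] at h5
      have h6 : |σ * (P' (W w 1)).coeff a - σ * (P' (W w 0)).coeff a| ≤ D := by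
        rw [← mul_sub, abs_mul, abs_of_nonneg hσ]
        refine (mul_le_mul_of_nonneg_left h5 hσ).trans (le_trans ?_ hD)
        rw [hC]
        have h7 : 0 ≤ A * C₀ * (σ * δ) := by
          have : 0 ≤ A := by linarith
          positivity
        have h8 := mul_le_mul_of_nonneg_right hρC' h7
        calc σ * (A * (C₀ * (1 / ρ) ^ C₀ * δ)) =
            (1 / ρ) ^ C₀ * (A * C₀ * (σ * δ)) := by ring
          _ ≤ (1 / ρ) ^ ⌈A * C₀⌉₊ * (A * C₀ * (σ * δ)) := by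
              rw [← hC] at h8 ⊢
              exact h8
          _ = _ := by ring
      have h7 := Int.floor_le (σ * (P' (W w 1)).coeff a)
      have h8 := Int.lt_floor_add_one (σ * (P' (W w 1)).coeff a)
      have h9 := Int.floor_le (σ * (P' (W w 0)).coeff a)
      have h10 := Int.lt_floor_add_one (σ * (P' (W w 0)).coeff a)
      have h11 : Xc (w 1) a = ⌊σ * (P' (W w 1)).coeff a⌋ := by
        rw [hXce, hW]
      have h12 : Xc (w 0) a = ⌊σ * (P' (W w 0)).coeff a⌋ := by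
        rw [hXce, hW]
      rw [h11, h12]
      rw [abs_le] at h6 ⊢
      constructor <;> linarith [h6.1, h6.2])
  -- from the base law to the near data
  have hlXc : Det q l Xc := fun v v' _ _ h => by
    rw [hXc]
    show cq d σ (P (l v)) = cq d σ (P (l v'))
    rw [h]
  have k2 := CH_chain q0 Xc y x
  have k3 := CH_chain q0 y Xc x
  have k4 : CH q (fun v => (Xc v, y v)) x = CH q (fun v => (y v, Xc v)) x :=
    Pool.MIC.CH_swl q0 _ _ _
  have k5 : CH q Xc (fun v => (y v, x v)) ≤ CH q Xc y :=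
    CH_mono_cond q0 fun v v' _ _ h => (Prod.ext_iff.1 h).1
  have k6 : CH q y (fun v => (l v, x v)) ≤ CH q y (fun v => (Xc v, x v)) := by
    refine CH_mono_cond q0 fun v v' hv hv' h => ?_
    have h3 := Prod.ext_iff.1 h
    exact Prod.ext (hlXc _ _ hv hv' h3.1) h3.2
  have k7 := CH_chain q0 l y x
  have k8 := CH_chain q0 y l x
  have k9 : CH q (fun v => (l v, y v)) x = CH q (fun v => (y v, l v)) x :=
    Pool.MIC.CH_swl q0 _ _ _
  have k10 : CH q l y ≤ CH q l (fun v => (y v, x v)) :=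
    CH_mono_cond q0 fun v v' hv hv' h => Prod.ext h (hyx _ _ hv hv' h)
  rw [Fintype.card_fin] at hfew
  push_cast at hfew
  rw [← hc₂]
  have k11 : CH q (fun ω => cq d σ (P (l ω))) x = CH q Xc x := by rw [hXc]
  rw [k11]
  linarith

end Pool.NA60
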