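import Pool.Agent.H36.NA.Use2
import Pool.Agent.H54.ND.Sup2
import Pool.Agent.H60.NA.Tup

/-!
# The copies of pairs of lines over one near point: the law

`yA`: the common datum of the copies. `naQ`: their law. `naQ_pos`: its support. `na_hy`, `na_hf`,
`na_ho`: the entropy inequalities of `na_core`. `na_sep`: the heights of the copies are separated.
-/

set_option autoImplicit false

namespace Pool.NA60

open Finset Real MvPolynomial
open Pool.Agent.H49.Ent Pool.Agent.H32.Dense Pool.STK Pool.KA Pool.KSAT Pool.K2S Pool.PB Pool.S6C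
open Pool.GEN hiding Det
open Pool.CHT Pool.D2R Pool.LA91 Pool.RCD
open Pool.PB.Trl (rt rt_mem t_rt)
open Pool.V0F (cR)
open Pool.NDC42
open Pool.BFL (Pb)
open Pool.STB (Pb_mono Pb_or)
open Pool.CLU (cpn_law cpn_pos cpn_marg)
open Pool.H52.TIE (CH_cpn CH_cpn_zero)
open Pool.NA36 (vpC f1C f2C fbC X0 rX NaT NaE)
open Pool.ND54 (cond_A det_x0 det_xg elN hh hLc)

variable {m J : ℕ}

/-- **The common datum** of the copies of pairs of lines. -/
noncomputable def yA (F : Fam m J) (A : F.Ω → Prop) (c : ℕ → Fin m) (D : ℕ) (w t : ℝ) (n : ℕ → ℝ)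
    (nt : ℝ) (H : LnT F → ℕ → MvPolynomial (Option (Fin m)) ℝ) (v : Fin 2 → F.Ω) :=
  ((F.T (v 0), cR F A t (v 0)), fun j : Fin 2 => x0 F A c D w n nt H (v j))

/-- **The law of the copies** of pairs of lines. -/
noncomputable def naQ (F : Fam m J) (A : F.Ω → Prop) (c : ℕ → Fin m) (D : ℕ) (w t τ : ℝ)
    (n : ℕ → ℝ) (nt : ℝ) (H : LnT F → ℕ → MvPolynomial (Option (Fin m)) ℝ) :
    (Fin (2 * D + 1 + 1) → Fin 2 → F.Ω) → ℝ :=
  cpn (cpn (Pool.Agent.H49.Ent.cond F.p A True) (rX F A c D w t τ n nt H) 1)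
    (yA F A c D w t n nt H) (2 * D + 1)

/-- The parts of the record of a pair. -/
theorem rX_eq {F : Fam m J} {A : F.Ω → Prop} {c : ℕ → Fin m} {D : ℕ} {w t τ : ℝ} {n : ℕ → ℝ}
    {nt : ℝ} {H : LnT F → ℕ → MvPolynomial (Option (Fin m)) ℝ} {ω ω' : F.Ω}
    (h : rX F A c D w t τ n nt H ω = rX F A c D w t τ n nt H ω') :
    cR F A w ω = cR F A w ω' ∧ F.W ω = F.W ω' ∧ vpC F c D w n H ω = vpC F c D w n H ω' ∧
      f2C F c D w n H ω = f2C F c D w n H ω' ∧ cR F A t ω = cR F A t ω' ∧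
      hgC F c w H 2 nt ω = hgC F c w H 2 nt ω' ∧ hgC F c w H 2 (n 2) ω = hgC F c w H 2 (n 2) ω' ∧
      cR F A τ ω = cR F A τ ω' := by
  unfold rX X0 at h
  simp only [Prod.mk.injEq] at h
  obtain ⟨⟨⟨h1, h2⟩, h3, h4, h5⟩, ⟨h6, h7⟩, h8⟩ := h
  exact ⟨h1, h2, h3, h4, h5, h6, h7, h8⟩

/-- **The support of the law of the copies.** -/
theorem naQ_pos {F : Fam m J} {A : F.Ω → Prop} (hA : 0 < Pe F.p A) {c : ℕ → Fin m} {D : ℕ}
    {w t τ : ℝ} {n : ℕ → ℝ} {nt : ℝ} {H : LnT F → ℕ → MvPolynomial (Option (Fin m)) ℝ}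
    {v : Fin (2 * D + 1 + 1) → Fin 2 → F.Ω} (h : 0 < naQ F A c D w t τ n nt H v) :
    (∀ i j, A (v i j)) ∧
    (∀ i j, rX F A c D w t τ n nt H (v i j) = rX F A c D w t τ n nt H (v i 0)) ∧
    (∀ i j, F.T (v i j) = F.T (v 0 0)) ∧ (∀ i j, cR F A t (v i j) = cR F A t (v 0 0)) ∧
    (∀ i j, x0 F A c D w n nt H (v i j) = x0 F A c D w n nt H (v 0 j)) ∧
    ∀ i j, cR F A w (v i j) = cR F A w (v 0 0) := by
  have hp := isLaw_cond F.isLaw hA
  have hq := cpn_law hp (rX F A c D w t τ n nt H) 1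
  have h1 := cpn_pos hq.nonneg (yA F A c D w t n nt H) (2 * D + 1) v h
  have h2 : ∀ i, (∀ j, 0 < Pool.Agent.H49.Ent.cond F.p A True (v i j)) ∧
      ∀ j, rX F A c D w t τ n nt H (v i j) = rX F A c D w t τ n nt H (v i 0) := fun i =>
    cpn_pos hp.nonneg (rX F A c D w t τ n nt H) 1 (v i) (h1.1 i)
  have h3 : ∀ i, F.T (v i 0) = F.T (v 0 0) := fun i =>
    (Prod.ext_iff.1 (Prod.ext_iff.1 (h1.2 i)).1).1
  have h4 : ∀ i, cR F A t (v i 0) = cR F A t (v 0 0) := fun i =>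
    (Prod.ext_iff.1 (Prod.ext_iff.1 (h1.2 i)).1).2
  have h5 : ∀ i j, x0 F A c D w n nt H (v i j) = x0 F A c D w n nt H (v 0 j) := fun i j =>
    congrFun (Prod.ext_iff.1 (h1.2 i)).2 j
  refine ⟨fun i j => cond_A ((h2 i).1 j), fun i j => (h2 i).2 j, fun i j => ?_, fun i j => ?_, h5,
    fun i j => ?_⟩
  · have h6 : F.T (v i j) = F.T (v i 0) := congrArg Prod.fst (rX_eq ((h2 i).2 j)).2.1
    rw [h6, h3]
  · rw [(rX_eq ((h2 i).2 j)).2.2.2.2.1, h4]
  · have h6 : cR F A w (v i 0) = cR F A w (v 0 0) := congrArg (fun z => z.1.1) (h5 i 0)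
    rw [(rX_eq ((h2 i).2 j)).1, h6]

/-- **Samples with the same record of a pair** are near. -/
theorem srX {F : Fam m J} {A : F.Ω → Prop} {c : ℕ → Fin m} {D : ℕ} {w t τ : ℝ} {n : ℕ → ℝ}
    {nt : ℝ} {H : LnT F → ℕ → MvPolynomial (Option (Fin m)) ℝ} (hW : ⌊w * J⌋₊ ≤ J)
    (hdH : ∀ s l, (H s l).totalDegree ≤ D) {ω ν : F.Ω}
    (h : rX F A c D w t τ n nt H ω = rX F A c D w t τ n nt H ν) :
    cR F A τ ω = cR F A τ ν ∧ F.T ω = F.T ν ∧
      ∀ l ≤ 2, |(F.x ω (c l) - eval (bt F ω) (H (slam F ⌊w * J⌋₊ ω) l)) -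
        (F.x ν (c l) - eval (bt F ν) (H (slam F ⌊w * J⌋₊ ν) l))| ≤ (D + 2) / 2 ^ (n l * J) := by
  obtain ⟨h1, h2, h3, h4, h5, h6, h7, h8⟩ := rX_eq h
  have hT : F.T ω = F.T ν := congrArg Prod.fst h2
  have hrt : rt F ⌊w * J⌋₊ ω = rt F ⌊w * J⌋₊ ν := Pool.NDD66.rt_congr hT
  refine ⟨h8, hT, fun l hl => ?_⟩
  rw [← Pool.NDD66.op_at hW, ← Pool.NDD66.op_at hW]
  rcases Nat.lt_or_ge l 2 with h9 | h9
  · have h10 : pcC F c D w H l 0 (n l) ω = pcC F c D w H l 0 (n l) ν := congrFun h3 ⟨l, h9⟩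
    have hm := rt_mem F ⌊w * J⌋₊ ω
    have h11 := Pool.ND54.pc_near hdH h10 (τ := rt F ⌊w * J⌋₊ ω) ⟨hm.1, hm.2⟩
    rw [← hrt]
    exact h11
  · obtain rfl : l = 2 := by omega
    have h11 := Pool.ND54.hg_near hW h7
    have hp : (0 : ℝ) < 2 ^ (n 2 * J) := Real.rpow_pos_of_pos (by norm_num) _
    refine h11.trans (div_le_div_of_nonneg_right ?_ hp.le)
    have : (0 : ℝ) ≤ D := Nat.cast_nonneg D
    linarith

section

variable {F : Fam m J} {A : F.Ω → Prop} {c : ℕ → Fin m} {D : ℕ} {w t τ : ℝ} {n : ℕ → ℝ}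
  {nt nτ s₀ β δ e : ℝ} {H : LnT F → ℕ → MvPolynomial (Option (Fin m)) ℝ}

/-- The record of a pair determines the base record. -/
theorem rX_det (p : F.Ω → ℝ) : Det p (rX F A c D w t τ n nt H) (X0 F A c D w t n H) :=
  fun _ _ _ _ h => (Prod.ext_iff.1 h).1

/-- **The common datum is few** given the data of both lines. -/
theorem na_hy (hA : 0 < Pe F.p A) (ht : NaT F A c D w t t n nt nt s₀ β δ e H) :
    CH (cpn (Pool.Agent.H49.Ent.cond F.p A True) (rX F A c D w t τ n nt H) 1)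
      (yA F A c D w t n nt H) (fun v => (hgC F c w H 2 nt (v 0),
        ((f1C F c D w n H (v 0), fbC F c w H τ nτ (v 0)),
          ((f1C F c D w n H (v 1), fbC F c w H τ nτ (v 1)), X0 F A c D w t n H (v 0))))) ≤
      2 * (e * J) := by
  classical
  obtain ⟨p, hpe⟩ : ∃ p, p = Pool.Agent.H49.Ent.cond F.p A True := ⟨_, rfl⟩
  have hp : IsLaw p := by rw [hpe]; exact isLaw_cond F.isLaw hA
  have hxu := ht.xu
  rw [← hpe] at hxu ⊢
  obtain ⟨r, hr⟩ : ∃ r, r = rX F A c D w t τ n nt H := ⟨_, rfl⟩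
  rw [← hr]
  have hql := cpn_law hp r 1
  have q0 := hql.nonneg
  have hpos : ∀ v, 0 < cpn p r 1 v → ∀ j, r (v j) = r (v 0) := fun v hv =>
    (cpn_pos hp.nonneg r 1 v hv).2
  obtain ⟨Z, hZ⟩ : ∃ Z, Z = fun v : Fin 2 → F.Ω => (hgC F c w H 2 nt (v 0),
        ((f1C F c D w n H (v 0), fbC F c w H τ nτ (v 0)),
          ((f1C F c D w n H (v 1), fbC F c w H τ nτ (v 1)), X0 F A c D w t n H (v 0)))) :=
    ⟨_, rfl⟩
  rw [← hZ]
  have hZe : ∀ v v', Z v = Z v' → hgC F c w H 2 nt (v 0) = hgC F c w H 2 nt (v' 0) ∧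
      f1C F c D w n H (v 0) = f1C F c D w n H (v' 0) ∧
      f1C F c D w n H (v 1) = f1C F c D w n H (v' 1) ∧
      X0 F A c D w t n H (v 0) = X0 F A c D w t n H (v' 0) := fun v v' h => by
    rw [hZ] at h
    simp only [Prod.mk.injEq] at h
    exact ⟨h.1, h.2.1.1, h.2.2.1.1, h.2.2.2⟩
  have hXe : ∀ ω ω' : F.Ω, X0 F A c D w t n H ω = X0 F A c D w t n H ω' →
      cR F A w ω = cR F A w ω' ∧ F.W ω = F.W ω' ∧ vpC F c D w n H ω = vpC F c D w n H ω' ∧
      cR F A t ω = cR F A t ω' := fun ω ω' h => by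
    unfold X0 at h
    simp only [Prod.mk.injEq] at h
    exact ⟨h.1.1, h.1.2, h.2.1, h.2.2.2⟩
  have a1 : CH (cpn p r 1) (yA F A c D w t n nt H) Z ≤
      CH (cpn p r 1) (fun v => fun j : Fin 2 => x0 F A c D w n nt H (v j)) Z := by
    refine CH_mono_left q0 fun v v' _ _ h => ?_
    have h' := Prod.ext_iff.1 h
    have h1 := hXe _ _ (hZe _ _ h'.2).2.2.2
    have h2 : F.T (v 0) = F.T (v' 0) := congrArg Prod.fst h1.2.1
    exact Prod.ext (Prod.ext h2 h1.2.2.2) h'.1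
  refine a1.trans ((Pool.KS3.CH_pi_le q0 (fun v => fun j : Fin 2 =>
    x0 F A c D w n nt H (v j)) Z).trans ?_)
  have a2 : ∀ j : Fin 2, CH (cpn p r 1) (fun v => x0 F A c D w n nt H (v j)) Z ≤ e * J := by
    intro j
    obtain ⟨g, hg⟩ : ∃ g, g = fun ω => (hgC F c w H 2 nt ω, (f1C F c D w n H ω, (F.T ω,
      (cR F A w ω, vpC F c D w n H ω)))) := ⟨_, rfl⟩
    rw [← hg] at hxu
    have b1 : CH (cpn p r 1) (fun v => x0 F A c D w n nt H (v j)) Z ≤
        CH (cpn p r 1) (fun v => x0 F A c D w n nt H (v j)) (fun v => g (v j)) := by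
      refine CH_mono_cond q0 fun v v' hv hv' h => ?_
      have h1 := hZe _ _ h
      have h2 := hXe _ _ h1.2.2.2
      have k1 : rX F A c D w t τ n nt H (v j) = rX F A c D w t τ n nt H (v 0) := by
        rw [← hr]
        exact hpos v hv j
      have k2 : rX F A c D w t τ n nt H (v' j) = rX F A c D w t τ n nt H (v' 0) := by
        rw [← hr]
        exact hpos v' hv' j
      have m1 := rX_eq k1
      have m2 := rX_eq k2
      have hf : f1C F c D w n H (v j) = f1C F c D w n H (v' j) := by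
        refine Fin.cases ?_ (fun i => ?_) j
        · exact h1.2.1
        · have hi : i.succ = (1 : Fin 2) := by
            have : i = 0 := Fin.ext (by omega)
            rw [this]
            rfl
          rw [hi]
          exact h1.2.2.1
      rw [hg]
      show (hgC F c w H 2 nt (v j), (f1C F c D w n H (v j), (F.T (v j),
        (cR F A w (v j), vpC F c D w n H (v j))))) = (hgC F c w H 2 nt (v' j),
        (f1C F c D w n H (v' j), (F.T (v' j), (cR F A w (v' j), vpC F c D w n H (v' j)))))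
      have hT : F.T (v j) = F.T (v' j) := by
        have e1 : F.T (v j) = F.T (v 0) := congrArg Prod.fst m1.2.1
        have e2 : F.T (v' j) = F.T (v' 0) := congrArg Prod.fst m2.2.1
        have e3 : F.T (v 0) = F.T (v' 0) := congrArg Prod.fst h2.2.1
        rw [e1, e2, e3]
      rw [m1.2.2.2.2.2.1, m2.2.2.2.2.2.1, h1.1, hf, hT, m1.1, m2.1, h2.1, m1.2.2.1, m2.2.2.1,
        h2.2.2.1]
    refine b1.trans (le_of_eq_of_le (CH_cpn hp r 1 j (x0 F A c D w n nt H) g) hxu)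
  refine (Finset.sum_le_sum fun j _ => a2 j).trans (le_of_eq ?_)
  rw [Finset.sum_const, Finset.card_univ, Fintype.card_fin, nsmul_eq_mul]
  push_cast
  ring

/-- **The data of a line**: few given the near data. -/
theorem na_hf (hA : 0 < Pe F.p A) (ht : NaT F A c D w t t n nt nt s₀ β δ e H) {Kc : Type}
    (kc : F.Ω → Kc)
    (hk2 : CH (Pool.Agent.H49.Ent.cond F.p A True) kc (xg F A c D w n nt H) ≤ e * J) :
    CH (Pool.Agent.H49.Ent.cond F.p A True) (elN F A c D w n nt H kc) (x0 F A c D w n nt H) ≤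
      (n 2 - nt) * Real.log 2 * J + (e * J + e * J) := by
  obtain ⟨p, hpe⟩ : ∃ p, p = Pool.Agent.H49.Ent.cond F.p A True := ⟨_, rfl⟩
  have hp : IsLaw p := by rw [hpe]; exact isLaw_cond F.isLaw hA
  have p0 := hp.nonneg
  have h4 := ht.xx
  rw [← hpe] at h4 hk2 ⊢
  have h1 : CH p (elN F A c D w n nt H kc) (x0 F A c D w n nt H) ≤
      CH p (fun ω => (kc ω, xg F A c D w n nt H ω)) (x0 F A c D w n nt H) :=
    CH_mono_left p0 fun ω ω' _ _ h => by
      have h' := Prod.ext_iff.1 (Prod.ext_iff.1 h).1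
      exact Prod.ext h'.2 h'.1
  have h2 := CH_chain p0 kc (xg F A c D w n nt H) (x0 F A c D w n nt H)
  have h3 : CH p kc (fun ω => (xg F A c D w n nt H ω, x0 F A c D w n nt H ω)) ≤
      CH p kc (xg F A c D w n nt H) :=
    CH_mono_cond p0 fun _ _ _ _ h => (Prod.ext_iff.1 h).1
  have h5 : ((n 2 - nt) * Real.log 2 + e) * J = (n 2 - nt) * Real.log 2 * J + e * J := by ring
  rw [h5] at h4
  linarith

/-- The far digits of the height, from the path and the time. -/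
theorem na_hox (hA : 0 < Pe F.p A) {x' : ℝ} (hE : NaE F A c D w x' n e H) :
    CH (Pool.Agent.H49.Ent.cond F.p A True) (hgC F c w H 2 (n 2))
      (fun ω => (xn F A c D w n nt H ω, F.T ω)) ≤ e * J := by
  have hp : IsLaw (Pool.Agent.H49.Ent.cond F.p A True) := isLaw_cond F.isLaw hA
  refine le_trans (CH_mono_cond hp.nonneg fun ω ω' _ _ h => ?_) (hE.hn (n 2) le_rfl)
  have h' := Prod.ext_iff.1 h
  have h1 := Prod.ext_iff.1 h'.1
  have h2 : pcC F c D w H 2 0 (n 2) ω = pcC F c D w H 2 0 (n 2) ω' := h1.2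
  have h3 : ((cR F A w ω, F.Z ω), ((fun l : Fin 2 => pcC F c D w H l 0 (n l) ω),
      (pcC F c D w H 2 1 (n 2) ω, pcC F c D w H 2 0 nt ω))) =
      ((cR F A w ω', F.Z ω'), ((fun l : Fin 2 => pcC F c D w H l 0 (n l) ω'),
      (pcC F c D w H 2 1 (n 2) ω', pcC F c D w H 2 0 nt ω'))) := h1.1
  simp only [Prod.mk.injEq] at h3
  refine Prod.ext h'.2 (Prod.ext ?_ h2)
  show ((cR F A w ω, F.Z ω), ((fun l : Fin 2 => pcC F c D w H l 0 (n l) ω),
      (pcC F c D w H 2 1 (n 2) ω, pcC F c D w H 2 0 (n 2) ω))) =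
      ((cR F A w ω', F.Z ω'), ((fun l : Fin 2 => pcC F c D w H l 0 (n l) ω'),
      (pcC F c D w H 2 1 (n 2) ω', pcC F c D w H 2 0 (n 2) ω')))
  rw [h3.1.1, h3.1.2, h3.2.1, h3.2.2.1, h2]

theorem na_ho (hA : 0 < Pe F.p A) {x' : ℝ} (hE : NaE F A c D w x' n e H) {Kc : Type}
    (kc : F.Ω → Kc) : CH (Pool.Agent.H49.Ent.cond F.p A True) (hgC F c w H 2 (n 2))
      (fun ω => (elN F A c D w n nt H kc ω, F.T ω)) ≤ e * J := by
  have hp : IsLaw (Pool.Agent.H49.Ent.cond F.p A True) := isLaw_cond F.isLaw hA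
  refine le_trans (CH_mono_cond hp.nonneg fun ω ω' _ _ h => ?_) (na_hox (nt := nt) hA hE)
  have h' := Prod.ext_iff.1 h
  exact Prod.ext (congrArg (fun z => z.1.1) h'.1) h'.2

/-- **Fullness of the far digits** for a pair of lines: of the near point, and of the order-zero code
of the path of `c 2` of both lines. -/
theorem na_U0 (hA : 0 < Pe F.p A) {x' : ℝ} (hE : NaE F A c D w x' n e H)
    (ht : NaT F A c D w t t n nt nt s₀ β δ e H) (ha : NaT F A c D w t τ n nt nτ s₀ β δ e H)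
    (hwt : w ≤ t) (ht1 : t ≤ 1) (he : 0 ≤ e) (hn : nτ - (τ - w) ≤ n 2) {e₃ : ℝ}
    (h3 : CH (cpn (Pool.Agent.H49.Ent.cond F.p A True) (rX F A c D w t τ n nt H) 1)
      (fun v => fbC F c w H τ nτ (v 1)) (fun v => fbC F c w H τ nτ (v 0)) ≤ e₃) (j : Fin 2) :
    (n 2 - nt) * Real.log 2 * J - (8 * (e * J) + Real.log 5 + e₃) ≤
      CH (cpn (Pool.Agent.H49.Ent.cond F.p A True) (rX F A c D w t τ n nt H) 1)
        (fun v => pcC F c D w H 2 0 (n 2) (v j) 0) (yA F A c D w t n nt H) := by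
  classical
  obtain ⟨p, hpe⟩ : ∃ p, p = Pool.Agent.H49.Ent.cond F.p A True := ⟨_, rfl⟩
  have hp : IsLaw p := by rw [hpe]; exact isLaw_cond F.isLaw hA
  have hpA : ∀ ω, 0 < p ω → A ω := fun ω hω => by
    rw [hpe] at hω
    exact cond_A hω
  have g1 := Pool.NA36.na_h1 (a' := τ) (na := nτ) hA hn ht
  have g2 := Pool.NA36.na_h2 hA ha
  have g4 := na_hy (τ := τ) (nτ := nτ) hA ht
  have gU := Pool.NA36.na_hU hA ht (by
    rw [← hpe, CH_eq_zero hp.nonneg fun ω ω' hω hω' h => ?_]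
    · exact mul_nonneg he (Nat.cast_nonneg J)
    · exact rec_mono hwt ht1 (Prod.ext_iff.1 h).1)
  have go := na_hox (nt := nt) hA hE
  rw [← hpe] at g1 g2 g4 gU go h3 ⊢
  have k1 := pair_far hp (rX F A c D w t τ n nt H) (X0 F A c D w t n H) (hgC F c w H 2 nt)
    (hgC F c w H 2 (n 2)) (fun ω => (f1C F c D w n H ω, fbC F c w H τ nτ ω))
    (fbC F c w H τ nτ) (yA F A c D w t n nt H) (rX_det p)
    (fun ω ω' _ _ h => (rX_eq h).2.2.2.2.2.1) (fun ω ω' _ _ h => (rX_eq h).2.2.2.2.2.2.1)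
    (fun ω ω' _ _ h => (Prod.ext_iff.1 h).2) g1 g2 h3 g4 j
  obtain ⟨r, hr⟩ : ∃ r, r = rX F A c D w t τ n nt H := ⟨_, rfl⟩
  have hrx : ∀ ω ω', r ω = r ω' → rX F A c D w t τ n nt H ω = rX F A c D w t τ n nt H ω' :=
    fun ω ω' h => by rw [hr] at h; exact h
  rw [← hr] at k1 ⊢
  have hql := cpn_law hp r 1
  have q0 := hql.nonneg
  have hpos : ∀ v, 0 < cpn p r 1 v → ∀ j, r (v j) = r (v 0) := fun v hv =>
    (cpn_pos hp.nonneg r 1 v hv).2
  -- the code of the path determines the height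
  have k2 : CH (cpn p r 1) (fun v => hgC F c w H 2 (n 2) (v j))
      (fun v => (pcC F c D w H 2 0 (n 2) (v j) 0, yA F A c D w t n nt H v)) ≤ e * J := by
    have k0 : CH (cpn p r 1) (fun v => hgC F c w H 2 (n 2) (v j))
        (fun v => (xn F A c D w n nt H (v j), F.T (v j))) ≤ e * J :=
      le_of_eq_of_le (CH_cpn hp r 1 j (hgC F c w H 2 (n 2))
        (fun ω => (xn F A c D w n nt H ω, F.T ω))) go
    refine le_trans (CH_mono_cond q0 fun v v' hv hv' h => ?_) k0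
    have h' := Prod.ext_iff.1 h
    have h1 := Prod.ext_iff.1 h'.2
    have h2 : x0 F A c D w n nt H (v j) = x0 F A c D w n nt H (v' j) := congrFun h1.2 j
    have h4 : F.T (v 0) = F.T (v' 0) := (Prod.ext_iff.1 h1.1).1
    refine Prod.ext (Pool.ND54.det_xn (p := fun _ => 1) (v j) (v' j) one_pos one_pos
      (Prod.ext h'.1 h2)) ?_
    show F.T (v j) = F.T (v' j)
    have e1 : F.T (v j) = F.T (v 0) := congrArg Prod.fst (rX_eq (hrx _ _ (hpos v hv j))).2.1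
    have e2 : F.T (v' j) = F.T (v' 0) :=
      congrArg Prod.fst (rX_eq (hrx _ _ (hpos v' hv' j))).2.1
    rw [e1, e2, h4]
  have k3 := CH_le_add q0 (fun v => hgC F c w H 2 (n 2) (v j))
    (fun v => pcC F c D w H 2 0 (n 2) (v j) 0) (yA F A c D w t n nt H)
  linarith

/-- **Separation** of the order-zero codes. -/
theorem na_sp (hA : 0 < Pe F.p A) {x' : ℝ} (hE : NaE F A c D w x' n e H)
    (ht : NaT F A c D w t t n nt nt s₀ β δ e H) (ha : NaT F A c D w t τ n nt nτ s₀ β δ e H)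
    (hwt : w ≤ t) (ht1 : t ≤ 1) (he : 0 ≤ e) (hn : nτ - (τ - w) ≤ n 2) (hnt : nt ≤ n 2) {e₃ : ℝ}
    (h3 : CH (cpn (Pool.Agent.H49.Ent.cond F.p A True) (rX F A c D w t τ n nt H) 1)
      (fun v => fbC F c w H τ nτ (v 1)) (fun v => fbC F c w H τ nτ (v 0)) ≤ e₃) {Ks : ℕ}
    {Λ : ℝ} (hΛ : 0 ≤ Λ) (hKs : Real.log (2 * Ks + 1) + Λ ≤ (n 2 - nt) * Real.log 2 * J)
    (j : Fin 2) :
    Pb (naQ F A c D w t τ n nt H) (fun v => ∃ i i', i ≠ i' ∧
      |pcC F c D w H 2 0 (n 2) (v i j) 0 - pcC F c D w H 2 0 (n 2) (v i' j) 0| ≤ (Ks : ℤ)) * Λ ≤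
      (2 * D + 2) ^ 2 * (8 * (e * J) + Real.log 5 + e₃ + Real.log 3 + Real.log 2) := by
  classical
  have hp : IsLaw (Pool.Agent.H49.Ent.cond F.p A True) := isLaw_cond F.isLaw hA
  have hql := cpn_law hp (rX F A c D w t τ n nt H) 1
  have hU := na_U0 hA hE ht ha hwt ht1 he hn h3 j
  obtain ⟨R, hR⟩ : ∃ R : ℝ, R = 2 ^ ((n 2 - nt) * J) := ⟨_, rfl⟩
  have hR1 : 1 ≤ R := by
    rw [hR]
    exact Real.one_le_rpow (by norm_num) (mul_nonneg (by linarith) (Nat.cast_nonneg J))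
  have hR0 : 0 < R := by linarith
  have hlR : Real.log R = (n 2 - nt) * Real.log 2 * J := by
    rw [hR, Real.log_rpow (by norm_num)]
    ring
  obtain ⟨N, hN⟩ : ∃ N : ℕ, N = ⌈R⌉₊ + 1 := ⟨_, rfl⟩
  have hN1 : R ≤ N := by
    rw [hN]
    push_cast
    have := Nat.le_ceil R
    linarith
  have hN2 : (N : ℝ) ≤ 3 * R := by
    rw [hN]
    push_cast
    have := (Nat.ceil_lt_add_one hR0.le).le
    linarith
  have hlN : Real.log N ≤ (n 2 - nt) * Real.log 2 * J + Real.log 3 := by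
    rw [← hlR, add_comm, ← Real.log_mul (by norm_num) hR0.ne']
    exact Real.log_le_log (by linarith) hN2
  have hlN' : (n 2 - nt) * Real.log 2 * J ≤ Real.log N := by
    rw [← hlR]
    exact Real.log_le_log hR0 hN1
  have hmain := Pool.ND54.sep_cpn hql (fun v => pcC F c D w H 2 0 (n 2) (v j) 0)
    (yA F A c D w t n nt H)
    (fun y => Finset.Icc ⌊R * (((y.2 j).2.2.2 0 : ℤ) : ℝ)⌋ ⌊R * ((((y.2 j).2.2.2 0 : ℤ) : ℝ) + 1)⌋)
    N Ks (2 * D + 1) (θ := 8 * (e * J) + Real.log 5 + e₃ + Real.log 3)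
    (by rw [hN]; omega)
    (fun v _ => by
      show pcC F c D w H 2 0 (n 2) (v j) 0 ∈ Finset.Icc
        ⌊R * ((pcC F c D w H 2 0 nt (v j) 0 : ℤ) : ℝ)⌋
        ⌊R * (((pcC F c D w H 2 0 nt (v j) 0 : ℤ) : ℝ) + 1)⌋
      unfold pcC Pool.AVG71.cod
      rw [if_pos (Nat.zero_le _), if_pos (Nat.zero_le _)]
      refine Pool.ND54.fine_mem hR0 ?_
      rw [hR, ← mul_assoc, ← Real.rpow_add (by norm_num)]
      congr 2
      ring)
    (fun y => by
      rw [hN]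
      exact Pool.ND54.fine_card _)
    (by linarith)
    (by linarith)
  have h0 : 0 ≤ Pb (naQ F A c D w t τ n nt H) (fun v => ∃ i i', i ≠ i' ∧
      |pcC F c D w H 2 0 (n 2) (v i j) 0 - pcC F c D w H 2 0 (n 2) (v i' j) 0| ≤
        (Ks : ℤ)) :=
    Pool.MIC.Pb_nonneg (cpn_law hql _ _).nonneg _
  refine (mul_le_mul_of_nonneg_left (show Λ ≤ Real.log N - Real.log (2 * Ks + 1) by linarith)
    h0).trans ?_
  have e1 : ((((2 * D + 1 : ℕ) : ℝ) + 1) ^ 2) = (2 * (D : ℝ) + 2) ^ 2 := by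
    push_cast
    ring
  rw [e1] at hmain
  refine le_trans hmain (le_of_eq (by ring))

end

end Pool.NA60
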