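import Pool.Agent.H60.NA.Prg
import Pool.Agent.H60.NA.Sup
import Pool.Agent.H73.SL.Drp
import Pool.Agent.H36.NA.Ded

/-!
# The loss of a pair of lines over one near point

`pair_loss`: the line `v 0` given its near data is as free as given the time and the near data of both
lines. `na_loss`: the same in the letters of the near-alive step.
-/

set_option autoImplicit false

namespace Pool.NA60

open Finset Real MvPolynomial
open Pool.Agent.H49.Ent Pool.Agent.H32.Dense Pool.STK Pool.KA Pool.KSAT Pool.K2S Pool.PB Pool.S6C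
open Pool.GEN hiding Det
open Pool.CHT Pool.D2R Pool.LA91 Pool.RCD
open Pool.PB.Trl (rt rt_mem t_rt)
open Pool.V0F (cR)
open Pool.NDC42
open Pool.BFL (Pb)
open Pool.STB (Pb_mono Pb_or)
open Pool.CLU (cpn_law cpn_pos cpn_marg)
open Pool.H52.TIE (CH_cpn CH_cpn_zero)
open Pool.NA36 (vpC f1C f2C fbC X0 rX NaT NaE)
open Pool.ND54 (cond_A det_x0 det_xg elN hh hLc cpn_tail)

section

variable {Ω R X T Λ T' Z U S : Type} [Fintype Ω]

/-- **The loss of a pair of lines.** -/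
theorem pair_loss {p : Ω → ℝ} (hp : IsLaw p) (r : Ω → R) (l : Ω → Λ) (x : Ω → X) (t : Ω → S)
    (f : Ω → T) (fb : Ω → T') (z : Ω → Z) (u : Ω → U) {ct et e₂ e₃ e₅ e₆ e₇ : ℝ}
    (hlx : Det p l x) (hrz : Det p r z) (hru : Det p r u) (hrt : Det p r t) (hxz : Det p x z)
    (hxf : Det p x f) (htx : CH p t x ≤ ct) (ht : ct - et ≤ CH p t l)
    (h2 : CH p f (fun ω => (fb ω, z ω)) ≤ CH p f r + e₂)
    (h3 : CH (cpn p r 1) (fun v => fb (v 1)) (fun v => fb (v 0)) ≤ e₃)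
    (h5 : CH p fb x ≤ e₅) (h6 : CH p u (fun ω => (t ω, x ω)) ≤ e₆)
    (h7 : CH p x (fun ω => ((u ω, f ω), (t ω, z ω))) ≤ e₇) :
    CH (cpn p r 1) (fun v => l (v 0)) (fun v => x (v 0)) -
      CH (cpn p r 1) (fun v => l (v 0)) (fun v => (t (v 0), (x (v 0), x (v 1)))) ≤
      et + (e₂ + e₃ + e₅ + e₆ + e₇) := by
  have p0 := hp.nonneg
  obtain ⟨q, hq⟩ : ∃ q, q = cpn p r 1 := ⟨_, rfl⟩
  have hql : IsLaw q := by rw [hq]; exact cpn_law hp r 1
  have q0 := hql.nonneg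
  have hpos : ∀ v, 0 < q v → (∀ i, 0 < p (v i)) ∧ ∀ i, r (v i) = r (v 0) := fun v hv => by
    rw [hq] at hv
    exact ⟨fun i => (cpn_pos p0 r 1 v hv).1 i, fun i => (cpn_pos p0 r 1 v hv).2 i⟩
  have m0 : ∀ {A B : Type} (a : Ω → A) (b : Ω → B), CH q (fun v => a (v 0)) (fun v => b (v 0)) =
      CH p a b := fun a b => by rw [hq]; exact CH_cpn hp r 1 0 a b
  have m1 : ∀ {A B : Type} (a : Ω → A) (b : Ω → B), CH q (fun v => a (v 1)) (fun v => b (v 1)) =
      CH p a b := fun a b => by rw [hq]; exact CH_cpn hp r 1 1 a b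
  have hk : CH p x r ≤ CH q (fun v => x (v 1)) (fun v => v 0) := by
    have k1 := cpn_tail hp r x 1
    rw [← hq, Nat.cast_one, one_mul] at k1
    refine k1.trans ?_
    exact CH_mono_left q0 fun w w' _ _ h => by
      refine _root_.funext fun j => ?_
      have hj : j = 0 := Subsingleton.elim _ _
      rw [hj]
      exact (Prod.ext_iff.1 h).1
  rw [← hq] at h3 ⊢
  obtain ⟨y, hy⟩ : ∃ y, y = fun v : Fin (1 + 1) → Ω => (t (v 0), (x (v 0), x (v 1))) := ⟨_, rfl⟩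
  rw [← hy]
  -- the loss is an information
  have k2 := CH_chain q0 (fun v => l (v 0)) y (fun v => x (v 0))
  have k3 := CH_chain q0 y (fun v => l (v 0)) (fun v => x (v 0))
  have k4 : CH q (fun v => (l (v 0), y v)) (fun v => x (v 0)) =
      CH q (fun v => (y v, l (v 0))) (fun v => x (v 0)) := Pool.MIC.CH_swl q0 _ _ _
  have k5 : CH q (fun v => l (v 0)) (fun v => (y v, x (v 0))) ≤ CH q (fun v => l (v 0)) y :=
    CH_mono_cond q0 fun v v' _ _ h => (Prod.ext_iff.1 h).1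
  -- upper bound
  have a1 : CH q y (fun v => x (v 0)) ≤ CH q (fun v => (x (v 1), t (v 0))) (fun v => x (v 0)) := by
    refine CH_mono_left q0 fun v v' _ _ h => ?_
    have h' := Prod.ext_iff.1 h
    have h'' := Prod.ext_iff.1 h'.1
    rw [hy]
    exact Prod.ext h''.2 (Prod.ext h'.2 h''.1)
  have a2 := CH_chain q0 (fun v => x (v 1)) (fun v => t (v 0)) (fun v => x (v 0))
  have a3 : CH q (fun v => t (v 0)) (fun v => x (v 0)) = CH p t x := m0 t x
  have a4 := CH_le_add q0 (fun v => x (v 1)) (fun v => f (v 1)) (fun v => (t (v 0), x (v 0)))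
  have a5 := CH_le_add q0 (fun v => f (v 1)) (fun v => fb (v 1)) (fun v => (t (v 0), x (v 0)))
  have a6 : CH q (fun v => fb (v 1)) (fun v => (t (v 0), x (v 0))) ≤ e₃ + e₅ := by
    have b1 := CH_le_add q0 (fun v => fb (v 1)) (fun v => fb (v 0)) (fun v => (t (v 0), x (v 0)))
    have b2 : CH q (fun v => fb (v 1)) (fun v => (fb (v 0), (t (v 0), x (v 0)))) ≤
        CH q (fun v => fb (v 1)) (fun v => fb (v 0)) :=
      CH_mono_cond q0 fun _ _ _ _ h => (Prod.ext_iff.1 h).1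
    have b3 : CH q (fun v => fb (v 0)) (fun v => (t (v 0), x (v 0))) ≤
        CH q (fun v => fb (v 0)) (fun v => x (v 0)) :=
      CH_mono_cond q0 fun _ _ _ _ h => (Prod.ext_iff.1 h).2
    have b4 : CH q (fun v => fb (v 0)) (fun v => x (v 0)) = CH p fb x := m0 fb x
    linarith
  have a7 : CH q (fun v => f (v 1)) (fun v => (fb (v 1), (t (v 0), x (v 0)))) ≤
      CH p f r + e₂ := by
    refine le_trans ?_ h2
    rw [← m1 f (fun ω => (fb ω, z ω))]
    refine CH_mono_cond q0 fun v v' hv hv' h => ?_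
    have h' := Prod.ext_iff.1 h
    have h'' := Prod.ext_iff.1 h'.2
    refine Prod.ext h'.1 ?_
    show z (v 1) = z (v' 1)
    rw [hrz _ _ ((hpos v hv).1 1) ((hpos v hv).1 0) ((hpos v hv).2 1),
      hrz _ _ ((hpos v' hv').1 1) ((hpos v' hv').1 0) ((hpos v' hv').2 1)]
    exact hxz _ _ ((hpos v hv).1 0) ((hpos v' hv').1 0) h''.2
  have a8 : CH q (fun v => x (v 1)) (fun v => (f (v 1), (t (v 0), x (v 0)))) ≤ e₆ + e₇ := by
    have b1 := CH_le_add q0 (fun v => x (v 1)) (fun v => u (v 0))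
      (fun v => (f (v 1), (t (v 0), x (v 0))))
    have b2 : CH q (fun v => u (v 0)) (fun v => (f (v 1), (t (v 0), x (v 0)))) ≤
        CH q (fun v => u (v 0)) (fun v => (t (v 0), x (v 0))) :=
      CH_mono_cond q0 fun _ _ _ _ h => (Prod.ext_iff.1 h).2
    have b3 : CH q (fun v => u (v 0)) (fun v => (t (v 0), x (v 0))) =
        CH p u (fun ω => (t ω, x ω)) := m0 u (fun ω => (t ω, x ω))
    have b4 : CH q (fun v => x (v 1)) (fun v => (u (v 0), (f (v 1), (t (v 0), x (v 0))))) ≤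
        CH p x (fun ω => ((u ω, f ω), (t ω, z ω))) := by
      rw [← m1 x (fun ω => ((u ω, f ω), (t ω, z ω)))]
      refine CH_mono_cond q0 fun v v' hv hv' h => ?_
      have h' := Prod.ext_iff.1 h
      have h'' := Prod.ext_iff.1 h'.2
      have h3 := Prod.ext_iff.1 h''.2
      have g1 := (hpos v hv).1
      have g2 := (hpos v' hv').1
      refine Prod.ext (Prod.ext ?_ h''.1) (Prod.ext ?_ ?_)
      · show u (v 1) = u (v' 1)
        rw [hru _ _ (g1 1) (g1 0) ((hpos v hv).2 1), hru _ _ (g2 1) (g2 0) ((hpos v' hv').2 1)]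
        exact h'.1
      · show t (v 1) = t (v' 1)
        rw [hrt _ _ (g1 1) (g1 0) ((hpos v hv).2 1), hrt _ _ (g2 1) (g2 0) ((hpos v' hv').2 1)]
        exact h3.1
      · show z (v 1) = z (v' 1)
        rw [hrz _ _ (g1 1) (g1 0) ((hpos v hv).2 1), hrz _ _ (g2 1) (g2 0) ((hpos v' hv').2 1)]
        exact hxz _ _ (g1 0) (g2 0) h3.2
    linarith
  -- lower bound
  have c1 : CH q (fun v => (x (v 1), t (v 0))) (fun v => (l (v 0), x (v 0))) ≤
      CH q y (fun v => (l (v 0), x (v 0))) := by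
    refine CH_mono_left q0 fun v v' _ _ h => ?_
    have h' := Prod.ext_iff.1 h
    rw [hy] at h'
    have h'' := Prod.ext_iff.1 h'.1
    have h3 := Prod.ext_iff.1 h''.2
    exact Prod.ext h3.2 h''.1
  have c2 := CH_chain q0 (fun v => x (v 1)) (fun v => t (v 0)) (fun v => (l (v 0), x (v 0)))
  have c3 : CH p t l ≤ CH q (fun v => t (v 0)) (fun v => (l (v 0), x (v 0))) := by
    rw [← m0 t l]
    refine CH_mono_cond q0 fun v v' hv hv' h => ?_
    exact Prod.ext h (hlx _ _ ((hpos v hv).1 0) ((hpos v' hv').1 0) h)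
  have c4 : CH q (fun v => x (v 1)) (fun v => v 0) ≤
      CH q (fun v => x (v 1)) (fun v => (t (v 0), (l (v 0), x (v 0)))) := by
    refine CH_mono_cond q0 fun v v' _ _ h => ?_
    have h' : v 0 = v' 0 := h
    rw [h']
  have c5 : CH p f r ≤ CH p x r := CH_mono_left p0 fun ω ω' hω hω' h => by
    have h' := Prod.ext_iff.1 h
    exact hxf _ _ hω hω' h'.1
  linarith

end

section

variable {m J : ℕ} {F : Fam m J} {A : F.Ω → Prop} {c : ℕ → Fin m} {D : ℕ} {w t τ : ℝ} {n : ℕ → ℝ}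
  {nt nτ s₀ β δ e : ℝ} {H : LnT F → ℕ → MvPolynomial (Option (Fin m)) ℝ}

/-- The record of a window determines its time. -/
theorem T1_cR {ω ω' : F.Ω} (h : cR F A w ω = cR F A w ω') :
    F.T1 ⌊w * J⌋₊ ω = F.T1 ⌊w * J⌋₊ ω' := by
  have hc : Cl2 (ptr F J) (vg w J F) A (F.T1 ⌊w * J⌋₊) :=
    ⟨⟨fun x => x.2.1 / 2 ^ (J - ⌊w * J⌋₊), fun ω _ => rfl⟩, ⟨fun x => x.2.2, fun ω _ => rfl⟩⟩
  exact rec_det hc h

/-- The time from the time in the window. -/
theorem T_ttw {ω ω' : F.Ω} (h : cR F A w ω = cR F A w ω')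
    (h' : Pool.ND54.ttw F ⌊w * J⌋₊ ω = Pool.ND54.ttw F ⌊w * J⌋₊ ω') : F.T ω = F.T ω' := by
  have h9 := T1_cR h
  have h10 : F.T ω % 2 ^ (J - ⌊w * J⌋₊) = F.T ω' % 2 ^ (J - ⌊w * J⌋₊) := by
    unfold Pool.ND54.ttw at h'
    have h11 : ((F.T ω % 2 ^ (J - ⌊w * J⌋₊) : ℕ) : ℤ) =
        ((F.T ω' % 2 ^ (J - ⌊w * J⌋₊) : ℕ) : ℤ) := by
      linarith
    exact_mod_cast h11
  unfold Fam.T1 at h9
  rw [← Nat.div_add_mod (F.T ω) (2 ^ (J - ⌊w * J⌋₊)), h9, h10, Nat.div_add_mod]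

/-- The orders `≥ 2` from the orders `≥ 1`. -/
theorem f2_f1 {ω ω' : F.Ω} (h : f1C F c D w n H ω = f1C F c D w n H ω') :
    f2C F c D w n H ω = f2C F c D w n H ω' := by
  refine _root_.funext fun a => ?_
  have h1 := congrFun h a
  unfold f1C pcC Pool.AVG71.cod at h1
  unfold f2C pcC Pool.AVG71.cod
  by_cases ha : 2 ≤ (a : ℕ)
  · rw [if_pos ha, if_pos ha]
    rwa [if_pos (by omega), if_pos (by omega)] at h1
  · rw [if_neg ha, if_neg ha]

/-- The near data of a line, from its height, its near path and the time. -/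
theorem xg_few (hA : 0 < Pe F.p A) {x' : ℝ} (hE : NaE F A c D w x' n e H) (hw0 : 0 ≤ w)
    (hw1 : w ≤ 1) (hdeg : ∀ l ≤ 3, ∀ x, (H x l).totalDegree ≤ D) (hnt : nt ≤ n 2) :
    CH (Pool.Agent.H49.Ent.cond F.p A True) (xg F A c D w n nt H) (fun ω =>
      ((hgC F c w H 2 (n 2) ω, f1C F c D w n H ω), (F.T ω, ((cR F A w ω, F.Z ω),
        (vpC F c D w n H ω, f2C F c D w n H ω))))) ≤
      Real.log 3 + 2 * ((∑ j ∈ range (D + 2), cJ D j) + cD D) + e * J := by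
  have hp : IsLaw (Pool.Agent.H49.Ent.cond F.p A True) := isLaw_cond F.isLaw hA
  have p0 := hp.nonneg
  have hgg := hE.gg nt hnt
  obtain ⟨Y, hY⟩ : ∃ Y, Y = fun ω => ((hgC F c w H 2 (n 2) ω, f1C F c D w n H ω), (F.T ω,
    ((cR F A w ω, F.Z ω), (vpC F c D w n H ω, f2C F c D w n H ω)))) := ⟨_, rfl⟩
  rw [← hY]
  have hYe : ∀ ω ω', Y ω = Y ω' → hgC F c w H 2 (n 2) ω = hgC F c w H 2 (n 2) ω' ∧
      f1C F c D w n H ω = f1C F c D w n H ω' ∧ F.T ω = F.T ω' ∧ cR F A w ω = cR F A w ω' ∧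
      F.Z ω = F.Z ω' ∧ vpC F c D w n H ω = vpC F c D w n H ω' := fun ω ω' h => by
    rw [hY] at h
    simp only [Prod.mk.injEq] at h
    exact ⟨h.1.1, h.1.2, h.2.1, h.2.2.1.1, h.2.2.1.2, h.2.2.2.1⟩
  have a1 := CH_le_add p0 (xg F A c D w n nt H) (xn F A c D w n nt H) Y
  have a2 : CH (Pool.Agent.H49.Ent.cond F.p A True) (xg F A c D w n nt H)
      (fun ω => (xn F A c D w n nt H ω, Y ω)) ≤ e * J :=
    (CH_mono_cond p0 fun _ _ _ _ h => (Prod.ext_iff.1 h).1).trans hgg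
  have a3 : CH (Pool.Agent.H49.Ent.cond F.p A True) (xn F A c D w n nt H) Y ≤
      CH (Pool.Agent.H49.Ent.cond F.p A True)
        (fun ω => (pcC F c D w H 2 0 nt ω, pcC F c D w H 2 0 (n 2) ω)) Y :=
    CH_mono_left p0 fun ω ω' _ _ h => by
      have h' := Prod.ext_iff.1 h
      have h'' := Prod.ext_iff.1 h'.1
      have k := hYe _ _ h'.2
      show xn F A c D w n nt H ω = xn F A c D w n nt H ω'
      unfold xn x0
      have k1 : (fun l : Fin 2 => pcC F c D w H l 0 (n l) ω) =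
        fun l : Fin 2 => pcC F c D w H l 0 (n l) ω' := k.2.2.2.2.2
      have k2 : pcC F c D w H 2 1 (n 2) ω = pcC F c D w H 2 1 (n 2) ω' := k.2.1
      have k3 : pcC F c D w H 2 0 nt ω = pcC F c D w H 2 0 nt ω' := h''.1
      have k4 : pcC F c D w H 2 0 (n 2) ω = pcC F c D w H 2 0 (n 2) ω' := h''.2
      rw [k.2.2.2.1, k.2.2.2.2.1, k1, k2, k3, k4]
  have a4 := CH_chain p0 (pcC F c D w H 2 0 nt) (pcC F c D w H 2 0 (n 2)) Y
  have a5 : CH (Pool.Agent.H49.Ent.cond F.p A True) (pcC F c D w H 2 0 (n 2)) Y ≤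
      (∑ j ∈ range (D + 2), cJ D j) + cD D :=
    Pool.NA36.na_pu hw0 hw1 hdeg hA le_rfl Y fun ω ω' _ _ h =>
      ⟨(hYe _ _ h).2.2.1, (hYe _ _ h).1, (hYe _ _ h).2.1⟩
  have a6 : CH (Pool.Agent.H49.Ent.cond F.p A True) (pcC F c D w H 2 0 nt)
      (fun ω => (pcC F c D w H 2 0 (n 2) ω, Y ω)) ≤
      Real.log 3 + ((∑ j ∈ range (D + 2), cJ D j) + cD D) := by
    have b1 : CH (Pool.Agent.H49.Ent.cond F.p A True) (pcC F c D w H 2 0 nt)
        (fun ω => (pcC F c D w H 2 0 (n 2) ω, Y ω)) ≤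
        CH (Pool.Agent.H49.Ent.cond F.p A True) (pcC F c D w H 2 0 nt) Y :=
      CH_mono_cond p0 fun _ _ _ _ h => (Prod.ext_iff.1 h).2
    have b2 := CH_le_add p0 (pcC F c D w H 2 0 nt) (hgC F c w H 2 nt) Y
    have b3 := Pool.SL73.hg_few hp (c := c) (w := w) (H := H) hnt 2 Y
      (fun ω ω' _ _ h => (hYe _ _ h).1)
    have b4 : CH (Pool.Agent.H49.Ent.cond F.p A True) (pcC F c D w H 2 0 nt)
        (fun ω => (hgC F c w H 2 nt ω, Y ω)) ≤ (∑ j ∈ range (D + 2), cJ D j) + cD D :=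
      Pool.NA36.na_pu hw0 hw1 hdeg hA hnt _ fun ω ω' _ _ h => by
        have h' := Prod.ext_iff.1 h
        exact ⟨(hYe _ _ h'.2).2.2.1, h'.1, (hYe _ _ h'.2).2.1⟩
    linarith
  linarith

/-- **The loss of a line of a pair**: given the time and the near data of both lines, the line is as
free as given its near data. -/
theorem na_loss (hA : 0 < Pe F.p A) {x' : ℝ} (hE : NaE F A c D w x' n e H)
    (ha : NaT F A c D w t τ n nt nτ s₀ β δ e H) (hw0 : 0 ≤ w) (hw1 : w ≤ 1)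
    (hW : ⌊w * J⌋₊ < J) (hdeg : ∀ l ≤ 3, ∀ x, (H x l).totalDegree ≤ D) (hnt : nt ≤ n 2)
    (hn : nτ - (τ - w) ≤ n 2) {e₃ : ℝ}
    (h3 : CH (cpn (Pool.Agent.H49.Ent.cond F.p A True) (rX F A c D w t τ n nt H) 1)
      (fun v => fbC F c w H τ nτ (v 1)) (fun v => fbC F c w H τ nτ (v 0)) ≤ e₃) :
    CH (cpn (Pool.Agent.H49.Ent.cond F.p A True) (rX F A c D w t τ n nt H) 1)
        (fun v => slam F ⌊w * J⌋₊ (v 0)) (fun v => xg F A c D w n nt H (v 0)) -
      CH (cpn (Pool.Agent.H49.Ent.cond F.p A True) (rX F A c D w t τ n nt H) 1)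
        (fun v => slam F ⌊w * J⌋₊ (v 0)) (fun v => (F.T (v 0), (xg F A c D w n nt H (v 0),
          xg F A c D w n nt H (v 1)))) ≤
      4 * (e * J) + (e₃ + 2 * Real.log 2 + Real.log 3 + Real.log 5 +
        2 * ((∑ j ∈ range (D + 2), cJ D j) + cD D)) := by
  obtain ⟨p, hpe⟩ : ∃ p, p = Pool.Agent.H49.Ent.cond F.p A True := ⟨_, rfl⟩
  have hp : IsLaw p := by rw [hpe]; exact isLaw_cond F.isLaw hA
  have p0 := hp.nonneg
  have hpA : ∀ ω, 0 < p ω → A ω := fun ω hω => by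
    rw [hpe] at hω
    exact cond_A hω
  have g1 := xg_few (nt := nt) hA hE hw0 hw1 hdeg hnt
  have g2 := ha.f2
  have g3 := Pool.ND54.ttw_full F hA hW hE.tm
  have g4 := na_hox (nt := nt) hA hE
  rw [← hpe] at g1 g2 g3 g4 h3 ⊢
  have k1 : CH p F.T (xg F A c D w n nt H) ≤
      Real.log (2 * ((2 ^ (J - ⌊w * J⌋₊ - 1) : ℕ) : ℝ) + 1) := by
    have b1 : CH p F.T (xg F A c D w n nt H) ≤
        CH p (Pool.ND54.ttw F ⌊w * J⌋₊) (xg F A c D w n nt H) :=
      CH_mono_left p0 fun ω ω' _ _ h => by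
        have h' := Prod.ext_iff.1 h
        exact T_ttw (congrArg (fun z => z.1.1.1.1) h'.2) h'.1
    refine b1.trans ?_
    have b2 := CH_le_card p0 hp.sum_one (Pool.ND54.ttw F ⌊w * J⌋₊) (xg F A c D w n nt H)
      (fun _ => Finset.Icc (-((2 ^ (J - ⌊w * J⌋₊ - 1) : ℕ) : ℤ)) ((2 ^ (J - ⌊w * J⌋₊ - 1) : ℕ) : ℤ))
      (fun ω _ => by
        have h := Pool.ND54.ttw_le F hW ω
        rw [abs_le] at h
        exact Finset.mem_Icc.2 h)
    refine b2.trans (le_of_eq ?_)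
    rw [Ex_const hp.sum_one, Int.card_Icc]
    congr 1
    have b3 : (((2 ^ (J - ⌊w * J⌋₊ - 1) : ℕ) : ℤ) + 1 - -((2 ^ (J - ⌊w * J⌋₊ - 1) : ℕ) : ℤ)).toNat =
        2 * 2 ^ (J - ⌊w * J⌋₊ - 1) + 1 := by
      generalize 2 ^ (J - ⌊w * J⌋₊ - 1) = N
      omega
    rw [b3]
    push_cast
    ring
  have k2 : CH p (Pool.ND54.ttw F ⌊w * J⌋₊) (slam F ⌊w * J⌋₊) ≤ CH p F.T (slam F ⌊w * J⌋₊) :=
    CH_mono_left p0 fun ω ω' _ _ h => by
      have h' : F.T ω = F.T ω' := (Prod.ext_iff.1 h).1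
      show Pool.ND54.ttw F ⌊w * J⌋₊ ω = Pool.ND54.ttw F ⌊w * J⌋₊ ω'
      unfold Pool.ND54.ttw
      rw [h']
  have hrx : ∀ ω ω', rX F A c D w t τ n nt H ω = rX F A c D w t τ n nt H ω' → _ :=
    fun ω ω' h => rX_eq h
  have main := pair_loss hp (rX F A c D w t τ n nt H) (slam F ⌊w * J⌋₊) (xg F A c D w n nt H) F.T
    (f1C F c D w n H) (fbC F c w H τ nτ)
    (fun ω => ((cR F A w ω, F.Z ω), (vpC F c D w n H ω, f2C F c D w n H ω)))
    (hgC F c w H 2 (n 2)) (ct := Real.log (2 * ((2 ^ (J - ⌊w * J⌋₊ - 1) : ℕ) : ℝ) + 1))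
    (et := e * J + 2 * Real.log 2) (e₂ := e * J) (e₃ := e₃) (e₅ := Real.log 5) (e₆ := e * J)
    (e₇ := Real.log 3 + 2 * ((∑ j ∈ range (D + 2), cJ D j) + cD D) + e * J)
    (det_xg hpA)
    (fun ω ω' _ _ h => by
      have k := rX_eq h
      have hZ : F.Z ω = F.Z ω' := congrArg Prod.snd k.2.1
      refine Prod.ext (Prod.ext k.1 hZ) (Prod.ext k.2.2.1 k.2.2.2.1))
    (fun ω ω' _ _ h => (rX_eq h).2.2.2.2.2.2.1)
    (fun ω ω' _ _ h => congrArg Prod.fst (rX_eq h).2.1)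
    (fun ω ω' _ _ h => by
      have k1 : cR F A w ω = cR F A w ω' := congrArg (fun z => z.1.1.1.1) h
      have k2 : F.Z ω = F.Z ω' := congrArg (fun z => z.1.1.1.2) h
      have k3 : vpC F c D w n H ω = vpC F c D w n H ω' := congrArg (fun z => z.1.1.2.1) h
      have k4 : f1C F c D w n H ω = f1C F c D w n H ω' := congrArg (fun z => z.1.1.2.2.1) h
      exact Prod.ext (Prod.ext k1 k2) (Prod.ext k3 (f2_f1 k4)))
    (fun ω ω' _ _ h => congrArg (fun z => z.1.1.2.2.1) h)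
    k1 (by linarith)
    ((CH_mono_cond p0 fun ω ω' _ _ h => by
      have h' := Prod.ext_iff.1 h
      have h1 := Prod.ext_iff.1 h'.2
      have h2 := Prod.ext_iff.1 h1.2
      exact Prod.ext h1.1 (Prod.ext h2.1 (Prod.ext h2.2 h'.1))).trans g2)
    h3 (Pool.NA36.fb_few hn hp _ fun ω ω' _ _ h => congrArg (fun z => z.1.1.2.2.1) h)
    ((CH_mono_cond p0 fun ω ω' _ _ h => by
      have h' := Prod.ext_iff.1 h
      exact Prod.ext (congrArg (fun z => z.1) h'.2) h'.1).trans g4)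
    g1
  linarith

end

end Pool.NA60
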