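import Pool.Agent.H60.NA.Prl
import Pool.Agent.H60.NA.Evn

/-!
# The codes of the slope path, near-alive step

`pr_rel`: the slopes at the own time of two lines with the same near data, whose lines over one near
point have the same near data too, are near. `na_pr`: the codes of the slope path of a line are few
given its near data.
-/

set_option autoImplicit false

namespace Pool.NA60

open Finset Real MvPolynomial
open Pool.Agent.H49.Ent Pool.Agent.H32.Dense Pool.STK Pool.KA Pool.KSAT Pool.K2S Pool.PB Pool.S6C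
open Pool.GEN hiding Det
open Pool.CHT Pool.D2R Pool.LA91 Pool.RCD
open Pool.PB.Trl (rt rt_mem t_rt)
open Pool.V0F (cR)
open Pool.NDC42
open Pool.BFL (Pb)
open Pool.STB (Pb_mono Pb_or)
open Pool.CLU (cpn_law cpn_pos cpn_marg)
open Pool.H52.TIE (CH_cpn)
open Pool.NA36 (vpC f1C f2C fbC X0 rX NaT NaE)
open Pool.ND54 (cond_A det_x0 det_xg elN hh hLc grP grP_deg OwnE LinE ti ai ti_inj ai_inj pc_near
  pc_near1 opl_deg ttw ttw_le ttw_full tu_ttw tu gA_grP)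
open Pool.NDD66 (op op_at op_deg op_der ov mu Lam Lam_le ov_near gA gA0)

variable {m J : ℕ}

/-- **The relation of two copies of a pair of lines.** -/
theorem pr_rel (D D₂ : ℕ) : ∃ Cd : ℕ, 1 ≤ Cd ∧ ∀ {m J : ℕ} {F : Fam m J} {A : F.Ω → Prop}
    {c : ℕ → Fin m} {w t τ : ℝ} {n : ℕ → ℝ} {nt : ℝ}
    {H Hr : LnT F → ℕ → MvPolynomial (Option (Fin m)) ℝ}, ⌊w * J⌋₊ < J →
    (∀ s l, (H s l).totalDegree ≤ D) →
    (∀ ω ω', A ω → A ω' → cR F A w ω = cR F A w ω' →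
      H (slam F ⌊w * J⌋₊ ω) = H (slam F ⌊w * J⌋₊ ω')) →
    ∀ {δv : ℕ → ℝ} {El : ℝ}, LinE F A c D₂ ⌊w * J⌋₊ H Hr
      (fun a b => rX F A c D w t τ n nt H a = rX F A c D w t τ n nt H b) δv El →
    (∀ l ≤ 2, 2 ^ Cd * 2 ^ ⌊w * J⌋₊ * (((D : ℝ) + 2) / 2 ^ (n l * J)) ≤ δv l) →
    ∀ {Bg : ℕ → ℝ}, (∀ ω, A ω → ∀ l < 2, ∀ τ ∈ Set.Icc (0 : ℝ) 1,
      |(grP F c D₂ ⌊w * J⌋₊ H Hr (slam F ⌊w * J⌋₊ ω) l).eval τ| ≤ Bg l) →
    ∀ {ε₃ ε B : ℝ}, 0 < B →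
    2 ^ Cd * 2 ^ ⌊w * J⌋₊ * (((D : ℝ) + 1) / 2 ^ (n 3 * J)) ≤ ε₃ →
    2 * ε₃ + 4 * El + 2 * ∑ l ∈ range 2, Bg l * δv l ≤ ε * B →
    ∀ v : Fin 2 → Fin 2 → F.Ω, (∀ i j, A (v i j)) →
    (∀ i j, rX F A c D w t τ n nt H (v i j) = rX F A c D w t τ n nt H (v i 0)) →
    (∀ i j, F.T (v i j) = F.T (v 0 0)) →
    (∀ i j, xg F A c D w n nt H (v i j) = xg F A c D w n nt H (v 0 j)) →
    B ≤ |ov F c (H (slam F ⌊w * J⌋₊ (v 0 1))) (v 0 1) 2 -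
      ov F c (H (slam F ⌊w * J⌋₊ (v 0 0))) (v 0 0) 2| →
    |(grP F c D₂ ⌊w * J⌋₊ H Hr (slam F ⌊w * J⌋₊ (v 1 0)) 2 -
      grP F c D₂ ⌊w * J⌋₊ H Hr (slam F ⌊w * J⌋₊ (v 0 0)) 2).eval (rt F ⌊w * J⌋₊ (v 0 0))| ≤ ε := by
  classical
  obtain ⟨C₂, hC₂, hov⟩ := ov_near D
  refine ⟨C₂, hC₂, ?_⟩
  intro m J F A c w t τ n nt H Hr hW hdH hHc δv El hLn hδv Bg hBg ε₃ ε B hB hε₃ hε v h1 h2 hT h5
    hal
  have hcw : ∀ i j, cR F A w (v i j) = cR F A w (v 0 0) := fun i j => by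
    have e1 : cR F A w (v i j) = cR F A w (v i 0) := (rX_eq (h2 i j)).1
    have e2 : cR F A w (v i 0) = cR F A w (v 0 0) := congrArg (fun z => z.1.1.1.1) (h5 i 0)
    rw [e1, e2]
  have hrt : ∀ i j, rt F ⌊w * J⌋₊ (v i j) = rt F ⌊w * J⌋₊ (v 0 0) := fun i j =>
    Pool.NDD66.rt_congr (hT i j)
  obtain ⟨ψ, hψe⟩ : ∃ ψ, ψ = H (slam F ⌊w * J⌋₊ (v 0 0)) := ⟨_, rfl⟩
  have hψ : ∀ i j, H (slam F ⌊w * J⌋₊ (v i j)) = ψ := fun i j => by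
    rw [hψe]
    exact hHc _ _ (h1 i j) (h1 0 0) (hcw i j)
  rw [hψ 0 1, hψ 0 0] at hal
  have hψd : ∀ l, (ψ l).totalDegree ≤ D := fun l => by rw [hψe]; exact hdH _ l
  have hp2 : ∀ s : ℝ, (0 : ℝ) < 2 ^ (s * (J : ℝ)) := fun s => Real.rpow_pos_of_pos (by norm_num) _
  -- near own velocities
  have hnear : ∀ i j, ∀ l ≤ 2, |ov F c ψ (v i j) l - ov F c ψ (v 0 j) l| ≤ δv l := by
    intro i j l hl
    refine le_trans ?_ (hδv l hl)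
    rcases Nat.lt_or_ge l 2 with hl2 | hl2
    · have h7 : pcC F c D w H l 0 (n l) (v i j) = pcC F c D w H l 0 (n l) (v 0 j) :=
        congrFun (congrArg (fun z => z.1.1.2.1) (h5 i j)) ⟨l, hl2⟩
      refine hov (κ := 0) hW.le hψd ((hrt i j).trans (hrt 0 j).symm) fun τ hτ => ?_
      have h8 := pc_near hdH h7 hτ
      unfold Pool.ND54.opl at h8
      rw [hψ, hψ] at h8
      rw [sub_zero]
      exact h8
    · obtain rfl : l = 2 := by omega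
      have h7 : pcC F c D w H 2 1 (n 2) (v i j) = pcC F c D w H 2 1 (n 2) (v 0 j) :=
        congrArg (fun z => z.1.1.2.2.1) (h5 i j)
      refine hov (κ := (Pool.ND54.opl F c ⌊w * J⌋₊ H 2 (v i j)).coeff 0 -
        (Pool.ND54.opl F c ⌊w * J⌋₊ H 2 (v 0 j)).coeff 0) hW.le hψd
        ((hrt i j).trans (hrt 0 j).symm) fun τ hτ => ?_
      have h8 := pc_near1 hdH h7 hτ
      have e2 : ∀ i', Pool.ND54.opl F c ⌊w * J⌋₊ H 2 (v i' j) =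
          op ⌊w * J⌋₊ c ψ (slam F ⌊w * J⌋₊ (v i' j)) 2 := fun i' => by
        unfold Pool.ND54.opl
        rw [hψ]
      have e1 : (op ⌊w * J⌋₊ c ψ (slam F ⌊w * J⌋₊ (v i j)) 2).eval τ -
          (op ⌊w * J⌋₊ c ψ (slam F ⌊w * J⌋₊ (v 0 j)) 2).eval τ -
          ((Pool.ND54.opl F c ⌊w * J⌋₊ H 2 (v i j)).coeff 0 -
            (Pool.ND54.opl F c ⌊w * J⌋₊ H 2 (v 0 j)).coeff 0) =
          ((Pool.ND54.opl F c ⌊w * J⌋₊ H 2 (v i j)).eval τ -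
            (Pool.ND54.opl F c ⌊w * J⌋₊ H 2 (v i j)).coeff 0) -
          ((Pool.ND54.opl F c ⌊w * J⌋₊ H 2 (v 0 j)).eval τ -
            (Pool.ND54.opl F c ⌊w * J⌋₊ H 2 (v 0 j)).coeff 0) := by
        rw [e2, e2]
        ring
      rw [e1]
      exact h8.trans (div_le_div_of_nonneg_right (by linarith) (hp2 _).le)
  have hnear3 : ∀ i j, |ov F c ψ (v i j) 3 - ov F c ψ (v 0 j) 3| ≤ ε₃ := by
    intro i j
    refine le_trans ?_ hε₃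
    have h7 : pcC F c D w H 3 1 (n 3) (v i j) = pcC F c D w H 3 1 (n 3) (v 0 j) :=
      congrArg (fun z => z.2) (h5 i j)
    refine hov (κ := (Pool.ND54.opl F c ⌊w * J⌋₊ H 3 (v i j)).coeff 0 -
      (Pool.ND54.opl F c ⌊w * J⌋₊ H 3 (v 0 j)).coeff 0) hW.le hψd
      ((hrt i j).trans (hrt 0 j).symm) fun τ hτ => ?_
    have h8 := pc_near1 hdH h7 hτ
    have e2 : ∀ i', Pool.ND54.opl F c ⌊w * J⌋₊ H 3 (v i' j) =
        op ⌊w * J⌋₊ c ψ (slam F ⌊w * J⌋₊ (v i' j)) 3 := fun i' => by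
      unfold Pool.ND54.opl
      rw [hψ]
    have e1 : (op ⌊w * J⌋₊ c ψ (slam F ⌊w * J⌋₊ (v i j)) 3).eval τ -
        (op ⌊w * J⌋₊ c ψ (slam F ⌊w * J⌋₊ (v 0 j)) 3).eval τ -
        ((Pool.ND54.opl F c ⌊w * J⌋₊ H 3 (v i j)).coeff 0 -
          (Pool.ND54.opl F c ⌊w * J⌋₊ H 3 (v 0 j)).coeff 0) =
        ((Pool.ND54.opl F c ⌊w * J⌋₊ H 3 (v i j)).eval τ -
          (Pool.ND54.opl F c ⌊w * J⌋₊ H 3 (v i j)).coeff 0) -
        ((Pool.ND54.opl F c ⌊w * J⌋₊ H 3 (v 0 j)).eval τ -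
          (Pool.ND54.opl F c ⌊w * J⌋₊ H 3 (v 0 j)).coeff 0) := by
      rw [e2, e2]
      ring
    rw [e1]
    exact h8
  -- the relation of the lines number `0` with the lines number `j`
  obtain ⟨lam, hlam⟩ : ∃ lam : Fin 2 → ℝ, lam = ![-1, 1] := ⟨_, rfl⟩
  have hl0 : lam 0 = -1 := by rw [hlam]; rfl
  have hl1 : lam 1 = 1 := by rw [hlam]; rfl
  obtain ⟨G, hG⟩ : ∃ G : ℕ → ℝ, G = fun l => (grP F c D₂ ⌊w * J⌋₊ H Hr (slam F ⌊w * J⌋₊ (v 1 0)) l -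
      grP F c D₂ ⌊w * J⌋₊ H Hr (slam F ⌊w * J⌋₊ (v 0 0)) l).eval (rt F ⌊w * J⌋₊ (v 0 0)) := ⟨_, rfl⟩
  have hgr := gA_grP (F := F) c D₂ ⌊w * J⌋₊ (H := H) (Hr := Hr) lam (fun i : Fin 2 => v i 0)
    (ψ := ψ) (fun i => hψ i 0)
  have key : ∀ j, |G 3 + ∑ l ∈ range 3, G l * ov F c ψ (v 0 j) l| ≤ ε₃ + 2 * El := by
    intro j
    have k1 := hLn (ι := Fin 2) 0 lam (fun i => v i 0) (fun i => v i j) (v 0 0) ψ ε₃
      (fun i => h1 i 0) (fun i => h1 i j) (fun i => (h2 i j).symm) (fun i => hT i 0)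
      (fun i => hψ i 0) (by
        rw [Fin.sum_univ_two, hl0, hl1]
        have := hnear3 1 j
        have e1 : -1 * ov F c ψ (v 0 j) 3 + 1 * ov F c ψ (v 1 j) 3 =
          ov F c ψ (v 1 j) 3 - ov F c ψ (v 0 j) 3 := by ring
        rw [e1]
        exact this) (fun i l hl => hnear i j l hl)
    have e0 : ∑ i, |lam i| = 2 := by
      rw [Fin.sum_univ_two, hl0, hl1]
      norm_num
    rw [e0, hgr.1] at k1
    have e1 : (∑ i, Polynomial.C (lam i) *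
        grP F c D₂ ⌊w * J⌋₊ H Hr (slam F ⌊w * J⌋₊ (v i 0)) 3).eval (rt F ⌊w * J⌋₊ (v 0 0)) = G 3 := by
      rw [hG, Fin.sum_univ_two, hl0, hl1]
      simp only [Polynomial.eval_add, Polynomial.eval_mul, Polynomial.eval_C, Polynomial.eval_sub]
      ring
    have e2 : ∑ l ∈ range 3, (gA ⌊w * J⌋₊ c 3 D₂ ψ lam (fun i => slam F ⌊w * J⌋₊ (v i 0))
        (fun i => Hr (slam F ⌊w * J⌋₊ (v i 0)) 3) l).eval (rt F ⌊w * J⌋₊ (v 0 0)) *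
          ov F c ψ (v 0 j) l = ∑ l ∈ range 3, G l * ov F c ψ (v 0 j) l := by
      refine Finset.sum_congr rfl fun l hl => ?_
      rw [hgr.2 l (Finset.mem_range.1 hl), hG, Fin.sum_univ_two, hl0, hl1]
      simp only [Polynomial.eval_add, Polynomial.eval_mul, Polynomial.eval_C, Polynomial.eval_sub]
      ring
    rw [e1, e2] at k1
    exact k1
  have key0 := key 0
  have key1 := key 1
  rw [Finset.sum_range_succ] at key0 key1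
  have hm := rt_mem F ⌊w * J⌋₊ (v 0 0)
  have hGl : ∀ l < 2, |G l| ≤ 2 * Bg l := by
    intro l hl
    rw [hG]
    show |(_ - _ : Polynomial ℝ).eval _| ≤ _
    rw [Polynomial.eval_sub]
    refine (abs_sub _ _).trans ?_
    have a1 := hBg _ (h1 1 0) l hl _ ⟨hm.1, hm.2⟩
    have a2 := hBg _ (h1 0 0) l hl _ ⟨hm.1, hm.2⟩
    linarith
  -- the velocities over the first two places are near
  have hvel : ∀ l < 2, |ov F c ψ (v 0 1) l - ov F c ψ (v 0 0) l| ≤ δv l := by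
    intro l hl
    have hcod : pcC F c D w H l 0 (n l) (v 0 1) = pcC F c D w H l 0 (n l) (v 0 0) :=
      congrFun (rX_eq (h2 0 1)).2.2.1 ⟨l, hl⟩
    refine le_trans ?_ (hδv l (by omega))
    refine hov (κ := 0) hW.le hψd (hrt 0 1) fun τ hτ => ?_
    have h8 := pc_near hdH hcod hτ
    unfold Pool.ND54.opl at h8
    rw [hψ, hψ] at h8
    rw [sub_zero]
    exact h8
  obtain ⟨Δ, hΔe⟩ : ∃ Δ, Δ = ov F c ψ (v 0 1) 2 - ov F c ψ (v 0 0) 2 := ⟨_, rfl⟩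
  rw [← hΔe] at hal
  have hkey : |G 2 * Δ| ≤ 2 * ε₃ + 4 * El + 2 * ∑ l ∈ range 2, Bg l * δv l := by
    have e1 : G 2 * Δ = (G 3 + (∑ l ∈ range 2, G l * ov F c ψ (v 0 1) l +
        G 2 * ov F c ψ (v 0 1) 2)) - (G 3 + (∑ l ∈ range 2, G l * ov F c ψ (v 0 0) l +
        G 2 * ov F c ψ (v 0 0) 2)) - ∑ l ∈ range 2, G l *
          (ov F c ψ (v 0 1) l - ov F c ψ (v 0 0) l) := by
      have e2 : ∑ l ∈ range 2, G l * (ov F c ψ (v 0 1) l - ov F c ψ (v 0 0) l) =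
          ∑ l ∈ range 2, G l * ov F c ψ (v 0 1) l - ∑ l ∈ range 2, G l * ov F c ψ (v 0 0) l := by
        rw [← Finset.sum_sub_distrib]
        exact Finset.sum_congr rfl fun l _ => by ring
      rw [e2, hΔe]
      ring
    rw [e1]
    have e3 : |∑ l ∈ range 2, G l * (ov F c ψ (v 0 1) l - ov F c ψ (v 0 0) l)| ≤
        2 * ∑ l ∈ range 2, Bg l * δv l := by
      rw [Finset.mul_sum]
      refine (Finset.abs_sum_le_sum_abs _ _).trans (Finset.sum_le_sum fun l hl => ?_)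
      have hl' := Finset.mem_range.1 hl
      rw [abs_mul, ← mul_assoc]
      exact mul_le_mul (hGl l hl') (hvel l hl') (abs_nonneg _) ((abs_nonneg _).trans (hGl l hl'))
    have e4 := abs_sub ((G 3 + (∑ l ∈ range 2, G l * ov F c ψ (v 0 1) l +
        G 2 * ov F c ψ (v 0 1) 2)) - (G 3 + (∑ l ∈ range 2, G l * ov F c ψ (v 0 0) l +
        G 2 * ov F c ψ (v 0 0) 2))) (∑ l ∈ range 2, G l *
          (ov F c ψ (v 0 1) l - ov F c ψ (v 0 0) l))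
    have e5 := abs_sub (G 3 + (∑ l ∈ range 2, G l * ov F c ψ (v 0 1) l +
        G 2 * ov F c ψ (v 0 1) 2)) (G 3 + (∑ l ∈ range 2, G l * ov F c ψ (v 0 0) l +
        G 2 * ov F c ψ (v 0 0) 2))
    linarith
  have hfin : |G 2| ≤ ε := by
    rw [abs_mul] at hkey
    have h5 : |G 2| * B ≤ |G 2| * |Δ| := mul_le_mul_of_nonneg_left hal (abs_nonneg _)
    exact le_of_mul_le_mul_right (h5.trans (hkey.trans hε)) hB
  rw [hG] at hfin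
  exact hfin

/-- **The codes of the slope path are few** given the near data of the line. -/
theorem na_pr (D D₂ : ℕ) : ∃ C : ℕ, 1 ≤ C ∧ ∀ {m J : ℕ} {F : Fam m J} {A : F.Ω → Prop}
    (_ : 0 < Pe F.p A) {c : ℕ → Fin m} {w t τ x' : ℝ} {n : ℕ → ℝ} {nt nτ s₀ β δd e : ℝ}
    {H Hr : LnT F → ℕ → MvPolynomial (Option (Fin m)) ℝ} (_ : NaE F A c D w x' n e H)
    (_ : NaT F A c D w t τ n nt nτ s₀ β δd e H), 0 ≤ w → w ≤ 1 →
    nτ - (τ - w) ≤ n 2 → ⌊w * J⌋₊ < J → nt ≤ n 2 → 0 < δd → ∀ {e₃ : ℝ},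
    CH (cpn (Pool.Agent.H49.Ent.cond F.p A True) (rX F A c D w t τ n nt H) 1)
      (fun v => fbC F c w H τ nτ (v 1)) (fun v => fbC F c w H τ nτ (v 0)) ≤ e₃ →
    (∀ s l, (H s l).totalDegree ≤ D) →
    (∀ ω ω', A ω → A ω' → cR F A w ω = cR F A w ω' →
      H (slam F ⌊w * J⌋₊ ω) = H (slam F ⌊w * J⌋₊ ω')) →
    ∀ {δv : ℕ → ℝ} {El : ℝ}, LinE F A c D₂ ⌊w * J⌋₊ H Hr
      (fun a b => rX F A c D w t τ n nt H a = rX F A c D w t τ n nt H b) δv El →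
    (∀ l ≤ 2, 2 ^ C * 2 ^ ⌊w * J⌋₊ * (((D : ℝ) + 2) / 2 ^ (n l * J)) ≤ δv l) →
    ∀ {Bc : ℝ} {Bg : ℕ → ℝ}, (∀ ω, A ω → ∀ τ ∈ Set.Icc (0 : ℝ) 1,
      |(grP F c D₂ ⌊w * J⌋₊ H Hr (slam F ⌊w * J⌋₊ ω) 2).eval τ| ≤ Bc) →
    (∀ ω, A ω → ∀ l < 2, ∀ τ ∈ Set.Icc (0 : ℝ) 1,
      |(grP F c D₂ ⌊w * J⌋₊ H Hr (slam F ⌊w * J⌋₊ ω) l).eval τ| ≤ Bg l) →
    ∀ {ε₃ ε σ ρ Bp Dp ls : ℝ},
    2 ^ C * 2 ^ ⌊w * J⌋₊ * (((D : ℝ) + 1) / 2 ^ (n 3 * J)) ≤ ε₃ → 0 ≤ ε →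
    2 * ε₃ + 4 * El + 2 * ∑ l ∈ range 2, Bg l * δv l ≤ ε * 2 ^ (-((nτ - τ + β) * J)) →
    0 ≤ σ → 0 < ρ → ρ < 1 →
    (C : ℝ) ≤ ρ ^ C * (2 * ((2 ^ (J - ⌊w * J⌋₊ - 1) : ℕ) : ℝ) + 1) →
    C * (σ * Bc) ≤ Bp → C * (1 / ρ) ^ C * (σ * ε) ≤ Dp → 4 * (e * J) + (e₃ + C) ≤ ls →
    CH (Pool.Agent.H49.Ent.cond F.p A True)
      (fun ω => cq (D₂ + 3 * D₂) σ (grP F c D₂ ⌊w * J⌋₊ H Hr (slam F ⌊w * J⌋₊ ω) 2))
      (xg F A c D w n nt H) ≤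
      ls + (((D₂ + 3 * D₂ : ℕ) : ℝ) + 1) * (Real.log 2 +
        ((δd + (ls + (e * J + 2 * Real.log 2) + Real.log 2) / Real.log (1 / ρ)) *
          Real.log (2 * (Bp + 1) + 1) + Real.log (2 * (Dp + 1) + 1))) := by
  classical
  obtain ⟨C₁, hC₁, hrel⟩ := pr_rel D D₂
  obtain ⟨C₂, hC₂, hgen⟩ := pr_gen (D₂ + 3 * D₂)
  obtain ⟨K, hK⟩ : ∃ K : ℝ, K = 2 * Real.log 2 + Real.log 3 + Real.log 5 +
        2 * ((∑ j ∈ range (D + 2), cJ D j) + cD D) := ⟨_, rfl⟩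
  obtain ⟨C, hC1, hC2, hC3⟩ : ∃ C : ℕ, C₁ ≤ C ∧ ⌈C₂⌉₊ ≤ C ∧ K ≤ C := by
    refine ⟨C₁ + ⌈C₂⌉₊ + ⌈K⌉₊, by omega, by omega, (Nat.le_ceil K).trans ?_⟩
    have k1 : (0 : ℝ) ≤ (C₁ : ℝ) := Nat.cast_nonneg C₁
    have k2 : (0 : ℝ) ≤ (⌈C₂⌉₊ : ℝ) := Nat.cast_nonneg ⌈C₂⌉₊
    push_cast
    linarith
  have hC2' : C₂ ≤ C := (Nat.le_ceil C₂).trans (by exact_mod_cast hC2)
  refine ⟨C, by omega, ?_⟩
  intro m J F A hA c w t τ x' n nt nτ s₀ β δd e H Hr hE ha hw0 hw1 hn hW hnt hδd e₃ h3 hdH hHc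
    δv El hLn hδv Bc Bg hBc hBg ε₃ ε σ ρ Bp Dp ls hε₃ hε0 hε hσ hρ hρ1 hCM hBp hDp hls
  have hp2 : ∀ s : ℝ, (0 : ℝ) < 2 ^ (s * (J : ℝ)) := fun s => Real.rpow_pos_of_pos (by norm_num) _
  have hBα : (0 : ℝ) < 2 ^ (-((nτ - τ + β) * J)) := Real.rpow_pos_of_pos (by norm_num) _
  obtain ⟨p, hpe⟩ : ∃ p, p = Pool.Agent.H49.Ent.cond F.p A True := ⟨_, rfl⟩
  have hp : IsLaw p := by rw [hpe]; exact isLaw_cond F.isLaw hA
  have p0 := hp.nonneg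
  have hpA : ∀ ω, 0 < p ω → A ω := fun ω hω => by
    rw [hpe] at hω
    exact cond_A hω
  have g1 := na_loss hA hE ha hw0 hw1 hW (fun l _ x => hdH x l) hnt hn h3
  have g2 := ttw_full F hA hW hE.tm
  have g3 := alive_sep hp (rX F A c D w t τ n nt H)
    (fun ω => ojet F (c 2) 1 (H (slam F ⌊w * J⌋₊ ω) 2) ω)
    (B := 2 ^ (-((nτ - τ + β) * J))) (δ := δd) hBα hδd (by rw [hpe]; exact ha.al)
  simp only [ojet_ov] at g3
  rw [← hpe] at g1 g2 ⊢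
  have hql := cpn_law hp (rX F A c D w t τ n nt H) 1
  obtain ⟨q, hq⟩ : ∃ q, q = cpn p (rX F A c D w t τ n nt H) 1 := ⟨_, rfl⟩
  have hqpos : ∀ v, 0 < q v → (∀ i, 0 < p (v i)) ∧
      ∀ i, rX F A c D w t τ n nt H (v i) = rX F A c D w t τ n nt H (v 0) := fun v hv => by
    rw [hq] at hv
    exact ⟨fun i => (cpn_pos p0 _ 1 v hv).1 i, fun i => (cpn_pos p0 _ 1 v hv).2 i⟩
  have m0 : ∀ {Γ Γ' : Type} (a : F.Ω → Γ) (b : F.Ω → Γ'), CH q (fun v => a (v 0))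
      (fun v => b (v 0)) = CH p a b := fun a b => by
    rw [hq]
    exact CH_cpn hp (rX F A c D w t τ n nt H) 1 0 a b
  rw [← hq] at g1 g3 hql
  have hC2R : (0 : ℝ) ≤ C₂ := by linarith
  have hpw : ρ ^ C ≤ ρ ^ ⌈C₂⌉₊ := pow_le_pow_of_le_one hρ.le hρ1.le hC2
  have hpw' : (1 / ρ) ^ ⌈C₂⌉₊ ≤ (1 / ρ) ^ C :=
    pow_le_pow_right₀ (by rw [le_div_iff₀ hρ]; linarith) hC2
  have hBc0 : 0 ≤ Bc := by
    by_contra hneg
    push Not at hneg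
    have h4 : ∑ ω, p ω = 0 := Finset.sum_eq_zero fun ω _ => by
      by_contra h5
      have h6 : 0 < p ω := lt_of_le_of_ne (p0 ω) (Ne.symm h5)
      have h7 := (abs_nonneg _).trans (hBc ω (hpA ω h6) 0 ⟨le_rfl, zero_le_one⟩)
      linarith
    have h5 := hp.sum_one
    rw [h4] at h5
    norm_num at h5
  have main := hgen (q := q) (fun v : Fin (1 + 1) → F.Ω => slam F ⌊w * J⌋₊ (v 0))
    (fun v => ttw F ⌊w * J⌋₊ (v 0)) (fun v => xg F A c D w n nt H (v 0))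
    (fun v => (F.T (v 0), (xg F A c D w n nt H (v 0), xg F A c D w n nt H (v 1))))
    (fun s => grP F c D₂ ⌊w * J⌋₊ H Hr s 2) (2 ^ (J - ⌊w * J⌋₊ - 1))
    (δ := ε) (σ := σ) (ρ := ρ) (Bc := Bc) (B := Bp) (D := Dp) (ls := ls)
    (et := e * J + 2 * Real.log 2) (c₁ := δd) hql
    (fun v v' hv hv' h => det_xg hpA _ _ ((hqpos v hv).1 0) ((hqpos v' hv').1 0) h)
    (fun v v' _ _ h => (Prod.ext_iff.1 (Prod.ext_iff.1 h).2).1) (Nat.one_le_two_pow) hρ hρ1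
    (hC2'.trans (hCM.trans (mul_le_mul_of_nonneg_right hpw (by positivity))))
    (fun v _ => ttw_le F hW (v 0))
    (g2.trans (le_of_eq (m0 _ _).symm)) (g1.trans (by linarith))
    (fun s => grP_deg F c D₂ ⌊w * J⌋₊ H Hr s 2) hε0 hσ
    (fun v hv τ hτ => hBc _ (hpA _ ((hqpos v hv).1 0)) τ hτ)
    ((mul_le_mul_of_nonneg_right hC2' (mul_nonneg hσ hBc0)).trans hBp)
    (le_trans (mul_le_mul_of_nonneg_right (mul_le_mul hC2' hpw' (by positivity) (by linarith))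
      (mul_nonneg hσ hε0)) hDp) (by
      have hyl : IsLaw (cpn q (fun v : Fin (1 + 1) → F.Ω =>
        (F.T (v 0), (xg F A c D w n nt H (v 0), xg F A c D w n nt H (v 1)))) 1) :=
        cpn_law hql _ 1
      have h5 : Pb (cpn q (fun v : Fin (1 + 1) → F.Ω =>
          (F.T (v 0), (xg F A c D w n nt H (v 0), xg F A c D w n nt H (v 1)))) 1)
          (fun u => |ov F c (H (slam F ⌊w * J⌋₊ (u 0 1))) (u 0 1) 2 -
            ov F c (H (slam F ⌊w * J⌋₊ (u 0 0))) (u 0 0) 2| < 2 ^ (-((nτ - τ + β) * J))) ≤ δd := by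
        refine le_trans (le_of_eq ?_) g3
        exact Pool.MIC.Marg.Pb_eq (cpn_marg hql.nonneg (fun v : Fin (1 + 1) → F.Ω =>
          (F.T (v 0), (xg F A c D w n nt H (v 0), xg F A c D w n nt H (v 1)))) 1 0)
          (fun v : Fin (1 + 1) → F.Ω => |ov F c (H (slam F ⌊w * J⌋₊ (v 1))) (v 1) 2 -
            ov F c (H (slam F ⌊w * J⌋₊ (v 0))) (v 0) 2| < 2 ^ (-((nτ - τ + β) * J)))
      refine le_trans (Pool.XLF.Pb_le hyl.nonneg fun u hu hnot => ?_) h5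
      by_contra hne
      push Not at hne
      apply hnot
      have hu1 := cpn_pos hql.nonneg _ 1 u hu
      have hq1 := fun i => hqpos (u i) (hu1.1 i)
      rw [tu_ttw F hW]
      have hTi : ∀ i j, F.T (u i j) = F.T (u 0 0) := fun i j => by
        have e1 : F.T (u i j) = F.T (u i 0) := congrArg Prod.fst (rX_eq ((hq1 i).2 j)).2.1
        have e2 : F.T (u i 0) = F.T (u 0 0) := (Prod.ext_iff.1 (hu1.2 i)).1
        rw [e1, e2]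
      exact hrel hW hdH hHc hLn (fun l hl => le_trans (mul_le_mul_of_nonneg_right
        (mul_le_mul_of_nonneg_right (pow_le_pow_right₀ (by norm_num) hC1) (by positivity))
          (by have := hp2 (n l); positivity)) (hδv l hl)) hBg hBα
        (le_trans (mul_le_mul_of_nonneg_right
          (mul_le_mul_of_nonneg_right (pow_le_pow_right₀ (by norm_num) hC1) (by positivity))
            (by have := hp2 (n 3); positivity)) hε₃) hε u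
        (fun i j => hpA _ ((hq1 i).1 j)) (fun i j => (hq1 i).2 j) hTi
        (fun i j => by
          have e2 := (Prod.ext_iff.1 (hu1.2 i)).2
          have e3 := Prod.ext_iff.1 e2
          refine Fin.cases ?_ (fun k => ?_) j
          · exact e3.1
          · have hk : k.succ = (1 : Fin 2) := by
              have : k = 0 := Fin.ext (by omega)
              rw [this]
              rfl
            rw [hk]
            exact e3.2) hne)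
  have e1 : CH q (fun v : Fin (1 + 1) → F.Ω => cq (D₂ + 3 * D₂) σ
      (grP F c D₂ ⌊w * J⌋₊ H Hr (slam F ⌊w * J⌋₊ (v 0)) 2)) (fun v => xg F A c D w n nt H (v 0)) =
      CH p (fun ω => cq (D₂ + 3 * D₂) σ (grP F c D₂ ⌊w * J⌋₊ H Hr (slam F ⌊w * J⌋₊ ω) 2))
        (xg F A c D w n nt H) := m0 (fun ω => cq (D₂ + 3 * D₂) σ
          (grP F c D₂ ⌊w * J⌋₊ H Hr (slam F ⌊w * J⌋₊ ω) 2)) (xg F A c D w n nt H)
  rw [e1] at main
  exact main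

/-- **The codes of the slope path** of a line. -/
noncomputable def kcN (F : Fam m J) (c : ℕ → Fin m) (D₂ : ℕ) (w σ : ℝ)
    (H Hr : LnT F → ℕ → MvPolynomial (Option (Fin m)) ℝ) (ω : F.Ω) : Fin (D₂ + 3 * D₂ + 1) → ℤ :=
  cq (D₂ + 3 * D₂) σ (grP F c D₂ ⌊w * J⌋₊ H Hr (slam F ⌊w * J⌋₊ ω) 2)

theorem kcN_det {F : Fam m J} {c : ℕ → Fin m} {D₂ : ℕ} {w σ : ℝ}
    {H Hr : LnT F → ℕ → MvPolynomial (Option (Fin m)) ℝ} {ω ω' : F.Ω}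
    (h : slam F ⌊w * J⌋₊ ω = slam F ⌊w * J⌋₊ ω') :
    kcN F c D₂ w σ H Hr ω = kcN F c D₂ w σ H Hr ω' := by
  unfold kcN
  rw [h]

theorem kcN_near {F : Fam m J} {c : ℕ → Fin m} {D₂ : ℕ} {w σ : ℝ}
    {H Hr : LnT F → ℕ → MvPolynomial (Option (Fin m)) ℝ} (hσ : 0 < σ) {ω ω' : F.Ω}
    (h : kcN F c D₂ w σ H Hr ω = kcN F c D₂ w σ H Hr ω') {τ : ℝ} (hτ : τ ∈ Set.Icc (0 : ℝ) 1) :
    |(grP F c D₂ ⌊w * J⌋₊ H Hr (slam F ⌊w * J⌋₊ ω) 2).eval τ -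
      (grP F c D₂ ⌊w * J⌋₊ H Hr (slam F ⌊w * J⌋₊ ω') 2).eval τ| ≤
        (((D₂ + 3 * D₂ : ℕ) : ℝ) + 1) / σ :=
  cq_near h hσ (grP_deg F c D₂ _ H Hr _ 2) (grP_deg F c D₂ _ H Hr _ 2) hτ

end Pool.NA60
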