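import Pool.Agent.H60.NA.Lvl

/-!
# The linear relation of the tuple of pairs

`na_rel`: both lines of the first pair satisfy the linear relation whose coefficients are the divided
differences of the gradients of the lines number `0`.
-/

set_option autoImplicit false

namespace Pool.NA60

open Finset Real MvPolynomial
open Pool.Agent.H49.Ent Pool.Agent.H32.Dense Pool.STK Pool.KA Pool.KSAT Pool.K2S Pool.PB Pool.S6C
open Pool.GEN hiding Det
open Pool.CHT Pool.D2R Pool.LA91 Pool.RCD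
open Pool.PB.Trl (rt rt_mem t_rt)
open Pool.V0F (cR)
open Pool.NDC42
open Pool.BFL (Pb)
open Pool.NA36 (vpC f1C f2C fbC X0 rX NaT NaE)
open Pool.ND54 (cond_A det_x0 det_xg elN hh hLc grP grP_deg OwnE LinE ti ai ti_inj ai_inj pc_near
  pc_near1 hg_near hLc_coarse hgt_par own_quad ttw ttw_le ttw_full tu_ttw tup_q rel_tup PAr opl_deg)
open Pool.NDD66 (op op_at op_deg op_der ov mu Lam Lam_le ov_near)

variable {m J : ℕ}

/-- **The divided difference** of the component `i` of the gradient of the lines number `0`, at the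
own time. -/
noncomputable def dG (F : Fam m J) (c : ℕ → Fin m) (D D₂ : ℕ) (w s : ℝ)
    (H Hr : LnT F → ℕ → MvPolynomial (Option (Fin m)) ℝ) (v : Fin (2 * D + 1 + 1) → Fin 2 → F.Ω)
    (i : ℕ) : ℝ :=
  ∑ k : Fin (D + 2), mu (fun k => hh F c D w s H (v (ti k) 0)) k *
    (grP F c D₂ ⌊w * J⌋₊ H Hr (slam F ⌊w * J⌋₊ (v (ti k) 0)) i).eval (rt F ⌊w * J⌋₊ (v 0 0))

/-- **The relations of the two lines of the first pair.** -/
theorem na_rel (D D₂ : ℕ) : ∃ Cd : ℕ, 1 ≤ Cd ∧ ∀ {m J : ℕ} {F : Fam m J} {A : F.Ω → Prop}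
    {c : ℕ → Fin m} {w t τ : ℝ} {n : ℕ → ℝ} {nt : ℝ}
    {H Hr : LnT F → ℕ → MvPolynomial (Option (Fin m)) ℝ}, ⌊w * J⌋₊ < J → nt ≤ n 2 →
    (∀ s l, (H s l).totalDegree ≤ D) →
    (∀ ω ω', A ω → A ω' → cR F A w ω = cR F A w ω' →
      H (slam F ⌊w * J⌋₊ ω) = H (slam F ⌊w * J⌋₊ ω')) →
    ∀ {δv : ℕ → ℝ} {El : ℝ}, LinE F A c D₂ ⌊w * J⌋₊ H Hr
      (fun a b => rX F A c D w t τ n nt H a = rX F A c D w t τ n nt H b) δv El →
    0 ≤ El → ∀ {s Su Bc η₃ Lm εR : ℝ}, 0 < s → Su = 3 / 2 ^ (nt * J) →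
    (2 * (D : ℝ) + 8) / 2 ^ (n 2 * J) ≤ Su →
    (∀ ω, A ω → ∀ τ ∈ Set.Icc (0 : ℝ) 1,
      |(grP F c D₂ ⌊w * J⌋₊ H Hr (slam F ⌊w * J⌋₊ ω) 2).eval τ| ≤ Bc) →
    (∀ l ≤ 2, 2 ^ Cd * 2 ^ ⌊w * J⌋₊ * (((D : ℝ) + 2) / 2 ^ (n l * J)) ≤ δv l) →
    Lm = (D + 2) * (Su / s) ^ (D + 1) → 0 ≤ η₃ →
    2 ^ Cd * 2 ^ ⌊w * J⌋₊ * (Lm * (η₃ + D * ((2 * Su / s) ^ (D - 1) *
      ((2 * D + 8) / 2 ^ (n 2 * J)) * Bc))) + Lm * El ≤ εR →
    ∀ v : Fin (2 * D + 1 + 1) → Fin 2 → F.Ω, (∀ i j, A (v i j)) →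
    (∀ i j, rX F A c D w t τ n nt H (v i j) = rX F A c D w t τ n nt H (v i 0)) →
    (∀ i j, F.T (v i j) = F.T (v 0 0)) →
    (∀ i j, x0 F A c D w n nt H (v i j) = x0 F A c D w n nt H (v 0 j)) →
    (∀ i j, cR F A w (v i j) = cR F A w (v 0 0)) →
    (∀ j, ((∀ i i', i ≠ i' →
        s ≤ |hh F c D w (n 2) H (v i j) - hh F c D w (n 2) H (v i' j)| ∧
          |hh F c D w (n 2) H (v i j) - hh F c D w (n 2) H (v i' j)| ≤ Su) ∧
      ∀ i, ∀ τ ∈ Set.Icc (0 : ℝ) 1, |(Pool.ND54.opl F c ⌊w * J⌋₊ H 3 (v i j)).eval τ -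
        (Pool.ND54.opl F c ⌊w * J⌋₊ H 3 (v 0 j)).eval τ - ∑ k : Fin D,
        (Pool.NDD66.Qk (fun k => hh F c D w (n 2) H (v (ai k) j))
          (hh F c D w (n 2) H (v 0 j)) k).eval (hh F c D w (n 2) H (v i j)) *
          (grP F c D₂ ⌊w * J⌋₊ H Hr (slam F ⌊w * J⌋₊ (v (ai k) j)) 2).eval τ| ≤ η₃)) →
    ∀ j, |dG F c D D₂ w (n 2) H Hr v 3 + ∑ l ∈ range 3, dG F c D D₂ w (n 2) H Hr v l *
      ov F c (H (slam F ⌊w * J⌋₊ (v 0 0))) (v 0 j) l| ≤ εR := by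
  classical
  obtain ⟨C₁, hC₁, hder⟩ := Pool.D2R.der_one (D + 1)
  obtain ⟨C₂, hC₂, hov⟩ := ov_near D
  obtain ⟨c₁, hc₁⟩ := pow_unbounded_of_one_lt C₁ (one_lt_two (α := ℝ))
  refine ⟨c₁ + C₂, by omega, ?_⟩
  intro m J F A c w t τ n nt H Hr hW hnt hdH hHc δv El hLn hEl s Su Bc η₃ Lm εR hs hSu hδh
    hBc hδv hLm hη₃ hεR v h1 h2 k1 h5 hcw hgood j
  have hn2 : (0 : ℝ) < 2 ^ (n 2 * J) := Real.rpow_pos_of_pos (by norm_num) _
  have hSu0 : 0 < Su := by rw [hSu]; exact div_pos (by norm_num) (Real.rpow_pos_of_pos (by norm_num) _)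
  obtain ⟨θ, hθ⟩ : ∃ θ, θ = rt F ⌊w * J⌋₊ (v 0 0) := ⟨_, rfl⟩
  have hrt : ∀ i j, rt F ⌊w * J⌋₊ (v i j) = θ := fun i j => by
    rw [hθ]
    exact Pool.NDD66.rt_congr (k1 i j)
  have hθm : θ ∈ Set.Icc (0 : ℝ) 1 := by
    rw [hθ]
    have := rt_mem F ⌊w * J⌋₊ (v 0 0)
    exact ⟨this.1, this.2⟩
  obtain ⟨ψ, hψe⟩ : ∃ ψ, ψ = H (slam F ⌊w * J⌋₊ (v 0 0)) := ⟨_, rfl⟩
  have hψ : ∀ i j, H (slam F ⌊w * J⌋₊ (v i j)) = ψ := fun i j => by
    rw [hψe]
    exact hHc _ _ (h1 i j) (h1 0 0) (hcw i j)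
  rw [← hψe]
  have hψd : ∀ l, (ψ l).totalDegree ≤ D := fun l => by rw [hψe]; exact hdH _ l
  obtain ⟨δh, hδhe⟩ : ∃ δh : ℝ, δh = (2 * D + 8) / 2 ^ (n 2 * J) := ⟨_, rfl⟩
  have hδh0 : 0 ≤ δh := by rw [hδhe]; positivity
  rw [← hδhe] at hδh hεR
  obtain ⟨hH, hhH⟩ : ∃ hH : Fin (2 * D + 1 + 1) → ℝ, hH = fun i => hh F c D w (n 2) H (v i 0) :=
    ⟨_, rfl⟩
  -- the heights of the other lines
  have hpar : ∀ i, |(hh F c D w (n 2) H (v i j) - hh F c D w (n 2) H (v 0 j)) -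
      (hH i - hH 0)| ≤ δh := by
    intro i
    have a1 : ∀ j', |(Pool.ND54.opl F c ⌊w * J⌋₊ H 2 (v i j')).eval θ -
        (Pool.ND54.opl F c ⌊w * J⌋₊ H 2 (v 0 j')).eval θ - (hh F c D w (n 2) H (v i j') -
        hh F c D w (n 2) H (v 0 j'))| ≤ (D + 3) / 2 ^ (n 2 * J) := by
      intro j'
      have a2 := hgt_par hdH (congrArg (fun z => z.2.2.1) (h5 i j'))
        ((hrt i j').trans (hrt 0 j').symm)
      rw [hrt, hrt] at a2
      exact a2
    have a3 : ∀ i', |(Pool.ND54.opl F c ⌊w * J⌋₊ H 2 (v i' j)).eval θ -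
        (Pool.ND54.opl F c ⌊w * J⌋₊ H 2 (v i' 0)).eval θ| ≤ 1 / 2 ^ (n 2 * J) := by
      intro i'
      have a4 : hgC F c w H 2 (n 2) (v i' j) = hgC F c w H 2 (n 2) (v i' 0) :=
        (rX_eq (h2 i' j)).2.2.2.2.2.2.1
      have a5 := hg_near hW.le a4
      rw [hrt, hrt] at a5
      exact a5
    have b1 := abs_le.1 (a1 j)
    have b2 := abs_le.1 (a1 0)
    have b3 := abs_le.1 (a3 i)
    have b4 := abs_le.1 (a3 0)
    have e1 : (2 * (D : ℝ) + 8) / 2 ^ (n 2 * J) = 2 * ((D + 3) / 2 ^ (n 2 * J)) +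
        2 * (1 / 2 ^ (n 2 * J)) := by ring
    rw [hhH, hδhe, e1, abs_le]
    constructor <;> linarith [b1.1, b1.2, b2.1, b2.2, b3.1, b3.2, b4.1, b4.2]
  -- the sheets
  obtain ⟨η₄, hη₄⟩ : ∃ η₄, η₄ = η₃ + D * ((2 * Su / s) ^ (D - 1) * δh * Bc) := ⟨_, rfl⟩
  rw [← hη₄] at hεR
  have hsheet := tup_q (D := D) (nP := fun i => Pool.ND54.opl F c ⌊w * J⌋₊ H 3 (v i j))
    (cP := fun i => grP F c D₂ ⌊w * J⌋₊ H Hr (slam F ⌊w * J⌋₊ (v i j)) 2)
    (H := fun i => hh F c D w (n 2) H (v i j)) (h := hH) (η := η₃) (s := s) (Su := Su)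
    (δh := δh) (Bc := Bc) hs hδh0 hδh (hgood j).1 (fun i τ hτ => hBc _ (h1 i j) τ hτ)
    (hgood j).2 hpar
  rw [← hη₄] at hsheet
  -- the divided difference
  have hinj : Function.Injective (fun k : Fin (D + 2) => hH (ti k)) := by
    intro k k' hkk
    by_contra hne
    have h6 := ((hgood 0).1 (ti k) (ti k') fun h' => hne (ti_inj h')).1
    have h7 : hH (ti k) = hH (ti k') := hkk
    rw [hhH] at h7
    simp only at h7
    rw [h7, sub_self, abs_zero] at h6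
    linarith
  have hLam : Lam (fun k : Fin (D + 2) => hH (ti k)) ≤ Lm := by
    rw [hLm]
    refine Lam_le hs (fun k k' hkk => ?_) (fun k k' => ?_)
    · have := ((hgood 0).1 (ti k) (ti k') fun h' => hkk (ti_inj h')).1
      rw [hhH]
      exact this
    · by_cases hkk : k = k'
      · rw [hkk, sub_self, abs_zero]
        exact hSu0.le
      · have := ((hgood 0).1 (ti k) (ti k') fun h' => hkk (ti_inj h')).2
        rw [hhH]
        exact this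
  have hLm0 : 0 ≤ Lm := (Finset.sum_nonneg fun _ _ => abs_nonneg _).trans hLam
  have hη₄0 : 0 ≤ η₄ := by
    obtain ⟨q, -, hq⟩ := hsheet 0 ⟨le_rfl, zero_le_one⟩
    exact (abs_nonneg _).trans (hq 0)
  obtain ⟨f, hf⟩ : ∃ f : Polynomial ℝ, f = ∑ k : Fin (D + 2),
    Polynomial.C (mu (fun k => hH (ti k)) k) * Pool.ND54.opl F c ⌊w * J⌋₊ H 3 (v (ti k) j) :=
    ⟨_, rfl⟩
  have hfd : f.natDegree ≤ D + 1 := by
    rw [hf]
    exact Polynomial.natDegree_sum_le_of_forall_le _ _ fun _ _ =>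
      (Polynomial.natDegree_C_mul_le _ _).trans (opl_deg F c _ hdH _ _)
  have hf1 : ∀ τ ∈ Set.Icc (0 : ℝ) 1, |f.eval τ| ≤ Lm * η₄ := by
    intro τ hτ
    obtain ⟨q, hq1, hq2⟩ := hsheet τ hτ
    have h6 := Pool.AO64.dd_zero hq1 (fun k : Fin (D + 2) => hH (ti k)) hinj
    have h6' : ∑ k, mu (fun k : Fin (D + 2) => hH (ti k)) k * q.eval (hH (ti k)) = 0 := h6
    have e1 : f.eval τ = ∑ k, mu (fun k : Fin (D + 2) => hH (ti k)) k *
        ((Pool.ND54.opl F c ⌊w * J⌋₊ H 3 (v (ti k) j)).eval τ - q.eval (hH (ti k))) := by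
      rw [hf, Polynomial.eval_finsetSum]
      simp only [mul_sub, Finset.sum_sub_distrib, Polynomial.eval_mul, Polynomial.eval_C]
      rw [h6', sub_zero]
    rw [e1]
    refine (Finset.abs_sum_le_sum_abs _ _).trans ?_
    have h7 : ∑ k, |mu (fun k : Fin (D + 2) => hH (ti k)) k *
        ((Pool.ND54.opl F c ⌊w * J⌋₊ H 3 (v (ti k) j)).eval τ - q.eval (hH (ti k)))| ≤
        Lam (fun k : Fin (D + 2) => hH (ti k)) * η₄ := by
      unfold Pool.NDD66.Lam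
      rw [Finset.sum_mul]
      refine Finset.sum_le_sum fun k _ => ?_
      rw [abs_mul]
      exact mul_le_mul_of_nonneg_left (hq2 k) (abs_nonneg _)
    exact h7.trans (mul_le_mul_of_nonneg_right hLam hη₄0)
  have hf2 := hder f (Lm * η₄) hfd hf1 θ (by rw [abs_of_nonneg hθm.1]; exact hθm.2)
  -- the own velocities
  have hov3 : |∑ k : Fin (D + 2), mu (fun k => hh F c D w (n 2) H (v (ti k) 0)) k *
      ov F c ψ (v (ti k) j) 3| ≤ 2 ^ (c₁ + C₂) * 2 ^ ⌊w * J⌋₊ * (Lm * η₄) := by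
    have e1 : f.derivative.eval θ = 1 / 2 ^ ⌊w * J⌋₊ * ∑ k : Fin (D + 2),
        mu (fun k => hh F c D w (n 2) H (v (ti k) 0)) k * ov F c ψ (v (ti k) j) 3 := by
      rw [hf, Polynomial.derivative_sum, Polynomial.eval_finsetSum, Finset.mul_sum]
      refine Finset.sum_congr rfl fun k _ => ?_
      rw [Polynomial.derivative_C_mul, Polynomial.eval_mul, Polynomial.eval_C]
      have e2 : (Polynomial.derivative (Pool.ND54.opl F c ⌊w * J⌋₊ H 3 (v (ti k) j))).eval θ =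
          1 / 2 ^ ⌊w * J⌋₊ * ov F c ψ (v (ti k) j) 3 := by
        rw [← hrt (ti k) j]
        unfold Pool.ND54.opl
        rw [op_der hW.le, hψ]
      rw [e2]
      have e3 : (fun k : Fin (D + 2) => hH (ti k)) =
          fun k => hh F c D w (n 2) H (v (ti k) 0) := by
        funext k'
        rw [hhH]
      rw [e3]
      ring
    rw [e1, abs_mul, abs_of_pos (by positivity : (0 : ℝ) < 1 / 2 ^ ⌊w * J⌋₊),
      one_div_mul_eq_div, div_le_iff₀ (by positivity)] at hf2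
    refine hf2.trans ?_
    have h6 : C₁ ≤ 2 ^ (c₁ + C₂) := hc₁.le.trans (pow_le_pow_right₀ (by norm_num) (by omega))
    calc C₁ * (Lm * η₄) * 2 ^ ⌊w * J⌋₊ ≤ 2 ^ (c₁ + C₂) * (Lm * η₄) * 2 ^ ⌊w * J⌋₊ :=
          mul_le_mul_of_nonneg_right (mul_le_mul_of_nonneg_right h6 (by positivity))
            (by positivity)
      _ = _ := by ring
  have hnear : ∀ i, ∀ l ≤ 2, |ov F c ψ (v i j) l - ov F c ψ (v 0 j) l| ≤ δv l := by
    intro i l hl
    refine le_trans ?_ (hδv l hl)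
    have hdl : 0 ≤ ((D : ℝ) + 2) / 2 ^ (n l * J) := by
      have : (0 : ℝ) < 2 ^ (n l * J) := Real.rpow_pos_of_pos (by norm_num) _
      positivity
    have h6 : |ov F c ψ (v i j) l - ov F c ψ (v 0 j) l| ≤
        2 ^ C₂ * 2 ^ ⌊w * J⌋₊ * (((D : ℝ) + 2) / 2 ^ (n l * J)) := by
      have hx0 := h5 i j
      rcases Nat.lt_or_ge l 2 with hl2 | hl2
      · have h7 : pcC F c D w H l 0 (n l) (v i j) = pcC F c D w H l 0 (n l) (v 0 j) :=
          congrFun (congrArg (fun z => z.2.1) hx0) ⟨l, hl2⟩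
        refine hov (κ := 0) hW.le hψd ((hrt i j).trans (hrt 0 j).symm) fun τ hτ => ?_
        have h8 := pc_near hdH h7 hτ
        unfold Pool.ND54.opl at h8
        rw [hψ, hψ] at h8
        rw [sub_zero]
        exact h8
      · obtain rfl : l = 2 := by omega
        have h7 : pcC F c D w H 2 1 (n 2) (v i j) = pcC F c D w H 2 1 (n 2) (v 0 j) :=
          congrArg (fun z => z.2.2.1) hx0
        refine hov (κ := (Pool.ND54.opl F c ⌊w * J⌋₊ H 2 (v i j)).coeff 0 -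
          (Pool.ND54.opl F c ⌊w * J⌋₊ H 2 (v 0 j)).coeff 0) hW.le hψd
          ((hrt i j).trans (hrt 0 j).symm) fun τ hτ => ?_
        have h8 := pc_near1 hdH h7 hτ
        have e1 : (op ⌊w * J⌋₊ c ψ (slam F ⌊w * J⌋₊ (v i j)) 2).eval τ -
            (op ⌊w * J⌋₊ c ψ (slam F ⌊w * J⌋₊ (v 0 j)) 2).eval τ -
            ((Pool.ND54.opl F c ⌊w * J⌋₊ H 2 (v i j)).coeff 0 -
              (Pool.ND54.opl F c ⌊w * J⌋₊ H 2 (v 0 j)).coeff 0) =
            ((Pool.ND54.opl F c ⌊w * J⌋₊ H 2 (v i j)).eval τ -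
              (Pool.ND54.opl F c ⌊w * J⌋₊ H 2 (v i j)).coeff 0) -
            ((Pool.ND54.opl F c ⌊w * J⌋₊ H 2 (v 0 j)).eval τ -
              (Pool.ND54.opl F c ⌊w * J⌋₊ H 2 (v 0 j)).coeff 0) := by
          have e2 : ∀ i', Pool.ND54.opl F c ⌊w * J⌋₊ H 2 (v i' j) =
              op ⌊w * J⌋₊ c ψ (slam F ⌊w * J⌋₊ (v i' j)) 2 := fun i' => by
            unfold Pool.ND54.opl
            rw [hψ]
          rw [e2, e2]
          ring
        rw [e1]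
        refine h8.trans (div_le_div_of_nonneg_right (by linarith) hn2.le)
    refine h6.trans (mul_le_mul_of_nonneg_right (mul_le_mul_of_nonneg_right
      (pow_le_pow_right₀ (by norm_num) (by omega)) (by positivity)) hdl)
  have hLam' : Lam (fun k : Fin (D + 2) => hh F c D w (n 2) H (v (ti k) 0)) ≤ Lm := by
    have e3 : (fun k : Fin (D + 2) => hh F c D w (n 2) H (v (ti k) 0)) =
        fun k : Fin (D + 2) => hH (ti k) := by
      funext k'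
      rw [hhH]
    rw [e3]
    exact hLam
  have key := rel_tup (SR := fun a b => rX F A c D w t τ n nt H a = rX F A c D w t τ n nt H b)
    hLn (hL := hh F c D w (n 2) H) (ell := fun ω : F.Ω => ω)
    (NR := fun i ω => grP F c D₂ ⌊w * J⌋₊ H Hr (slam F ⌊w * J⌋₊ ω) i) (δ := fun _ => 0)
    (fun _ => le_rfl) (fun ω _ i τ _ => by rw [sub_self, abs_zero]) (Λ := Unit) (ls := ())
    (v := fun i => v i 0) (ν := fun i => v i j) (ψ := ψ) (Lm := Lm)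
    (εv := 2 ^ (c₁ + C₂) * 2 ^ ⌊w * J⌋₊ * (Lm * η₄)) (Uv := fun l => |ov F c ψ (v 0 j) l|)
    (fun i => h1 i 0)
    (fun i => h1 i j) (fun i => (h2 i j).symm) (fun i => k1 i 0) (fun i => hψ i 0) hLam' hov3
    hnear hEl (fun l _ => le_rfl)
  have hG : ∀ i, (PAr (hh F c D w (n 2) H)
      (fun i ω => grP F c D₂ ⌊w * J⌋₊ H Hr (slam F ⌊w * J⌋₊ ω) i)
      ((), fun i => (fun ω : F.Ω => ω) (v i 0)) i).eval (rt F ⌊w * J⌋₊ (v 0 0)) =
      dG F c D D₂ w (n 2) H Hr v i := fun i => by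
    unfold PAr dG
    rw [Polynomial.eval_finsetSum]
    refine Finset.sum_congr rfl fun k _ => ?_
    rw [Polynomial.eval_mul, Polynomial.eval_C]
  simp only [hG] at key
  refine key.trans (le_trans (add_le_add le_rfl ?_) hεR)
  refine mul_le_mul_of_nonneg_left (le_of_eq ?_) hLm0
  simp

end Pool.NA60
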